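import Pool.Agent.X324.CF.Plus2

/-!
# Closed pointed cones with a lattice
-/

set_option autoImplicit false

namespace Pool.Agent.W4h4.NR

open Finset Filter Topology
open Pool.Agent.Y167 (cone CData Cp cone_add cone_smul)
open Pool.Agent.X324.CF

section Pos

variable {E : Type*} [NormedAddCommGroup E] [NormedSpace ℝ E] [FiniteDimensional ℝ E]

/-- A linear form which is positive on a closed cone without lines. -/
theorem exists_form {K : Set E} (hcl : IsClosed K) (h0 : (0 : E) ∈ K)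
    (hadd : ∀ x ∈ K, ∀ y ∈ K, x + y ∈ K) (hsmul : ∀ t : ℝ, 0 ≤ t → ∀ x ∈ K, t • x ∈ K)
    (hpt : ∀ x, x ∈ K → -x ∈ K → x = 0) :
    ∃ (f : E →ₗ[ℝ] ℝ) (c : ℝ), 0 < c ∧ ∀ x ∈ K, c * ‖x‖ ≤ f x := by
  classical
  have hconv : Convex ℝ K := by
    intro x hx y hy a b ha hb _
    exact hadd _ (hsmul a ha x hx) _ (hsmul b hb y hy)
  have hsep : ∀ s ∈ K, s ≠ 0 → ∃ f : E →L[ℝ] ℝ, (∀ x ∈ K, 0 ≤ f x) ∧ 0 < f s := by
    intro s hs hs0
    have hns : -s ∉ K := fun h => hs0 (hpt s hs h)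
    obtain ⟨f, v, h1, h2⟩ := geometric_hahn_banach_point_closed hconv hcl hns
    have hv : v < 0 := by simpa using h2 0 h0
    have hf : ∀ x ∈ K, 0 ≤ f x := by
      intro x hx
      by_contra hcon
      push Not at hcon
      have h3 := h2 _ (hsmul (v / f x) (div_nonneg_of_nonpos hv.le hcon.le) x hx)
      rw [map_smul, smul_eq_mul, div_mul_cancel₀ _ hcon.ne] at h3
      exact lt_irrefl _ h3
    refine ⟨f, hf, ?_⟩
    rw [map_neg] at h1
    linarith
  choose! f hf1 hf2 using hsep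
  let S : Set E := K ∩ Metric.sphere (0 : E) 1
  have hS : IsCompact S := (isCompact_sphere (0 : E) 1).inter_left hcl
  have hne : ∀ s ∈ S, s ≠ 0 := by
    rintro s ⟨-, hs⟩ rfl
    simp at hs
  obtain ⟨t, ht, hcov⟩ := hS.elim_nhds_subcover (fun s => {x | 0 < f s x}) fun s hs =>
    (isOpen_lt continuous_const (f s).continuous).mem_nhds (hf2 s hs.1 (hne s hs))
  let F : E →L[ℝ] ℝ := ∑ s ∈ t, f s
  have hFx : ∀ x, F x = ∑ s ∈ t, f s x := fun x => by simp [F]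
  have hFpos : ∀ x ∈ S, 0 < F x := by
    intro x hx
    rw [hFx]
    obtain ⟨s, hs, hsx⟩ := Set.mem_iUnion₂.1 (hcov hx)
    exact Finset.sum_pos' (fun s hs => hf1 s (ht s hs).1 (hne s (ht s hs)) x hx.1) ⟨s, hs, hsx⟩
  have hmin : ∃ c : ℝ, 0 < c ∧ ∀ x ∈ S, c ≤ F x := by
    rcases S.eq_empty_or_nonempty with h | h
    · exact ⟨1, one_pos, fun x hx => by rw [h] at hx; exact absurd hx (Set.notMem_empty x)⟩
    · obtain ⟨x, hx, hxm⟩ := hS.exists_isMinOn h F.continuous.continuousOn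
      exact ⟨F x, hFpos x hx, fun y hy => hxm hy⟩
  obtain ⟨c, hc, hcm⟩ := hmin
  refine ⟨F, c, hc, fun x hx => ?_⟩
  by_cases hx0 : x = 0
  · subst hx0
    simp
  · have hn : 0 < ‖x‖ := norm_pos_iff.2 hx0
    have h1 : ‖x‖⁻¹ • x ∈ S := by
      refine ⟨hsmul _ (inv_nonneg.2 hn.le) x hx, ?_⟩
      rw [mem_sphere_zero_iff_norm, norm_smul, norm_inv, norm_norm, inv_mul_cancel₀ hn.ne']
    have h2 := hcm _ h1
    rw [map_smul, smul_eq_mul] at h2
    have h3 : c * ‖x‖ ≤ (‖x‖⁻¹ * F x) * ‖x‖ := mul_le_mul_of_nonneg_right h2 hn.le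
    rw [mul_comm ‖x‖⁻¹, mul_assoc, inv_mul_cancel₀ hn.ne', mul_one] at h3
    exact h3

end Pos

/-- The same with an integral linear form, in the space `ℝ ^ ρ`. -/
theorem exists_int_form {ρ : ℕ} {K : Set (Fin ρ → ℝ)} (hcl : IsClosed K) (h0 : (0 : Fin ρ → ℝ) ∈ K)
    (hadd : ∀ x ∈ K, ∀ y ∈ K, x + y ∈ K) (hsmul : ∀ t : ℝ, 0 ≤ t → ∀ x ∈ K, t • x ∈ K)
    (hpt : ∀ x, x ∈ K → -x ∈ K → x = 0) :
    ∃ z : Cl ρ, ∀ x ∈ K, ‖x‖ ≤ dot (rv z) x := by
  classical
  obtain ⟨f, c, hc, hf⟩ := exists_form hcl h0 hadd hsmul hpt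
  obtain ⟨N, hN⟩ := exists_nat_gt (((ρ : ℝ) / 2 + 1) / c)
  have hNc : (ρ : ℝ) / 2 + 1 ≤ N * c := by
    rw [div_lt_iff₀ hc] at hN
    exact hN.le
  let z : Cl ρ := fun k => round ((N : ℝ) * f (Pi.single k 1))
  refine ⟨z, fun x hx => ?_⟩
  have h1 : f x = ∑ k, x k * f (Pi.single k 1) := by
    conv_lhs => rw [← Finset.univ_sum_single x]
    rw [map_sum]
    refine Finset.sum_congr rfl fun k _ => ?_
    have h2 : (Pi.single k (x k) : Fin ρ → ℝ) = x k • Pi.single k (1 : ℝ) := by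
      rw [← Pi.single_smul, smul_eq_mul, mul_one]
    rw [h2, map_smul, smul_eq_mul]
  have h3 : |(N : ℝ) * f x - dot (rv z) x| ≤ (ρ : ℝ) / 2 * ‖x‖ := by
    have h4 : (N : ℝ) * f x - dot (rv z) x
        = ∑ k, ((N : ℝ) * f (Pi.single k 1) - z k) * x k := by
      rw [h1, dot_apply, Finset.mul_sum, ← Finset.sum_sub_distrib]
      refine Finset.sum_congr rfl fun k _ => ?_
      rw [rv_apply]
      ring
    rw [h4]
    refine (Finset.abs_sum_le_sum_abs _ _).trans ?_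
    have h5 : ∀ k ∈ (Finset.univ : Finset (Fin ρ)),
        |((N : ℝ) * f (Pi.single k 1) - z k) * x k| ≤ 1 / 2 * ‖x‖ := by
      intro k _
      rw [abs_mul]
      refine mul_le_mul ?_ ?_ (abs_nonneg _) (by norm_num)
      · exact abs_sub_round _
      · rw [← Real.norm_eq_abs]
        exact norm_le_pi_norm x k
    refine (Finset.sum_le_sum h5).trans ?_
    rw [Finset.sum_const, Finset.card_univ, Fintype.card_fin, nsmul_eq_mul]
    linarith
  have h6 := hf x hx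
  have h7 := (abs_le.1 h3).2
  have h8 : 0 ≤ ‖x‖ := norm_nonneg x
  nlinarith [mul_le_mul_of_nonneg_left h6 (Nat.cast_nonneg (α := ℝ) N),
    mul_le_mul_of_nonneg_right hNc h8]

/-- A cone which contains the interior of the cone of the data. -/
theorem cdata_mono {W : Type*} [AddCommGroup W] [Module ℝ W] {L : AddSubgroup W} {K K' : Set W}
    {ξ : W →ₗ[ℝ] ℝ} {y : W} {Y : Finset W} (D : CData L K ξ y Y) (hsub : K' ⊆ K)
    (hadd : ∀ x ∈ K', ∀ y ∈ K', x + y ∈ K') (hsmul : ∀ t : ℝ, 0 ≤ t → ∀ x ∈ K', t • x ∈ K')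
    (hint : ∀ x : W, (∃ t : ℝ, 0 < t ∧ x - t • y ∈ K) → x ∈ K') :
    ∃ Y' : Finset W, CData L K' ξ y Y' := by
  classical
  have hy : y ∈ K' := by
    refine hint y ⟨1 / 2, by norm_num, ?_⟩
    have h1 : y - (1 / 2 : ℝ) • y = (1 / 2 : ℝ) • y := by module
    rw [h1]
    exact D.smul _ (by norm_num) _ D.y_N
  have hplus : ∀ a ∈ K, a + y ∈ K' := by
    intro a ha
    refine hint _ ⟨1, one_pos, ?_⟩
    rw [one_smul, add_sub_cancel_right]
    exact ha
  refine ⟨insert y (Y.image fun a => a + y),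
    { add := hadd
      smul := hsmul
      xi_int := D.xi_int
      xi_pos := fun x hx h0 => D.xi_pos x (hsub hx) h0
      fin := fun C => (D.fin C).subset fun x hx => ⟨hx.1, hsub hx.2.1, hx.2.2⟩
      y_L := D.y_L
      y_N := hy
      y_int := fun x => ?_
      dom := fun η => ?_
      sep := D.sep
      Y_mem := fun a ha => ?_
      Y_span := fun φ hφ => ?_ }⟩
  · obtain ⟨C, hC, h1⟩ := D.y_int x
    refine ⟨C + 1, by linarith, ?_⟩
    have h2 : (C + 1) • y - x = (C • y - x) + y := by module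
    rw [h2]
    exact hplus _ h1
  · obtain ⟨C, hC⟩ := D.dom η
    exact ⟨C, fun x hx => hC x (hsub hx)⟩
  · rcases Finset.mem_insert.1 ha with rfl | ha
    · exact ⟨D.y_L, hy⟩
    · obtain ⟨b, hb, rfl⟩ := Finset.mem_image.1 ha
      obtain ⟨h1, h2⟩ := D.Y_mem b hb
      exact ⟨L.add_mem h1 D.y_L, hplus b h2⟩
  · refine D.Y_span φ fun a ha => ?_
    have h1 := hφ y (Finset.mem_insert_self _ _)
    have h2 := hφ (a + y) (Finset.mem_insert_of_mem (Finset.mem_image_of_mem _ ha))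
    rwa [map_add, h1, add_zero] at h2

end Pool.Agent.W4h4.NR
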