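import Pool.Agent.W4h4.NR.Siegel

/-!
# Descent of a covering of a cone to the fixed part of a finite group
-/

set_option autoImplicit false

namespace Pool.Agent.W4h4.NR

open Finset Filter Topology
open Pool.Agent.Y167

theorem reps {α β : Type*} (X : Set α) (f : α → β) (hf : (f '' X).Finite) :
    ∃ Y ⊆ X, Y.Finite ∧ ∀ x ∈ X, ∃ y ∈ Y, f y = f x := by
  obtain ⟨Y, hYX, hY⟩ := Set.exists_subset_bijOn X f
  refine ⟨Y, hYX, ?_, fun x hx => ?_⟩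
  · have h1 : (f '' Y).Finite := by rwa [hY.image_eq]
    exact Set.Finite.of_finite_image h1 hY.injOn
  · obtain ⟨y, hy, hyx⟩ := hY.surjOn ⟨x, hx, rfl⟩
    exact ⟨y, hy, hyx⟩

variable {W : Type*} [AddCommGroup W] [Module ℝ W]
  {L : AddSubgroup W} {Nf : Set W} {ξ₀ : W →ₗ[ℝ] ℝ} {y₀ : W} {Y : Finset W}
  {G : Type*} [Group G]

/-- The sum of the translates under the finite group. -/
def nm (Θ : G →* (W ≃ₗ[ℝ] W)) (Q : Subgroup G) [Fintype Q] : W →ₗ[ℝ] W :=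
  ∑ q : Q, (Θ q : W →ₗ[ℝ] W)

theorem nm_apply (Θ : G →* (W ≃ₗ[ℝ] W)) (Q : Subgroup G) [Fintype Q] (a : W) :
    nm Θ Q a = ∑ q : Q, Θ q a := by
  rw [nm, LinearMap.sum_apply]
  rfl

theorem nm_fixed (Θ : G →* (W ≃ₗ[ℝ] W)) (Q : Subgroup G) [Fintype Q] (a : W) {q : G} (hq : q ∈ Q) :
    Θ q (nm Θ Q a) = nm Θ Q a := by
  rw [nm_apply, map_sum]
  have h1 : ∀ r : Q, Θ q (Θ r a) = Θ ((⟨q, hq⟩ * r : Q) : G) a := by
    intro r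
    rw [Subgroup.coe_mul, map_mul]
    rfl
  simp only [h1]
  exact Equiv.sum_comp (Equiv.mulLeft (⟨q, hq⟩ : Q)) fun r : Q => Θ r a

theorem nm_of_fixed (Θ : G →* (W ≃ₗ[ℝ] W)) (Q : Subgroup G) [Fintype Q] {a : W}
    (ha : ∀ q ∈ Q, Θ q a = a) : nm Θ Q a = (Fintype.card Q : ℝ) • a := by
  rw [nm_apply, Finset.sum_congr rfl fun q _ => ha q.1 q.2, Finset.sum_const, Finset.card_univ,
    Nat.cast_smul_eq_nsmul]

/-- A fixed point in a finitely generated cone is in the cone of the sums. -/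
theorem fixed_mem_cone [DecidableEq W] (Θ : G →* (W ≃ₗ[ℝ] W)) (Q : Subgroup G) [Fintype Q] {a : W}
    (ha : ∀ q ∈ Q, Θ q a = a) {T : Finset W} (h : a ∈ cone T) : a ∈ cone (T.image (nm Θ Q)) := by
  have hc : (0 : ℝ) < Fintype.card Q := by
    exact_mod_cast Fintype.card_pos
  have h1 := cone_image (nm Θ Q) h
  rw [nm_of_fixed Θ Q ha] at h1
  have h2 := cone_smul h1 (inv_nonneg.2 hc.le)
  rwa [smul_smul, inv_mul_cancel₀ hc.ne', one_smul] at h2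

/-- **Descent.** Let `H` be a group of automorphisms which moves all interior points into a rational
polyhedral cone, and `Q` a finite group which normalises `H`. If only finitely many elements of `H` act
trivially (modulo the group `Sc`), then the centraliser of `Q` in `H` (modulo `Sc`) moves all interior
points which are fixed by `Q` into a rational polyhedral cone of fixed points. -/
theorem descent (D : CData L Nf ξ₀ y₀ Y) (Θ : G →* (W ≃ₗ[ℝ] W))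
    (hL : ∀ g, ∀ x ∈ L, Θ g x ∈ L) (hN : ∀ g, ∀ x ∈ Nf, Θ g x ∈ Nf)
    (H Q Sc : Subgroup G) [Fintype Q] (hQH : ∀ q ∈ Q, ∀ h ∈ H, q * h * q⁻¹ ∈ H)
    (hSc1 : ∀ s ∈ Sc, Θ s = 1) (hSc2 : ∀ g, ∀ s ∈ Sc, g * s * g⁻¹ ∈ Sc)
    (hker : ∃ N : Set G, N.Finite ∧ ∀ h ∈ H, Θ h = 1 → ∃ n ∈ N, n⁻¹ * h ∈ Sc)
    (F : Finset W) (hF : ∀ a ∈ F, a ∈ L ∧ a ∈ Nf)
    (hcov : ∀ x, (∃ t : ℝ, 0 < t ∧ x - t • y₀ ∈ Nf) → ∃ h ∈ H, Θ h x ∈ cone F) :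
    ∃ T : Finset W, (∀ a ∈ T, a ∈ L ∧ a ∈ Nf ∧ (∀ q ∈ Q, Θ q a = a)) ∧
      (∀ a ∈ T, ∃ b ∈ L, b ∈ Nf ∧ a = nm Θ Q b) ∧
      ∀ x, (∃ t : ℝ, 0 < t ∧ x - t • y₀ ∈ Nf) → (∀ q ∈ Q, Θ q x = x) →
        ∃ z ∈ H, (∀ q ∈ Q, ∃ s ∈ Sc, z * q * z⁻¹ = q * s) ∧ Θ z x ∈ cone T := by
  classical
  -- the group generated by `H` and `Q`
  have hQH' : ∀ q ∈ Q, ∀ h ∈ H, q⁻¹ * h * q ∈ H := by
    intro q hq h hh
    have h1 := hQH q⁻¹ (Q.inv_mem hq) h hh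
    rwa [inv_inv] at h1
  let M : Subgroup G :=
    { carrier := {g | ∃ q ∈ Q, ∃ h ∈ H, g = q * h}
      one_mem' := ⟨1, Q.one_mem, 1, H.one_mem, (mul_one 1).symm⟩
      mul_mem' := by
        rintro _ _ ⟨q, hq, h, hh, rfl⟩ ⟨q', hq', h', hh', rfl⟩
        refine ⟨q * q', Q.mul_mem hq hq', q'⁻¹ * h * q' * h', H.mul_mem (hQH' q' hq' h hh) hh', ?_⟩
        group
      inv_mem' := by
        rintro _ ⟨q, hq, h, hh, rfl⟩
        refine ⟨q⁻¹, Q.inv_mem hq, q * h⁻¹ * q⁻¹, hQH q hq _ (H.inv_mem hh), ?_⟩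
        group }
  have hM : ∀ g, g ∈ M ↔ ∃ q ∈ Q, ∃ h ∈ H, g = q * h := fun g => Iff.rfl
  have hHM : ∀ h ∈ H, h ∈ M := fun h hh => ⟨1, Q.one_mem, h, hh, (one_mul h).symm⟩
  have hQM : ∀ q ∈ Q, q ∈ M := fun q hq => ⟨q, hq, 1, H.one_mem, (mul_one q).symm⟩
  obtain ⟨S, 𝓢, h𝓢, hS, hcovS, hstab⟩ := siegel D (M.map Θ)
    (by
      rintro _ ⟨g, -, rfl⟩ x hx
      exact hL g x hx)
    (by
      rintro _ ⟨g, -, rfl⟩ x hx
      exact hN g x hx) F hF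
    (fun x hx => by
      obtain ⟨h, hh, h1⟩ := hcov x hx
      exact ⟨Θ h, ⟨h, hHM h hh, rfl⟩, h1⟩)
  obtain ⟨N, hNf, hNk⟩ := hker
  -- interior points are mapped to interior points
  have hint : ∀ g x, (∃ t : ℝ, 0 < t ∧ x - t • y₀ ∈ Nf) → ∃ t : ℝ, 0 < t ∧ Θ g x - t • y₀ ∈ Nf := by
    rintro g x ⟨t, ht, hx⟩
    obtain ⟨C, hC, h1⟩ := D.y_int (Θ g⁻¹ y₀)
    have h2 := hN g _ h1
    have h3 : Θ g (Θ g⁻¹ y₀) = y₀ := by
      change (Θ g * Θ g⁻¹) y₀ = y₀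
      rw [← map_mul, mul_inv_cancel, map_one]
      rfl
    rw [map_sub, map_smul, h3] at h2
    have h4 := hN g _ hx
    rw [map_sub, map_smul] at h4
    refine ⟨t / C, div_pos ht hC, ?_⟩
    have h5 : Θ g x - (t / C) • y₀ = (Θ g x - t • Θ g y₀) + (t / C) • (C • Θ g y₀ - y₀) := by
      have h6 : (t / C) • (C • Θ g y₀ - y₀) = t • Θ g y₀ - (t / C) • y₀ := by
        rw [smul_sub, smul_smul, div_mul_cancel₀ _ hC.ne']
      rw [h6]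
      abel
    rw [h5]
    exact D.add _ h4 _ (D.smul _ (div_pos ht hC).le _ h2)
  -- the elements of `H` which move a fixed interior point into a translate of the cone of `S`
  let X : Set G := {h | h ∈ H ∧ ∃ x, (∃ t : ℝ, 0 < t ∧ x - t • y₀ ∈ Nf) ∧ (∀ q ∈ Q, Θ q x = x) ∧
    ∃ q₀ ∈ Q, Θ (q₀ * h) x ∈ cone S}
  let τ : G → Q → (W ≃ₗ[ℝ] W) := fun h q => Θ (h * q * h⁻¹)
  have hτ : (τ '' X).Finite := by
    have h1 : {b : Q → (W ≃ₗ[ℝ] W) | ∀ q, b q ∈ 𝓢}.Finite := Set.Finite.pi' fun _ => h𝓢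
    have h2 : ((Set.univ : Set Q) ×ˢ {b : Q → (W ≃ₗ[ℝ] W) | ∀ q, b q ∈ 𝓢}).Finite :=
      Set.finite_univ.prod h1
    refine (h2.image fun p : Q × (Q → (W ≃ₗ[ℝ] W)) => fun q => (Θ p.1)⁻¹ * p.2 q * Θ p.1).subset ?_
    rintro _ ⟨h, ⟨hh, x, hx, hxQ, q₀, hq₀, hxS⟩, rfl⟩
    refine ⟨(⟨q₀, hq₀⟩, fun q => Θ (q₀ * h * q * h⁻¹ * q₀⁻¹)), ⟨Set.mem_univ _, fun q => ?_⟩, ?_⟩
    · refine hstab (Θ (q₀ * h) x) hxS (hint _ _ hx) _ ⟨q₀ * h * q * h⁻¹ * q₀⁻¹, ?_, rfl⟩ ?_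
      · have h3 : q₀ * h * (q : G) * h⁻¹ * q₀⁻¹ = (q₀ * h) * q * (q₀ * h)⁻¹ := by group
        rw [SetLike.mem_coe, h3]
        exact M.mul_mem (M.mul_mem (M.mul_mem (hQM _ hq₀) (hHM _ hh)) (hQM _ q.2))
          (M.inv_mem (M.mul_mem (hQM _ hq₀) (hHM _ hh)))
      · change (Θ (q₀ * h * q * h⁻¹ * q₀⁻¹) * Θ (q₀ * h)) x = _
        rw [← map_mul]
        have h3 : q₀ * h * (q : G) * h⁻¹ * q₀⁻¹ * (q₀ * h) = (q₀ * h) * q := by group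
        rw [h3, map_mul]
        change Θ (q₀ * h) (Θ q x) = _
        rw [hxQ q.1 q.2]
    · funext q
      change (Θ q₀)⁻¹ * Θ (q₀ * h * q * h⁻¹ * q₀⁻¹) * Θ q₀ = Θ (h * q * h⁻¹)
      rw [← map_inv, ← map_mul, ← map_mul]
      congr 1
      group
  obtain ⟨Y1, hY1X, hY1f, hY1⟩ := reps X τ hτ
  choose! r hrY hrτ using hY1
  have hk : ∀ h ∈ X, ∀ q : Q, ∃ n ∈ N, n⁻¹ * ((r h * q * (r h)⁻¹)⁻¹ * (h * q * h⁻¹)) ∈ Sc := by
    intro h hh q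
    have hr := (hY1X (hrY h hh)).1
    refine hNk _ ?_ ?_
    · have h1 : (r h * q * (r h)⁻¹)⁻¹ * (h * q * h⁻¹)
          = r h * ((q : G)⁻¹ * ((r h)⁻¹ * h) * q) * h⁻¹ := by group
      rw [h1]
      exact H.mul_mem (H.mul_mem hr (hQH' _ q.2 _ (H.mul_mem (H.inv_mem hr) hh.1)))
        (H.inv_mem hh.1)
    · have h1 : Θ (r h * q * (r h)⁻¹) = Θ (h * q * h⁻¹) := congrFun (hrτ h hh) q
      rw [map_mul, map_inv, h1, inv_mul_cancel]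
  choose! n hnN hnS using hk
  have hfin2 : ((fun h => (r h, n h)) '' X).Finite := by
    have h1 : {b : Q → G | ∀ q, b q ∈ N}.Finite := Set.Finite.pi' fun _ => hNf
    refine (hY1f.prod h1).subset ?_
    rintro _ ⟨h, hh, rfl⟩
    exact ⟨hrY h hh, fun q => hnN h hh q⟩
  obtain ⟨Y2, hY2X, hY2f, hY2⟩ := reps X (fun h => (r h, n h)) hfin2
  -- the cones
  let T1 : Finset W := hY2f.toFinset.biUnion fun y =>
    (Finset.univ : Finset Q).biUnion fun q => S.image (Θ (y⁻¹ * q.1⁻¹) : W → W)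
  have hT1 : ∀ a ∈ T1, a ∈ L ∧ a ∈ Nf := by
    intro a ha
    obtain ⟨y, -, ha⟩ := Finset.mem_biUnion.1 ha
    obtain ⟨q, -, ha⟩ := Finset.mem_biUnion.1 ha
    obtain ⟨s, hs, rfl⟩ := Finset.mem_image.1 ha
    exact ⟨hL _ _ (hS s hs).1, hN _ _ (hS s hs).2⟩
  have h0N : (0 : W) ∈ Nf := by
    have := D.smul 0 le_rfl _ D.y_N
    rwa [zero_smul] at this
  have hsumN : ∀ (s : Finset Q) (f : Q → W), (∀ q, f q ∈ Nf) → ∑ q ∈ s, f q ∈ Nf := by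
    intro s f hf
    induction s using Finset.induction_on with
    | empty => rw [Finset.sum_empty]; exact h0N
    | insert i s hi ih =>
      rw [Finset.sum_insert hi]
      exact D.add _ (hf i) _ ih
  have hnm : ∀ b ∈ L, b ∈ Nf → nm Θ Q b ∈ L ∧ nm Θ Q b ∈ Nf := by
    intro b hb1 hb2
    rw [nm_apply]
    exact ⟨L.sum_mem fun q _ => hL _ _ hb1, hsumN _ _ fun q => hN _ _ hb2⟩
  refine ⟨T1.image (nm Θ Q), ?_, ?_, ?_⟩
  · intro a ha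
    obtain ⟨b, hb, rfl⟩ := Finset.mem_image.1 ha
    obtain ⟨h1, h2⟩ := hnm b (hT1 b hb).1 (hT1 b hb).2
    exact ⟨h1, h2, fun q hq => nm_fixed Θ Q b hq⟩
  · intro a ha
    obtain ⟨b, hb, rfl⟩ := Finset.mem_image.1 ha
    exact ⟨b, (hT1 b hb).1, (hT1 b hb).2, rfl⟩
  · intro x hx hxQ
    obtain ⟨_, ⟨m, hm, rfl⟩, hmx⟩ := hcovS x hx
    obtain ⟨q₀, hq₀, h, hh, rfl⟩ := hm
    have hhX : h ∈ X := ⟨hh, x, hx, hxQ, q₀, hq₀, hmx⟩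
    obtain ⟨y, hy, hyh⟩ := hY2 h hhX
    have hyX := hY2X hy
    have hr : r y = r h := congrArg Prod.fst hyh
    have hn : n y = n h := congrArg Prod.snd hyh
    have hcomm : ∀ q ∈ Q, ∃ s ∈ Sc, y⁻¹ * h * q * (y⁻¹ * h)⁻¹ = q * s := by
      intro q hq
      have h1 := hnS h hhX ⟨q, hq⟩
      have h2 := hnS y hyX ⟨q, hq⟩
      rw [hr, hn] at h2
      have h3 := Sc.mul_mem (Sc.inv_mem h2) h1
      have h4 := hSc2 y⁻¹ _ h3
      refine ⟨_, h4, ?_⟩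
      group
    refine ⟨y⁻¹ * h, H.mul_mem (H.inv_mem hyX.1) hh, hcomm, ?_⟩
    refine fixed_mem_cone Θ Q ?_ ?_
    · intro q hq
      obtain ⟨s, hs, h1⟩ := hcomm q hq
      have h2 : Θ q = Θ (y⁻¹ * h * q * (y⁻¹ * h)⁻¹) := by
        rw [h1, map_mul, hSc1 s hs, mul_one]
      rw [h2]
      change (Θ (y⁻¹ * h * q * (y⁻¹ * h)⁻¹) * Θ (y⁻¹ * h)) x = _
      rw [← map_mul, inv_mul_cancel_right, map_mul]
      change Θ (y⁻¹ * h) (Θ q x) = _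
      rw [hxQ q hq]
    · have h1 : (Θ (y⁻¹ * h)) x = ((Θ (y⁻¹ * q₀⁻¹) : W ≃ₗ[ℝ] W) : W →ₗ[ℝ] W) (Θ (q₀ * h) x) := by
        change _ = (Θ (y⁻¹ * q₀⁻¹) * Θ (q₀ * h)) x
        rw [← map_mul]
        congr 2
        group
      rw [h1]
      refine cone_mono ?_ (cone_image _ hmx)
      intro a ha
      refine Finset.mem_biUnion.2 ⟨y, hY2f.mem_toFinset.2 hy, ?_⟩
      exact Finset.mem_biUnion.2 ⟨⟨q₀, hq₀⟩, Finset.mem_univ _, ha⟩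

end Pool.Agent.W4h4.NR
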