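import Pool.Agent.W4h4.NR.Core3

/-!
# The fundamental domain from a covering of the interior
-/

set_option autoImplicit false
set_option linter.unusedSectionVars false

namespace Pool.Agent.W4h4.NR

open Finset Filter Topology
open Pool.Agent.W594.SYZ2 Pool.Agent.W594.SYZ2.TQ Pool.Agent.TH735.AQ Pool.Agent.X324.CF
open Pool.Agent.Y167 (cone cone_add cone_smul cone_le cone_mono cone_sum mem_cone_self
  zero_mem_cone cone_image cone_ind cone_of_scaled mem_cone_of_sum Rel Pol Cp CData IsFace)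
open Pool.Agent.Y167.CC (LinGrp Preserves IsFundDomain)

variable {V E R : Type*} [NormedAddCommGroup V] [NormedSpace ℂ V] [FiniteDimensional ℂ V]
  [NormedAddCommGroup E] [NormedSpace ℂ E] [FiniteDimensional ℂ E] [CommRing R] [IsDomain R]
  [Algebra ℂ R] {ρ n : ℕ}
  {𝒜 : Cl ρ → Submodule ℂ R} [GradedAlgebra 𝒜] {Γ : Grp V R} {w : Fin n → Cl ρ}
  {u : Cl ρ} {j : E →ₗ[ℂ] V} {H₀ : V → V → ℂ} {𝒮 : Set (Cl ρ)} {P : Set (N1 𝒜 Γ j)}

theorem coreD (D : Base 𝒜 w) (hQ : IsQuotient 𝒜 u Γ) (Rl : Rel (base Γ) j H₀)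
    (hP : GoodC 𝒮 u P) {ι : Type*} [Fintype ι] (Δ : EffDiv 𝒜 Γ ι) (hΔ : NumTrivial Δ j)
    (𝒢 : LinGrp (N1 𝒜 Γ j)) (hint : Preserves 𝒢 (integral 𝒜 Γ j)) (hcone : Preserves 𝒢 (CX P))
    (haut : ∀ f : V ≃ᵃ[ℂ] V, Normalizes Γ f → (∀ v, ∃ e, f v = v + j e) → Δ.Fixed f →
      ∀ g : N1 𝒜 Γ j ≃ₗ[ℝ] N1 𝒜 Γ j, IsPullback f g → g ∈ 𝒢)
    (T : Finset (Fin ρ → ℝ))
    (hT : ∀ t ∈ T, (∃ β, Inv 𝒜 Γ β ∧ t = rv β) ∧ t ∈ KF 𝒮 ∧ t ∈ effF 𝒜 Γ)
    (hTc : ∀ b, (∃ t : ℝ, 0 < t ∧ b - t • rv u ∈ KF 𝒮) → ∃ g ∈ 𝒢, ∀ a : N1 𝒜 Γ j,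
      (val a).2 = b → (val (g a)).2 ∈ cone T)
    (hTr : ∀ b ∈ KF 𝒮, b ∈ effF 𝒜 Γ → ∃ T' : Finset (Fin ρ → ℝ), b ∈ cone T' ∧
      ∀ t ∈ T', (∃ β, Inv 𝒜 Γ β ∧ t = rv β) ∧ t ∈ KF 𝒮 ∧ t ∈ effF 𝒜 Γ) :
    ∃ S : Finset (N1 𝒜 Γ j), ↑S ⊆ integral 𝒜 Γ j ∧ cone S ⊆ CX P ∧
      IsFundDomain 𝒢 (CX P) (cone S) ∧ CX P = Cp (intL 𝒜 Γ j) (CX P) := by
  classical
  have hexp := expo_pos hQ
  have hexpr : (0 : ℝ) < expo Γ := by exact_mod_cast hexp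
  have := hQ.fin_gal
  have hcard : 0 < Nat.card (gal Γ) := Nat.card_pos
  have hcardr : (0 : ℝ) < Nat.card (gal Γ) := by exact_mod_cast hcard
  -- the data for the form
  let M1 : AddSubgroup (Pool.Agent.Y167.N1 (base Γ) j) :=
    { carrier := {a | Pool.Agent.Y167.Integral ((expo Γ : ℝ) • a)}
      add_mem' := fun {a b} ha hb => by
        change Pool.Agent.Y167.Integral ((expo Γ : ℝ) • (a + b))
        rw [smul_add]
        exact ha.add hb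
      zero_mem' := by
        change Pool.Agent.Y167.Integral ((expo Γ : ℝ) • 0)
        rw [smul_zero]
        exact Pool.Agent.Y167.Integral.zero
      neg_mem' := fun {a} ha => by
        change Pool.Agent.Y167.Integral ((expo Γ : ℝ) • (-a))
        rw [smul_neg]
        exact ha.neg }
  have hnat : ∀ (k : ℕ) (a : Pool.Agent.Y167.N1 (base Γ) j), Pool.Agent.Y167.Integral a →
      Pool.Agent.Y167.Integral ((k : ℝ) • a) := by
    intro k a ha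
    have h1 := (Pool.Agent.Y167.intL (base Γ) j).nsmul_mem ha k
    rw [← Nat.cast_smul_eq_nsmul ℝ] at h1
    exact h1
  obtain ⟨ξ1, y1, Y1, D1, hy1⟩ := Pool.Agent.Y167.exists_cdata Rl M1 hexp
    (fun a ha => hnat _ _ (hnat _ _ ha)) (fun a ha => ha)
  obtain ⟨ξ2, Y2, D2⟩ := cdataC hQ.inv hP
  set y2 : Bs 𝒜 Γ := ⟨rv u, Submodule.subset_span ⟨u, hQ.inv, rfl⟩⟩ with hy2
  have hk : 0 < expo Γ * Nat.card (gal Γ) := Nat.mul_pos hexp hcard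
  have hnatI : ∀ (k : ℕ) (a : N1 𝒜 Γ j), a ∈ integral 𝒜 Γ j → (k : ℝ) • a ∈ integral 𝒜 Γ j := by
    intro k a ha
    have h1 := (intL 𝒜 Γ j).nsmul_mem ha k
    rw [← Nat.cast_smul_eq_nsmul ℝ] at h1
    exact h1
  obtain ⟨ξ₀, Y, DD⟩ := cdata_prod (L := intL 𝒜 Γ j) D1 D2 (p1 hQ) p2 i1 (i2 D hQ)
    (fun a => p1_i1 hQ a) (fun a => p2_i1 a) (fun b => p1_i2 D hQ b) (fun b => p2_i2 D hQ b)
    (fun a => split D hQ a) hk
    (fun a ha => Int.p1 hQ ha)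
    (fun a ha => by
      obtain ⟨β, hβ, h1⟩ := Int.p2 ha
      exact ⟨β, hβ, h1⟩)
    (fun a ha => by
      have h1 : ((expo Γ * Nat.card (gal Γ) : ℕ) : ℝ) • (i1 a : N1 𝒜 Γ j)
          = (Nat.card (gal Γ) : ℝ) • i1 ((expo Γ : ℝ) • a) := by
        rw [map_smul, smul_smul]
        push_cast
        rw [mul_comm]
      rw [h1]
      exact hnatI _ _ (Int.i1 ha))
    (fun b hb => by
      obtain ⟨β, hβ, h2⟩ := hb
      have h1 : ((expo Γ * Nat.card (gal Γ) : ℕ) : ℝ) • (i2 D hQ b : N1 𝒜 Γ j)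
          = (expo Γ : ℝ) • ((Nat.card (gal Γ) : ℝ) • i2 D hQ b) := by
        rw [smul_smul]
        push_cast
        rfl
      rw [h1]
      exact hnatI _ _ (Int.i2 D hQ hβ h2))
  have hset : {a : N1 𝒜 Γ j | p1 hQ a ∈ Pool.Agent.Y167.nefCone (base Γ) j ∧
      p2 a ∈ {b : Bs 𝒜 Γ | b.1 ∈ KF 𝒮}} = KX 𝒜 Γ j 𝒮 := rfl
  rw [hset] at DD
  set y₀ : N1 𝒜 Γ j := ((expo Γ * Nat.card (gal Γ) : ℕ) : ℝ) • (i1 y1 + i2 D hQ y2) with hy₀
  have hkr : (0 : ℝ) < ((expo Γ * Nat.card (gal Γ) : ℕ) : ℝ) := by exact_mod_cast hk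
  -- form and degree of the interior point
  set K₁ : ℝ := ((expo Γ * Nat.card (gal Γ) : ℕ) : ℝ) * expo Γ with hK₁
  have hK₁pos : 0 < K₁ := mul_pos hkr hexpr
  have hyf : ∀ e, ((val y₀).1 e e).re = K₁ * (H₀ (j e) (j e)).re := by
    intro e
    have h1 : (val y₀).1 e e = ((expo Γ * Nat.card (gal Γ) : ℕ) : ℝ) • (y1.1 e e + 0) := rfl
    have e1 : (expo Γ : ℂ) = ((expo Γ : ℝ) : ℂ) := by push_cast; rfl
    rw [h1, add_zero, hy1, Complex.smul_re, e1, Complex.re_ofReal_mul, smul_eq_mul, hK₁]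
    ring
  have hyd : (val y₀).2 = ((expo Γ * Nat.card (gal Γ) : ℕ) : ℝ) • rv u := by
    change ((expo Γ * Nat.card (gal Γ) : ℕ) : ℝ) • ((0 : Fin ρ → ℝ) + rv u) = _
    rw [zero_add]
  have hform : ∀ (a b : N1 𝒜 Γ j) (t : ℝ) (e : E), ((val (a + t • b)).1 e e).re
      = ((val a).1 e e).re + t * ((val b).1 e e).re := by
    intro a b t e
    change ((val a).1 e e + t • (val b).1 e e).re = _
    rw [Complex.add_re, Complex.smul_re, smul_eq_mul]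
  -- the interior
  have hint2 : ∀ a : N1 𝒜 Γ j, (∃ t : ℝ, 0 < t ∧ a - t • y₀ ∈ KX 𝒜 Γ j 𝒮) →
      (∃ t : ℝ, 0 < t ∧ ∀ e, t * (H₀ (j e) (j e)).re ≤ ((val a).1 e e).re) ∧
      (val a).2 ∈ coneHull {b | ∃ β ∈ 𝒮, b = rv β} := by
    rintro a ⟨t, ht, hat⟩
    refine ⟨⟨t * K₁, mul_pos ht hK₁pos, fun e => ?_⟩, ?_⟩
    · have h1 := hat.1 e
      have h2 : a - t • y₀ = a + (-t) • y₀ := by rw [neg_smul, sub_eq_add_neg]
      rw [h2, hform, hyf] at h1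
      linarith
    · have h1 := interior_hull hQ.inv hP hat.2
        (t := t * ((expo Γ * Nat.card (gal Γ) : ℕ) : ℝ)) (mul_pos ht hkr)
      have h2 : (val a).2 = (val (a - t • y₀)).2
          + (t * ((expo Γ * Nat.card (gal Γ) : ℕ) : ℝ)) • rv u := by
        change _ = ((val a).2 - t • (val y₀).2) + _
        rw [hyd, smul_smul, sub_add_cancel]
      rw [h2]
      exact h1
  have hAmem : ∀ a : N1 𝒜 Γ j, (∃ t : ℝ, 0 < t ∧ a - t • y₀ ∈ KX 𝒜 Γ j 𝒮) → a ∈ CX P := by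
    intro a ha
    obtain ⟨⟨t, ht, h1⟩, h2⟩ := hint2 a ha
    exact CX_hull (interior_memC D hQ Rl hP ht h1 h2)
  -- the group preserves the closed cone
  have hclos := closure_eqC D hQ Rl hP
  have hGK : ∀ g ∈ 𝒢, ∀ a ∈ KX 𝒜 Γ j 𝒮, g a ∈ KX 𝒜 Γ j 𝒮 := by
    intro g hg a ha
    have h1 : ∀ ε : ℝ, 0 < ε → g a + ε • g y₀ ∈ KX 𝒜 Γ j 𝒮 := by
      intro ε hε
      have h2 := hcone g hg _ (hAmem (a + ε • y₀) ⟨ε, hε, by rwa [add_sub_cancel_right]⟩)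
      rw [map_add, map_smul] at h2
      have h3 := h2.1
      rw [hclos] at h3
      exact h3
    have h2 : Tendsto (fun k : ℕ => g a + (1 / ((k : ℝ) + 1)) • g y₀) atTop (𝓝 (g a)) := by
      have hind : Topology.IsInducing (val : N1 𝒜 Γ j → Pairs E ρ) :=
        Topology.IsInducing.subtypeVal
      rw [hind.tendsto_nhds_iff]
      have h3 : (val : N1 𝒜 Γ j → Pairs E ρ) ∘ (fun k : ℕ => g a + (1 / ((k : ℝ) + 1)) • g y₀)
          = fun k : ℕ => val (g a) + (1 / ((k : ℝ) + 1)) • val (g y₀) := rfl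
      rw [h3]
      have h4 : Tendsto (fun k : ℕ => (1 / ((k : ℝ) + 1)) • val (g y₀)) atTop
          (𝓝 ((0 : ℝ) • val (g y₀))) :=
        (tendsto_one_div_add_atTop_nhds_zero_nat (𝕜 := ℝ)).smul_const _
      rw [zero_smul] at h4
      have h5 := h4.const_add (val (g a))
      rwa [add_zero] at h5
    exact KX_closed.mem_of_tendsto h2 (Eventually.of_forall fun k => h1 _ (by positivity))
  -- the data for the cone of effective classes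
  obtain ⟨Y', D'⟩ := cdata_mono DD (K' := CX P) (fun a ha => by
      have h1 := ha.1
      rwa [hclos] at h1) (fun a ha b hb => CX_add D hQ Rl hP ha hb)
    (fun t ht a ha => CX_smul D hQ Rl hP ht ha) hAmem
  -- an interior point is mapped to an interior point
  have hGint : ∀ g ∈ 𝒢, ∀ a : N1 𝒜 Γ j, (∃ t : ℝ, 0 < t ∧ a - t • y₀ ∈ KX 𝒜 Γ j 𝒮) →
      ∃ t : ℝ, 0 < t ∧ g a - t • y₀ ∈ KX 𝒜 Γ j 𝒮 := by
    rintro g hg a ⟨t, ht, hat⟩
    obtain ⟨C, hC, h1⟩ := DD.y_int (g⁻¹ y₀)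
    have h2 := hGK g hg _ h1
    have h3 : g (g⁻¹ y₀) = y₀ := g.apply_symm_apply y₀
    rw [map_sub, map_smul, h3] at h2
    have h4 := hGK g hg _ hat
    rw [map_sub, map_smul] at h4
    refine ⟨t / C, div_pos ht hC, ?_⟩
    have h5 : g a - (t / C) • y₀ = (g a - t • g y₀) + (t / C) • (C • g y₀ - y₀) := by
      have h6 : (t / C) • (C • g y₀ - y₀) = t • g y₀ - (t / C) • y₀ := by
        rw [smul_sub, smul_smul, div_mul_cancel₀ _ hC.ne']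
      rw [h6]
      abel
    rw [h5]
    exact KX_add h4 (KX_smul (div_pos ht hC).le h2)
  -- the covering
  obtain ⟨d, b, Pl⟩ := Rl.pol
  obtain ⟨F, hF', hFc⟩ := Pl.red
  obtain ⟨m₀, hm₀, hauts⟩ := exists_aut2 hQ Rl
  obtain ⟨𝓡, h𝓡f, h𝓡U, h𝓡⟩ := Pl.fin_idx (Pool.Agent.Y167.finite_opE Rl) (by
    rintro y ⟨γ, hγ, hx⟩ v hv
    change j (y v) ∈ latt (base Γ)
    rw [hx]
    exact latt_inv γ hγ hv) m₀ hm₀
  have hcl : ∀ z r, z ∈ F → r ∈ 𝓡 → ∃ (a : Pool.Agent.Y167.N1 (base Γ) j) (m : ℕ), 0 < m ∧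
      Pool.Agent.Y167.Integral a ∧ a ∈ Pool.Agent.Y167.nefCone (base Γ) j ∧
      ∀ v w, a.1 v w = m * z (r v) (r w) := by
    intro z r hz hr
    obtain ⟨hz1, hz2⟩ := hF' z hz
    have hrU := h𝓡U r hr
    have h1 : Pol.IsInt (Pool.Agent.Y167.lattE (base Γ) j) (Pool.Agent.Y167.opE (base Γ) j)
        (fun v w => z (r v) (r w)) := by
      refine ⟨⟨?_, ?_, ?_⟩, ?_, ?_⟩
      · intro u v w
        rw [map_add, hz1.herm.add_left]
      · intro c v w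
        rw [map_smul, hz1.herm.smul_left]
      · intro v w
        exact hz1.herm.symm _ _
      · intro g hg u w
        rw [hrU.comm g hg, hrU.comm g hg, hz1.inv g hg]
      · intro u hu w hw
        exact hz1.int _ (hrU.map u hu) _ (hrU.map w hw)
    obtain ⟨m, hm, L, H, hL, h2, -⟩ := Rl.exists_class h1 (fun v => hz2 (r v))
    obtain ⟨a, ha1, ha2⟩ := Pool.Agent.Y167.exists_int (j := j) (L := L)
      (h := fun u w => H (j u) (j w)) ⟨H, hL, fun _ _ => rfl⟩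
    refine ⟨a, m, hm, ha2, fun v => ?_, fun v w => ?_⟩
    · rw [ha1]
      change 0 ≤ (H (j v) (j v)).re
      rw [h2]
      have e1 : (m : ℂ) = ((m : ℝ) : ℂ) := by push_cast; rfl
      rw [e1, Complex.re_ofReal_mul]
      exact mul_nonneg (Nat.cast_nonneg _) (hz2 (r v))
    · rw [ha1]
      exact h2 v w
  choose! af mf hmf haf1 haf2 haf3 using hcl
  let iB : (Fin ρ → ℝ) → N1 𝒜 Γ j := fun s =>
    if hs : s ∈ Bs 𝒜 Γ then (Nat.card (gal Γ) : ℝ) • i2 D hQ ⟨s, hs⟩ else 0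
  have hiB : ∀ s, ∀ hs : s ∈ Bs 𝒜 Γ, iB s = (Nat.card (gal Γ) : ℝ) • i2 D hQ ⟨s, hs⟩ :=
    fun s hs => dif_pos hs
  have hSBg : ∀ T' : Finset (Fin ρ → ℝ), (∀ t ∈ T', (∃ β, Inv 𝒜 Γ β ∧ t = rv β) ∧ t ∈ KF 𝒮 ∧
      t ∈ effF 𝒜 Γ) → ∀ s ∈ T', s ∈ Bs 𝒜 Γ := by
    intro T' hT' s hs
    obtain ⟨⟨β, hβ, h1⟩, -⟩ := hT' s hs
    exact Submodule.subset_span ⟨β, hβ, h1⟩
  have hiBLg : ∀ T' : Finset (Fin ρ → ℝ), (∀ t ∈ T', (∃ β, Inv 𝒜 Γ β ∧ t = rv β) ∧ t ∈ KF 𝒮 ∧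
      t ∈ effF 𝒜 Γ) → ∀ s ∈ T', iB s ∈ intL 𝒜 Γ j ∧ iB s ∈ CX P := by
    intro T' hT' s hs
    rw [hiB s (hSBg T' hT' s hs)]
    obtain ⟨⟨β, hβ, h1⟩, h2, h3⟩ := hT' s hs
    exact ⟨Int.i2 D hQ hβ h1, CX_smul D hQ Rl hP hcardr.le (CX_i2 D hQ Rl hP h2 h3)⟩
  -- classes with degree in the cone of `T`
  have hcTg : ∀ T : Finset (Fin ρ → ℝ), (∀ t ∈ T, (∃ β, Inv 𝒜 Γ β ∧ t = rv β) ∧ t ∈ KF 𝒮 ∧
      t ∈ effF 𝒜 Γ) → ∀ a : N1 𝒜 Γ j, (val a).2 ∈ cone T →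
      (i2 D hQ (p2 a) : N1 𝒜 Γ j) ∈ cone (T.image iB) := by
    intro T hT a ha
    have hSB := hSBg T hT
    obtain ⟨cs, hcs, h5⟩ := ha
    have h6 : (i2 D hQ (p2 a) : N1 𝒜 Γ j) = ∑ s ∈ T, (cs s / Nat.card (gal Γ)) • iB s := by
      have h7 : p2 a = ∑ s : T, cs s • (⟨s.1, hSB s.1 s.2⟩ : Bs 𝒜 Γ) := by
        apply Subtype.ext
        have h8 : (p2 a).1 = (val a).2 := rfl
        rw [h8, h5, Submodule.coe_sum, ← Finset.sum_coe_sort T]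
        rfl
      rw [h7, map_sum, ← Finset.sum_coe_sort T]
      refine Finset.sum_congr rfl fun s _ => ?_
      rw [map_smul, hiB s.1 (hSB s.1 s.2), smul_smul, div_mul_cancel₀ _ hcardr.ne']
    rw [h6]
    exact cone_sum _ _ fun s hs => cone_smul (mem_cone_self (Finset.mem_image_of_mem _ hs))
      (div_nonneg (hcs s) hcardr.le)
  have hiBL := hiBLg T hT
  have hcT := hcTg T hT
  let F₂ : Finset (N1 𝒜 Γ j) := ((F ×ˢ h𝓡f.toFinset).image fun p => i1 (af p.1 p.2)) ∪ T.image iB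
  have hF₂ : ∀ a ∈ F₂, a ∈ intL 𝒜 Γ j ∧ a ∈ CX P := by
    intro a ha
    rcases Finset.mem_union.1 ha with ha | ha
    · obtain ⟨p, hp, rfl⟩ := Finset.mem_image.1 ha
      rw [Finset.mem_product, h𝓡f.mem_toFinset] at hp
      exact ⟨Int.i1 (haf1 _ _ hp.1 hp.2), CX_i1 hP Rl (haf1 _ _ hp.1 hp.2) (haf2 _ _ hp.1 hp.2)⟩
    · obtain ⟨s, hs, rfl⟩ := Finset.mem_image.1 ha
      exact hiBL s hs
  have hcov : ∀ a : N1 𝒜 Γ j, (∃ t : ℝ, 0 < t ∧ a - t • y₀ ∈ CX P) → ∃ g ∈ 𝒢,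
      g a ∈ cone F₂ := by
    rintro a ⟨t, ht, hat⟩
    have hatK : ∃ t : ℝ, 0 < t ∧ a - t • y₀ ∈ KX 𝒜 Γ j 𝒮 := by
      refine ⟨t, ht, ?_⟩
      have h1 := hat.1
      rwa [hclos] at h1
    -- move the degree into the cone of `T`
    obtain ⟨g₁, hg₁, hg₁T⟩ := hTc (val a).2 (by
      obtain ⟨t₁, ht₁, hat₁⟩ := hatK
      refine ⟨t₁ * ((expo Γ * Nat.card (gal Γ) : ℕ) : ℝ), mul_pos ht₁ hkr, ?_⟩
      have h1 : (val a).2 - (t₁ * ((expo Γ * Nat.card (gal Γ) : ℕ) : ℝ)) • rv u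
          = (val (a - t₁ • y₀)).2 := by
        change _ = (val a).2 - t₁ • (val y₀).2
        rw [hyd, smul_smul]
      rw [h1]
      exact hat₁.2)
    obtain ⟨⟨t', ht', h1⟩, -⟩ := hint2 (g₁ a) (hGint g₁ hg₁ a hatK)
    obtain ⟨q, hu1, hu2, hu3, c, hc, hx⟩ := hFc (p1 hQ (g₁ a)).1
      (Pool.Agent.Y167.mem_span_int Rl (p1 hQ (g₁ a))) ⟨t', ht', h1⟩
    obtain ⟨r, hr, q', hq', hqr⟩ := h𝓡 q ⟨hu1, hu2, hu3⟩
    obtain ⟨f, hf0, hf1, hf2, hf3⟩ := hauts q'.symm hq'.inv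
    obtain ⟨G, hG1, hG2⟩ := exists_pull2 (j := j) D hQ hf1 hf2
    have hG𝒢 : G ∈ 𝒢 := by
      refine haut f hf0 (fun v => ?_) (fixed_of_good hQ Rl Δ hΔ hq'.inv hf3) G ?_
      · obtain ⟨e, he⟩ := hf3 v
        exact ⟨_, he⟩
      · intro a
        refine ⟨fun v w v' w' hv hw => ?_, hG2 a⟩
        rw [hf2] at hv hw
        rw [hG1, Rl.inj hv, Rl.inj hw]
    refine ⟨G * g₁, 𝒢.mul_mem hG𝒢 hg₁, ?_⟩
    have hmul : (G * g₁) a = G (g₁ a) := rfl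
    rw [hmul, ← split D hQ (G (g₁ a))]
    refine cone_add ?_ ?_
    · have h3 : p1 hQ (G (g₁ a)) = ∑ z ∈ F, (c z / mf z r) • af z r := by
        apply Subtype.ext
        funext v w
        have h4 : (∑ z ∈ F, (c z / mf z r) • af z r : Pool.Agent.Y167.N1 (base Γ) j).1
            = ∑ z ∈ F, (c z / mf z r) • (af z r).1 := by
          rw [Submodule.coe_sum]
          rfl
        have h5 : (p1 hQ (G (g₁ a))).1 v w = (p1 hQ (g₁ a)).1 (q'.symm v) (q'.symm w) :=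
          hG1 (g₁ a) v w
        rw [h5, hx, h4]
        simp only [Finset.sum_apply, Pi.smul_apply]
        refine Finset.sum_congr rfl fun z hz => ?_
        rw [hqr, hqr, q'.apply_symm_apply, q'.apply_symm_apply, haf3 z r hz hr, Complex.real_smul]
        have hm : ((mf z r : ℕ) : ℂ) ≠ 0 := by
          have := hmf z r hz hr
          exact_mod_cast this.ne'
        push_cast
        field_simp
      rw [h3, map_sum]
      refine cone_sum _ _ fun z hz => ?_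
      rw [map_smul]
      refine cone_smul (mem_cone_self (Finset.mem_union_left _ ?_))
        (div_nonneg (hc z) (Nat.cast_nonneg _))
      exact Finset.mem_image.2 ⟨(z, r), by
        rw [Finset.mem_product, h𝓡f.mem_toFinset]
        exact ⟨hz, hr⟩, rfl⟩
    · have h3 : p2 (G (g₁ a)) = p2 (g₁ a) := Subtype.ext (hG2 (g₁ a))
      rw [h3]
      exact cone_mono Finset.subset_union_right (hcT (g₁ a) (hg₁T a rfl))
  -- the effective classes are combinations of rational ones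
  have hCp : CX P = Cp (intL 𝒜 Γ j) (CX P) := by
    apply Set.Subset.antisymm
    · intro a ha
      obtain ⟨hd1, hd2⟩ := CX_deg D hQ Rl hP ha
      obtain ⟨T', hbT', hT'⟩ := hTr _ hd1 hd2
      have h1 := form_Cp hQ Rl hP ha.2
      have h2 : (i2 D hQ (p2 a) : N1 𝒜 Γ j) ∈ Cp (intL 𝒜 Γ j) (CX P) := by
        refine ⟨T'.image iB, fun c hc => ?_, hcTg T' hT' a hbT'⟩
        obtain ⟨s, hs, rfl⟩ := Finset.mem_image.1 hc
        exact hiBLg T' hT' s hs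
      have h3 := Cp_add h1 h2
      rwa [split D hQ] at h3
    · rintro a ⟨S, hS, ha⟩
      exact cone_ind (p := fun a => a ∈ CX P) CX_zero (fun x y hx hy => CX_add D hQ Rl hP hx hy)
        (fun t x ht hx => CX_smul D hQ Rl hP ht hx) (fun a ha => (hS a ha).2) ha
  obtain ⟨S, hS1, hS2, hS3⟩ := D'.domain 𝒢 (fun g hg a ha => hint g hg a ha)
    (fun g hg a ha => hcone g hg a ha) F₂ hF₂ hcov
  refine ⟨S, fun a ha => (hS1 a ha).1, fun a ha => ?_, ⟨?_, fun g hg hg1 => ?_⟩, hCp⟩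
  · rw [hCp]
    exact ⟨S, hS1, ha⟩
  · ext a
    simp only [Set.mem_iUnion, Set.mem_image, exists_prop]
    rw [hCp, hS2]
    constructor
    · rintro ⟨g, hg, hga⟩
      exact ⟨g⁻¹, 𝒢.inv_mem hg, g a, hga, g.symm_apply_apply a⟩
    · rintro ⟨g, hg, y, hy, rfl⟩
      refine ⟨g⁻¹, 𝒢.inv_mem hg, ?_⟩
      have h1 : (g⁻¹ : N1 𝒜 Γ j ≃ₗ[ℝ] N1 𝒜 Γ j) (g y) = y := g.symm_apply_apply y
      rwa [h1]
  · obtain ⟨φ, hφ0, hφ1, hφ2⟩ := hS3 g hg hg1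
    refine interior_inter (continuous_sub_smul (v := (val : N1 𝒜 Γ j → Pairs E ρ))
      Topology.IsInducing.subtypeVal (fun _ _ => rfl) (fun _ _ => rfl)) hφ0 hφ1 ?_
    rintro _ ⟨y, hy, rfl⟩
    exact hφ2 y hy

end Pool.Agent.W4h4.NR
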