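import Pool.Agent.X324.CF.Defs

/-!
# Quotients `(A × F) / G` for an arbitrary variety `F`: definitions

`F` is given by the ring `R = ⨁ H⁰(F, O_F(β))`, `β ∈ Cl(F) = ℤ^ρ`, and an ample class `u`, and
`X = (A × F) / G` by the group `Γ` of pairs `(a, φ)`, see `Pool.Agent.X324.CF.Defs`.
-/

set_option autoImplicit false

namespace Pool.Agent.W4h4.NR

open Pool.Agent.W594.SYZ2 Pool.Agent.TH735.AQ Pool.Agent.X324.CF
open Pool.Agent.Y167 (AffGrp cone)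
open Pool.Agent.Y167.CC (LinGrp Preserves IsFundDomain)

/-- The real class given by an integral class. -/
def vec {ρ : ℕ} (β : Cl ρ) : Fin ρ → ℝ := fun i => β i

section F

variable {ρ : ℕ} {V R : Type*} [NormedAddCommGroup V] [NormedSpace ℂ V] [CommRing R] [Algebra ℂ R]
  (𝒜 : Cl ρ → Submodule ℂ R)

/-- The pseudoeffective cone of `F`: the closure of the convex cone spanned by the classes of the
effective divisors. -/
def pseff : Set (Fin ρ → ℝ) := closure (coneHull {b | ∃ β : Cl ρ, (∃ r ∈ 𝒜 β, r ≠ 0) ∧ b = vec β})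

/-- The properties of a normal projective `ℚ`-factorial variety `F` with free class group
`Cl(F) = ℤ^ρ` and an ample class `u` which are used: `F` is not empty; the classes of the effective
divisors generate `Cl(F)`; every class becomes semiample when a multiple of `u` is added; the
pseudoeffective cone contains no line. The nef cone of `F` may be any cone. -/
structure IsVariety (u : Cl ρ) : Prop where
  point : ∃ p : R →ₐ[ℂ] ℂ, Semistable 𝒜 u p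
  sections : ∀ β : Cl ρ, ∃ m : ℕ, (∃ r ∈ 𝒜 (β + m • u), r ≠ 0) ∧ ∃ r ∈ 𝒜 (m • u), r ≠ 0
  ample : ∀ β : Cl ρ, ∃ m : ℕ, SemiampleF 𝒜 u (β + m • u)
  pointed : ∀ b, b ∈ pseff 𝒜 → -b ∈ pseff 𝒜 → b = 0

/-- The semiample classes of `F` which are invariant under `Γ`. -/
def semiampleInv (u : Cl ρ) (Γ : Grp V R) : Set (Cl ρ) := {β | Inv 𝒜 Γ β ∧ SemiampleF 𝒜 u β}

/-- The part `Nef(F)^G` of the nef cone of `F`: the closed convex cone spanned by the invariant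
semiample classes. -/
def nefF (u : Cl ρ) (Γ : Grp V R) : Set (Fin ρ → ℝ) :=
  closure (coneHull {b | ∃ β ∈ semiampleInv 𝒜 u Γ, b = vec β})

/-- The part `Eff(F)^G` of the effective cone of `F`: the convex cone spanned by the invariant
classes of effective divisors. -/
def effF (Γ : Grp V R) : Set (Fin ρ → ℝ) :=
  coneHull {b | ∃ β, Inv 𝒜 Γ β ∧ (∃ r ∈ 𝒜 β, r ≠ 0) ∧ b = vec β}

/-- The action of `σ` on the real classes of `F`. -/
def act {ρ : ℕ} (σ : Cl ρ ≃+ Cl ρ) (b : Fin ρ → ℝ) : Fin ρ → ℝ :=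
  ∑ k, b k • vec (σ (Pi.single k 1))

end F

section Aut

variable {V W E R : Type*} [NormedAddCommGroup V] [NormedSpace ℂ V]
  [NormedAddCommGroup W] [NormedSpace ℂ W] [NormedAddCommGroup E] [NormedSpace ℂ E]
  [CommRing R] [Algebra ℂ R] {ρ : ℕ}

/-- The affine transformation `f` of `V` and the automorphism of `F` which is given by the
automorphism `ψ` of `R`, and acts on `Cl(F)` by `σ`, define an automorphism of `X` over
`Z = W / Γ'`: the pair `(f, ψ)` normalises `Γ`, and the map induced on `Z` is the identity; `ψ` maps the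
piece of degree `β` onto the piece of degree `σ β`. -/
structure IsPseudoAut (𝒜 : Cl ρ → Submodule ℂ R) (Γ : Grp V R) (Γ' : AffGrp W) (π : V →ₗ[ℂ] W)
    (f : V ≃ᵃ[ℂ] V) (ψ : R ≃ₐ[ℂ] R) (σ : Cl ρ ≃+ Cl ρ) : Prop where
  normalizes : ∀ γ : Elt V R, γ ∈ Γ ↔ (f, ψ) * γ * (f, ψ)⁻¹ ∈ Γ
  overZ : ∃ δ ∈ Γ', ∀ v, π (f v) = δ (π v)
  induces : ∀ β r, r ∈ 𝒜 β ↔ ψ r ∈ 𝒜 (σ β)

/-- The automorphism `(f, ψ)` of `X` maps the divisors of all the sections `s i` with `r i ≠ 0` to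
themselves, and so the divisor `Δ`. -/
def Fixes {𝒜 : Cl ρ → Submodule ℂ R} {Γ : Grp V R} {ι : Type*} (Δ : EffDiv 𝒜 Γ ι)
    (f : V ≃ᵃ[ℂ] V) (ψ : R ≃ₐ[ℂ] R) : Prop :=
  ∀ i, Δ.r i ≠ 0 → ∃ h : V → ℂ, Differentiable ℂ h ∧ (∀ v, h v ≠ 0) ∧
    ∀ v, Δ.s i (f v) = h v • ψ (Δ.s i v)

/-- The pair `(f, ψ)` defines an automorphism of `X` over `Z` which preserves `Δ`. Here `ψ` defines an
automorphism of `F`: it preserves the set of semistable points. -/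
structure IsAut {𝒜 : Cl ρ → Submodule ℂ R} (u : Cl ρ) {Γ : Grp V R} (Γ' : AffGrp W)
    (π : V →ₗ[ℂ] W) {ι : Type*} (Δ : EffDiv 𝒜 Γ ι)
    (f : V ≃ᵃ[ℂ] V) (ψ : R ≃ₐ[ℂ] R) (σ : Cl ρ ≃+ Cl ρ) : Prop where
  pseudo : IsPseudoAut 𝒜 Γ Γ' π f ψ σ
  stable : ∀ p : R →ₐ[ℂ] ℂ, Semistable 𝒜 u p ↔ Semistable 𝒜 u (p.comp (ψ : R →ₐ[ℂ] R))
  fixes : Fixes Δ f ψ

/-- `g` is the pullback on `N^1(X/Z)` by the automorphism of `X` which is induced by `f` and an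
automorphism of `F` with the action `σ` on `Cl(F)`. -/
def IsPull {𝒜 : Cl ρ → Submodule ℂ R} {Γ : Grp V R} {j : E →ₗ[ℂ] V} (f : V ≃ᵃ[ℂ] V)
    (σ : Cl ρ ≃+ Cl ρ) (g : N1 𝒜 Γ j ≃ₗ[ℝ] N1 𝒜 Γ j) : Prop :=
  ∀ x : N1 𝒜 Γ j, (∀ u w u' w' : E, j u' = f.linear (j u) → j w' = f.linear (j w) →
    (val (g x)).1 u w = (val x).1 u' w') ∧ act σ (val (g x)).2 = (val x).2

/-- The cone `A^e(X/Z)` of nef and effective classes. -/
def nefEff (𝒜 : Cl ρ → Submodule ℂ R) (u : Cl ρ) (Γ : Grp V R) (j : E →ₗ[ℂ] V) :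
    Set (N1 𝒜 Γ j) := nefCone 𝒜 Γ j u ∩ effCone 𝒜 Γ j

/-- `𝒢` is a group of linear automorphisms of `N^1(X/Z)` which preserves the integral classes and the
cone of nef and effective classes, and which contains the pullbacks by all automorphisms `(f, ψ)` of
`X` over `Z` which preserve `Δ`. The image of `Aut(X/Z, Δ)` has these properties. -/
structure IsAutGroup {𝒜 : Cl ρ → Submodule ℂ R} (u : Cl ρ) {Γ : Grp V R} (Γ' : AffGrp W)
    (π : V →ₗ[ℂ] W) {j : E →ₗ[ℂ] V} {ι : Type*} (Δ : EffDiv 𝒜 Γ ι)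
    (𝒢 : LinGrp (N1 𝒜 Γ j)) : Prop where
  int : Preserves 𝒢 (integral 𝒜 Γ j)
  nef_eff : Preserves 𝒢 (nefEff 𝒜 u Γ j)
  aut : ∀ f ψ σ, IsAut u Γ' π Δ f ψ σ → ∀ g, IsPull f σ g → g ∈ 𝒢

/-- `𝒢` acts on `A^e(X/Z)` with a rational polyhedral fundamental domain, which is spanned by the finite
set `S` of integral classes. -/
def HasDomain {𝒜 : Cl ρ → Submodule ℂ R} (u : Cl ρ) {Γ : Grp V R} {j : E →ₗ[ℂ] V}
    (𝒢 : LinGrp (N1 𝒜 Γ j)) : Prop :=
  ∃ S : Finset (N1 𝒜 Γ j), ↑S ⊆ integral 𝒜 Γ j ∧ cone S ⊆ nefEff 𝒜 u Γ j ∧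
    IsFundDomain 𝒢 (nefEff 𝒜 u Γ j) (cone S)

/-- The cone `A^e(F)^G` is covered by the translates of the rational polyhedral cone spanned by finitely
many integral classes in it, under the automorphisms `ψ` of `F` for which there is an `f` such that
`(f, ψ)` is an automorphism of `X` over `Z` which preserves `Δ`. -/
def Covered {𝒜 : Cl ρ → Submodule ℂ R} (u : Cl ρ) {Γ : Grp V R} (Γ' : AffGrp W)
    (π : V →ₗ[ℂ] W) {ι : Type*} (Δ : EffDiv 𝒜 Γ ι) : Prop :=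
  ∃ T : Finset (Fin ρ → ℝ),
    (∀ t ∈ T, (∃ β, Inv 𝒜 Γ β ∧ t = vec β) ∧ t ∈ nefF 𝒜 u Γ ∩ effF 𝒜 Γ) ∧
    ∀ b ∈ nefF 𝒜 u Γ ∩ effF 𝒜 Γ, ∃ f ψ σ, IsAut u Γ' π Δ f ψ σ ∧ ∃ t ∈ cone T, b = act σ t

end Aut

end Pool.Agent.W4h4.NR
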