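import Pool.Agent.W4h4.NR.Core3
import Pool.Agent.W4h4.NR.Defs

/-!
# Pullbacks by the automorphisms `(f, ψ)`
-/

set_option autoImplicit false
set_option linter.unusedSectionVars false

namespace Pool.Agent.W4h4.NR

open Finset Filter Topology
open Pool.Agent.W594.SYZ2 Pool.Agent.W594.SYZ2.TQ Pool.Agent.TH735.AQ Pool.Agent.X324.CF
open Pool.Agent.Y167 (cone cone_add cone_smul cone_le cone_mono cone_sum mem_cone_self
  zero_mem_cone cone_image cone_ind cone_of_scaled mem_cone_of_sum Rel Pol Cp CData IsFace AffGrp)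
open Pool.Agent.Y167.CC (LinGrp Preserves IsFundDomain)

section Act

variable {ρ : ℕ}

/-- The action as a linear map. -/
noncomputable def actL (σ : Cl ρ ≃+ Cl ρ) : (Fin ρ → ℝ) →ₗ[ℝ] (Fin ρ → ℝ) where
  toFun := act σ
  map_add' a b := by
    simp only [act, Pi.add_apply, add_smul, Finset.sum_add_distrib]
  map_smul' c a := by
    simp only [act, Pi.smul_apply, smul_eq_mul, RingHom.id_apply, Finset.smul_sum, smul_smul]

theorem actL_apply (σ : Cl ρ ≃+ Cl ρ) (b : Fin ρ → ℝ) : actL σ b = act σ b := rfl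

theorem sum_single (β : Cl ρ) : β = ∑ k, β k • (Pi.single k 1 : Cl ρ) := by
  classical
  funext l
  rw [Finset.sum_apply, Finset.sum_eq_single l]
  · simp
  · intro b _ hb
    simp [Pi.single_eq_of_ne (Ne.symm hb)]
  · intro h
    exact absurd (Finset.mem_univ _) h

theorem sum_rv_single (b : Fin ρ → ℝ) : b = ∑ k, b k • rv (Pi.single k 1 : Cl ρ) := by
  classical
  funext l
  rw [Finset.sum_apply, Finset.sum_eq_single l]
  · simp [rv]
  · intro b _ hb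
    simp [rv, Pi.single_eq_of_ne (Ne.symm hb)]
  · intro h
    exact absurd (Finset.mem_univ _) h

theorem act_rv (σ : Cl ρ ≃+ Cl ρ) (β : Cl ρ) : act σ (rv β) = rv (σ β) := by
  have h1 : σ β = ∑ k, β k • σ (Pi.single k 1) := by
    conv_lhs => rw [sum_single β, map_sum]
    exact Finset.sum_congr rfl fun k _ => by rw [map_zsmul]
  rw [h1, rv_sum, act]
  refine Finset.sum_congr rfl fun k _ => ?_
  rw [rv_zsmul, rv_apply]
  rfl

theorem act_comp (σ τ : Cl ρ ≃+ Cl ρ) (b : Fin ρ → ℝ) : act σ (act τ b) = act (τ.trans σ) b := by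
  rw [← actL_apply, ← actL_apply, ← actL_apply]
  conv_lhs => rw [sum_rv_single b]
  conv_rhs => rw [sum_rv_single b]
  simp only [map_sum, map_smul, actL_apply, act_rv]
  rfl

theorem act_refl (b : Fin ρ → ℝ) : act (AddEquiv.refl (Cl ρ)) b = b := by
  conv_rhs => rw [sum_rv_single b]
  rfl

theorem act_symm (σ : Cl ρ ≃+ Cl ρ) (b : Fin ρ → ℝ) : act σ (act σ.symm b) = b := by
  rw [act_comp, AddEquiv.symm_trans_self, act_refl]

theorem act_symm' (σ : Cl ρ ≃+ Cl ρ) (b : Fin ρ → ℝ) : act σ.symm (act σ b) = b := by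
  rw [act_comp, AddEquiv.self_trans_symm, act_refl]

end Act

variable {V W E R : Type*} [NormedAddCommGroup V] [NormedSpace ℂ V] [FiniteDimensional ℂ V]
  [NormedAddCommGroup W] [NormedSpace ℂ W]
  [NormedAddCommGroup E] [NormedSpace ℂ E] [FiniteDimensional ℂ E] [CommRing R] [IsDomain R]
  [Algebra ℂ R] {ρ n : ℕ}
  {𝒜 : Cl ρ → Submodule ℂ R} [GradedAlgebra 𝒜] {Γ : Grp V R} {w : Fin n → Cl ρ}
  {u : Cl ρ} {j : E →ₗ[ℂ] V} {H₀ : V → V → ℂ} {Γ' : AffGrp W} {π : V →ₗ[ℂ] W}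
  {f : V ≃ᵃ[ℂ] V} {ψ : R ≃ₐ[ℂ] R} {σ : Cl ρ ≃+ Cl ρ}

theorem IsPseudoAut.symm_mem (h : IsPseudoAut 𝒜 Γ Γ' π f ψ σ) {β : Cl ρ} {r : R} (hr : r ∈ 𝒜 β) :
    ψ.symm r ∈ 𝒜 (σ.symm β) := by
  rw [h.induces, ψ.apply_symm_apply, σ.apply_symm_apply]
  exact hr

theorem IsPseudoAut.inv_symm (h : IsPseudoAut 𝒜 Γ Γ' π f ψ σ) {β : Cl ρ} (hβ : Inv 𝒜 Γ β) :
    Inv 𝒜 Γ (σ.symm β) := by
  intro γ hγ τ hτ
  have h1 := (h.normalizes γ).1 hγ
  have h2 := hβ _ h1 ((σ.symm.trans τ).trans σ) (fun β' r hr => by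
    have h3 := hτ _ _ (h.symm_mem hr)
    exact (h.induces _ _).1 h3)
  have h3 : σ (τ (σ.symm β)) = β := h2
  apply σ.injective
  rw [h3, σ.apply_symm_apply]

theorem IsPseudoAut.inv (h : IsPseudoAut 𝒜 Γ Γ' π f ψ σ) {β : Cl ρ} (hβ : Inv 𝒜 Γ β) :
    Inv 𝒜 Γ (σ β) := by
  intro γ hγ τ hτ
  have h0 : (f, ψ) * ((f, ψ)⁻¹ * γ * (f, ψ)) * (f, ψ)⁻¹ = γ := by group
  have h1 : (f, ψ)⁻¹ * γ * (f, ψ) ∈ Γ := by
    rw [h.normalizes, h0]
    exact hγ
  have h2 := hβ _ h1 ((σ.trans τ).trans σ.symm) (fun β' r hr => by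
    have h3 := hτ _ _ ((h.induces _ _).1 hr)
    exact h.symm_mem h3)
  have h3 : σ.symm (τ (σ β)) = β := h2
  apply σ.symm.injective
  rw [h3, σ.symm_apply_apply]

theorem act_Bs {τ : Cl ρ ≃+ Cl ρ} (h : ∀ β, Inv 𝒜 Γ β → Inv 𝒜 Γ (τ β)) {b : Fin ρ → ℝ}
    (hb : b ∈ Bs 𝒜 Γ) : act τ b ∈ Bs 𝒜 Γ := by
  unfold Bs at hb
  rw [← actL_apply]
  induction hb using Submodule.span_induction with
  | mem b hb =>
    obtain ⟨β, hβ, rfl⟩ := hb
    rw [actL_apply, act_rv]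
    exact Submodule.subset_span ⟨_, h β hβ, rfl⟩
  | zero => rw [map_zero]; exact Submodule.zero_mem _
  | add a b _ _ ha hb => rw [map_add]; exact Submodule.add_mem _ ha hb
  | smul c a _ ha => rw [map_smul]; exact Submodule.smul_mem _ c ha

theorem IsPseudoAut.base (h : IsPseudoAut 𝒜 Γ Γ' π f ψ σ) :
    Pool.Agent.Y167.Normalizes (base Γ) f := by
  intro γ
  constructor
  · rintro ⟨δ, hδ, rfl⟩
    exact ⟨_, (h.normalizes δ).1 hδ, rfl⟩
  · rintro ⟨δ, hδ, h1⟩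
    have h0 : (f, ψ) * ((f, ψ)⁻¹ * δ * (f, ψ)) * (f, ψ)⁻¹ = δ := by group
    refine ⟨(f, ψ)⁻¹ * δ * (f, ψ), ?_, ?_⟩
    · rw [SetLike.mem_coe, h.normalizes, h0]
      exact hδ
    · have h2 : δ.1 = f * γ * f⁻¹ := h1
      change f⁻¹ * δ.1 * f = γ
      rw [h2]
      group

/-- The action on the fibre. -/
theorem exists_fib (hj : Function.Injective j) (hjr : LinearMap.range j = LinearMap.ker π)
    (h : ∃ δ ∈ Γ', ∀ v, π (f v) = δ (π v)) :
    ∃ g : E ≃ₗ[ℂ] E, ∀ e, f.linear (j e) = j (g e) := by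
  obtain ⟨δ, -, hδ⟩ := h
  have h1 : ∀ x, π (f.linear x) = δ.linear (π x) := by
    intro x
    have h2 : f.linear x = f x - f 0 := by
      have h3 := f.map_vadd 0 x
      rw [vadd_eq_add, vadd_eq_add, add_zero] at h3
      rw [h3, add_sub_cancel_right]
    have h4 : δ.linear (π x) = δ (π x) - δ 0 := by
      have h3 := δ.map_vadd 0 (π x)
      rw [vadd_eq_add, vadd_eq_add, add_zero] at h3
      rw [h3, add_sub_cancel_right]
    rw [h2, map_sub, hδ, hδ, h4, map_zero]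
  let ej : E ≃ₗ[ℂ] LinearMap.ker π := (LinearEquiv.ofInjective j hj).trans (LinearEquiv.ofEq _ _ hjr)
  have hej : ∀ e, (ej e : V) = j e := fun e => rfl
  let g₀ : E →ₗ[ℂ] LinearMap.ker π := LinearMap.codRestrict _ (f.linear.toLinearMap ∘ₗ j) (by
    intro e
    change π (f.linear (j e)) = 0
    rw [h1]
    have h5 : π (j e) = 0 := by
      have h6 : j e ∈ LinearMap.ker π := hjr ▸ LinearMap.mem_range_self j e
      exact h6
    rw [h5, map_zero])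
  have hg₀ : ∀ e, (g₀ e : V) = f.linear (j e) := fun e => rfl
  let g₁ : E →ₗ[ℂ] E := ej.symm.toLinearMap ∘ₗ g₀
  have hg₁ : ∀ e, j (g₁ e) = f.linear (j e) := by
    intro e
    rw [← hej, ← hg₀]
    change ((ej (ej.symm (g₀ e)) : LinearMap.ker π) : V) = _
    rw [ej.apply_symm_apply]
  have hinj : Function.Injective g₁ := by
    intro a b hab
    apply hj
    apply f.linear.injective
    rw [← hg₁, ← hg₁, hab]
  exact ⟨LinearEquiv.ofInjectiveEndo g₁ hinj, fun e => (hg₁ e).symm⟩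

/-- The pullback exists. -/
theorem exists_pullC (D : Base 𝒜 w) (hQ : IsQuotient 𝒜 u Γ) (hj : Function.Injective j)
    (hjr : LinearMap.range j = LinearMap.ker π) (h : IsPseudoAut 𝒜 Γ Γ' π f ψ σ) :
    ∃ g : N1 𝒜 Γ j ≃ₗ[ℝ] N1 𝒜 Γ j, IsPull f σ g := by
  obtain ⟨gE, hgE⟩ := exists_fib hj hjr h.overZ
  obtain ⟨gA, h1, -, -, -⟩ := Pool.Agent.Y167.exists_pull (j := j) h.base hgE
  let sB : Bs 𝒜 Γ ≃ₗ[ℝ] Bs 𝒜 Γ :=
    { toFun := fun b => ⟨act σ.symm b.1, act_Bs (fun _ hβ => h.inv_symm hβ) b.2⟩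
      map_add' := fun a b => Subtype.ext (map_add (actL σ.symm) a.1 b.1)
      map_smul' := fun c a => Subtype.ext (map_smul (actL σ.symm) c a.1)
      invFun := fun b => ⟨act σ b.1, act_Bs (fun _ hβ => h.inv hβ) b.2⟩
      left_inv := fun b => Subtype.ext (act_symm σ b.1)
      right_inv := fun b => Subtype.ext (act_symm' σ b.1) }
  let G : N1 𝒜 Γ j ≃ₗ[ℝ] N1 𝒜 Γ j := ((eqv D hQ).trans
    (LinearEquiv.prodCongr gA sB)).trans (eqv D hQ).symm
  have hG : ∀ a, G a = i1 (gA (p1 hQ a)) + i2 D hQ (sB (p2 a)) := fun a => rfl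
  refine ⟨G, fun a => ⟨fun v w v' w' hv hw => ?_, ?_⟩⟩
  · rw [hG]
    change (gA (p1 hQ a)).1 v w + 0 = _
    rw [h1, add_zero]
    rw [hgE] at hv hw
    rw [hj hv, hj hw]
    rfl
  · rw [hG]
    change act σ ((0 : Fin ρ → ℝ) + act σ.symm (val a).2) = _
    rw [zero_add, act_symm]

/-! ### Semiample classes -/

theorem IsVariety.base (D : IsVariety 𝒜 u) : Base 𝒜 (Fin.elim0 : Fin 0 → Cl ρ) where
  gens := fun H hH => by
    rw [eq_top_iff]
    intro β _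
    obtain ⟨m, h1, h2⟩ := D.sections β
    have h3 := H.sub_mem (hH _ h1) (hH _ h2)
    rwa [add_sub_cancel_right] at h3
  pointed := fun c _ => funext fun i => i.elim0

/-- Semiample classes are pseudoeffective. -/
theorem semiample_pseff (D : IsVariety 𝒜 u) {β : Cl ρ} (h : SemiampleF 𝒜 u β) :
    rv β ∈ coneHull {b | ∃ β : Cl ρ, (∃ r ∈ 𝒜 β, r ≠ 0) ∧ b = rv β} := by
  obtain ⟨m, hm, h1⟩ := h
  obtain ⟨p, hp⟩ := D.point
  obtain ⟨r, hr, hr0⟩ := h1 p hp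
  have hmr : (0 : ℝ) < m := by exact_mod_cast hm
  refine hull_scaled hmr ⟨m • β, ⟨r, hr, fun h => hr0 (by rw [h, map_zero])⟩, ?_⟩
  rw [rv_nsmul]

theorem nefF_pseff (D : IsVariety 𝒜 u) : KF (semiampleInv 𝒜 u Γ) ⊆ pseff 𝒜 := by
  refine closure_mono (hull_le ?_)
  rintro _ ⟨β, hβ, rfl⟩
  exact semiample_pseff D hβ.2

theorem good_nefC (D : IsVariety 𝒜 u) (hQ : IsQuotient 𝒜 u Γ) :
    GoodC (semiampleInv 𝒜 u Γ) u (semiample 𝒜 Γ j u) where
  inv := fun β hβ => hβ.1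
  ample := fun β hβ => by
    obtain ⟨m, hm⟩ := D.ample β
    exact ⟨m, hβ.add (hQ.inv.nsmul m), hm⟩
  pointed := fun b h1 h2 => D.pointed b (nefF_pseff D h1) (nefF_pseff D h2)
  sub := by
    rintro a ⟨𝓛, hc, m, hm, h1⟩
    have hmr : (0 : ℝ) < m := by exact_mod_cast hm
    have h3 : (val a).2 = rv 𝓛.deg := funext hc.2
    refine ⟨fun e => ?_, ?_⟩
    · obtain ⟨p, hp⟩ := D.point
      obtain ⟨f, hf, hf0⟩ := h1 0 p hp
      obtain ⟨⟨H, hH, h2⟩, -⟩ := hc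
      have h4 := Sheaf.nef_of_section hQ (Sheaf.chern_pow hH m) hf.sec ⟨0, fun h => hf0 (by
        rw [h, map_zero])⟩ (j e)
      have e2 : (m : ℂ) = ((m : ℝ) : ℂ) := by push_cast; rfl
      rw [e2, Complex.re_ofReal_mul] at h4
      rw [h2]
      exact nonneg_of_mul_nonneg_right h4 hmr
    · rw [h3]
      refine subset_closure (hull_mem ⟨_, ⟨𝓛.inv, m, hm, fun p hp => ?_⟩, rfl⟩)
      obtain ⟨f, hf, hf0⟩ := h1 0 p hp
      exact ⟨f 0, hf.mem 0, hf0⟩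
  bpf := fun _ hs _ ha => bpf_semiample hs ha
  deg := by
    classical
    rintro β ⟨hβ, m, hm, h1⟩
    have := hQ.fin_gal
    have : Fintype (gal Γ) := Fintype.ofFinite _
    obtain ⟨a, ha1, ha2⟩ := exists_degclass (j := j) D.base hQ hβ m
    have hbpf : ∀ p, Semistable 𝒜 u p → ∃ r ∈ 𝒜 (m • β), p (nrm (gal Γ) r) ≠ 0 := by
      intro p hp
      refine exists_nonvanish (K := gal Γ) (𝒜 := 𝒜) (β := m • β) (p := p) fun φ => ?_
      obtain ⟨r, hr, hr0⟩ := h1 _ (semistable_comp hQ hp φ.2)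
      exact ⟨r, hr, hr0⟩
    refine ⟨Nat.card (gal Γ) * m, Nat.mul_pos Nat.card_pos hm, a,
      ⟨_, ha1, 1, one_pos, fun v p hp => ?_⟩, ?_, ha2⟩
    · obtain ⟨r, hr, hr0⟩ := hbpf p hp
      exact ⟨_, Sheaf.pow_one_section (ofDeg_section hr), hr0⟩
    · obtain ⟨p, hp⟩ := D.point
      obtain ⟨r, hr, hr0⟩ := hbpf p hp
      refine ⟨_, _, ha1, ofDeg_section hr, 0, fun h => hr0 ?_⟩
      beta_reduce at h
      rw [h, map_zero]

end Pool.Agent.W4h4.NR
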