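import Pool.Agent.W4h4.NR.DefsS
import Pool.Agent.W4h4.NR.Core4
import Pool.Agent.W4h4.NR.Pull

/-!
# Quotients over an affine base
-/

set_option autoImplicit false
set_option linter.unusedSectionVars false

namespace Pool.Agent.W4h4.NR

open Finset Filter Topology
open Pool.Agent.W594.SYZ2 Pool.Agent.W594.SYZ2.TQ Pool.Agent.TH735.AQ Pool.Agent.X324.CF
open Pool.Agent.Y167 (cone cone_add cone_smul cone_le cone_mono cone_sum mem_cone_self
  zero_mem_cone cone_image cone_ind cone_of_scaled mem_cone_of_sum Rel Pol Cp CData IsFace AffGrp)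
open Pool.Agent.Y167.CC (LinGrp Preserves IsFundDomain)

variable {V W E R : Type*} [NormedAddCommGroup V] [NormedSpace ℂ V] [FiniteDimensional ℂ V]
  [NormedAddCommGroup W] [NormedSpace ℂ W] [FiniteDimensional ℂ W]
  [NormedAddCommGroup E] [NormedSpace ℂ E] [FiniteDimensional ℂ E]
  [CommRing R] [IsDomain R] [Algebra ℂ R] {ρ : ℕ}
  {𝒜 : Cl ρ → Submodule ℂ R} [GradedAlgebra 𝒜] {u : Cl ρ} {Γ : Grp V R} {j : E →ₗ[ℂ] V}

theorem overS (hF : IsVariety 𝒜 u) (hX : IsQuotient 𝒜 u Γ)
    (hproj : ∃ (L : Sheaf 𝒜 Γ) (H : V → V → ℂ), L.IsChern H ∧ IsPositiveForm H)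
    (Γ' : AffGrp W) (π : V →ₗ[ℂ] W) (hπ : IsFibration (base Γ) Γ' π)
    (hj : Function.Injective j) (hjr : LinearMap.range j = LinearMap.ker π)
    {ι : Type*} [Fintype ι] (Δ : EffDiv 𝒜 Γ ι) (hΔ : NumTrivial Δ j) (hp : PolyF 𝒜 u Γ)
    (𝒢 : LinGrp (N1 𝒜 Γ j)) (h𝒢 : IsAutGroupS u π Δ 𝒢) : HasDomain u 𝒢 := by
  classical
  obtain ⟨H₀, Rl⟩ := rel_emb hX hproj hπ hj hjr
  have hG := good_nefC (j := j) hF hX
  obtain ⟨T, hT, hTi⟩ := hp
  have hTm : ∀ t ∈ T, (∃ β, Inv 𝒜 Γ β ∧ t = rv β) ∧ t ∈ KF (semiampleInv 𝒜 u Γ) ∧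
      t ∈ effF 𝒜 Γ := by
    intro t ht
    have h1 : t ∈ nefF 𝒜 u Γ ∩ effF 𝒜 Γ := by
      rw [hT]
      exact mem_cone_self ht
    exact ⟨hTi t ht, h1.1, h1.2⟩
  have hsub : ∀ b ∈ KF (semiampleInv 𝒜 u Γ), b ∈ effF 𝒜 Γ → b ∈ cone T := by
    intro b h1 h2
    rw [← hT]
    exact ⟨h1, h2⟩
  obtain ⟨S, h1, h2, h3, -⟩ := coreD hF.base hX Rl hG Δ hΔ 𝒢 h𝒢.int h𝒢.nef_eff
    (fun f hf hf2 hf3 g hg => h𝒢.aut f hf (fun v => by
      obtain ⟨e, he⟩ := hf2 v
      have h5 : π (j e) = 0 := by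
        have h6 : j e ∈ LinearMap.ker π := hjr ▸ LinearMap.mem_range_self j e
        exact h6
      rw [he, map_add, h5, add_zero]) hf3 g hg)
    T hTm
    (fun b hb => by
      obtain ⟨t, ht, hb⟩ := hb
      refine ⟨1, 𝒢.one_mem, fun a ha => ?_⟩
      have h4 := interior_hull hX.inv hG hb ht
      rw [sub_add_cancel] at h4
      change (val a).2 ∈ cone T
      rw [ha]
      refine hsub b (subset_closure h4) ?_
      have h5 : coneHull {b | ∃ β ∈ semiampleInv 𝒜 u Γ, b = rv β} ⊆ effF 𝒜 Γ := by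
        refine hull_le ?_
        rintro _ ⟨β, hβ, rfl⟩
        obtain ⟨m, hm, h6⟩ := hβ.2
        obtain ⟨p, hp⟩ := hF.point
        obtain ⟨r, hr, hr0⟩ := h6 p hp
        have hmr : (0 : ℝ) < m := by exact_mod_cast hm
        refine hull_scaled hmr ⟨m • β, hβ.1.nsmul m, ⟨r, hr, fun h => hr0 (by
          rw [h, map_zero])⟩, ?_⟩
        rw [← rv_nsmul]
        rfl
      exact h5 h4)
    (fun b hb1 hb2 => ⟨T, hsub b hb1 hb2, hTm⟩)
  exact ⟨S, h1, h2, h3⟩

/-! ### The case `F = S` -/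

section Affine

/-- The grading for `F = S`: the class group is trivial, and the only piece is the ring of the
functions on `S`. -/
def functionsOn (R : Type*) [CommRing R] [Algebra ℂ R] : Cl 0 → Submodule ℂ R := fun _ => ⊤

theorem cl_zero (β : Cl 0) : β = 0 := Subsingleton.elim _ _

/-- The grading is a grading. -/
noncomputable def decompFunctions (R : Type*) [CommRing R] [Algebra ℂ R] :
    DirectSum.Decomposition (functionsOn R) :=
  DirectSum.Decomposition.ofAddHom _
    ((DirectSum.of (fun i => functionsOn R i) 0).comp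
      ((Submodule.topEquiv (R := ℂ) (M := R)).symm : R ≃+ (⊤ : Submodule ℂ R)).toAddMonoidHom)
    (by
      ext r
      change DirectSum.coeAddMonoidHom _ (DirectSum.of (fun i => functionsOn R i) 0 _) = r
      rw [DirectSum.coeAddMonoidHom_of]
      rfl)
    (by
      refine DirectSum.addHom_ext fun i x => ?_
      have hi : i = 0 := cl_zero i
      subst hi
      change DirectSum.of (fun i => functionsOn R i) 0
        ⟨DirectSum.coeAddMonoidHom _ (DirectSum.of (fun i => functionsOn R i) 0 x), _⟩ =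
        DirectSum.of (fun i => functionsOn R i) 0 x
      congr 1
      apply Subtype.ext
      change DirectSum.coeAddMonoidHom _ (DirectSum.of (fun i => functionsOn R i) 0 x) = x.1
      rw [DirectSum.coeAddMonoidHom_of])

/-- The grading is a grading. -/
noncomputable def gradedFunctions (R : Type*) [CommRing R] [Algebra ℂ R] :
    GradedAlgebra (functionsOn R) :=
  { decompFunctions R with
    one_mem := Submodule.mem_top
    mul_mem := fun _ _ _ _ _ _ => Submodule.mem_top }

/-- An affine variety `S` is a variety which is projective over `S`. -/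
theorem isVariety_affine (R : Type*) [CommRing R] [IsDomain R] [Algebra ℂ R]
    (hR : Nonempty (R →ₐ[ℂ] ℂ)) : IsVariety (functionsOn R) 0 where
  point := by
    obtain ⟨p⟩ := hR
    exact ⟨p, 1, one_pos, 1, Submodule.mem_top, by rw [map_one]; exact one_ne_zero⟩
  sections := fun β => ⟨0, ⟨1, Submodule.mem_top, one_ne_zero⟩, ⟨1, Submodule.mem_top, one_ne_zero⟩⟩
  ample := fun β => ⟨0, 1, one_pos, fun p _ => ⟨1, Submodule.mem_top, by
    rw [map_one]
    exact one_ne_zero⟩⟩
  pointed := fun b _ _ => Subsingleton.elim _ _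

/-- The cone of nef and effective classes of `S` over `S` is trivial. -/
theorem polyF_affine (R : Type*) [CommRing R] [IsDomain R] [Algebra ℂ R]
    (Γ : Grp V R) : PolyF (functionsOn R) 0 Γ := by
  refine ⟨∅, ?_, by simp⟩
  apply Set.Subset.antisymm
  · intro b _
    have hb : b = 0 := Subsingleton.elim _ _
    rw [hb]
    exact zero_mem_cone _
  · intro b _
    have hb : b = 0 := Subsingleton.elim _ _
    rw [hb]
    exact ⟨subset_closure hull_zero, hull_zero⟩

end Affine

end Pool.Agent.W4h4.NR
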