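import Pool.Agent.W4h4.NR.Cone
import Pool.Agent.W4h4.NR.Defs

/-!
# The cones of `(V × F) / Γ` when the cone of `F` is arbitrary
-/

set_option autoImplicit false
set_option linter.unusedSectionVars false

namespace Pool.Agent.W4h4.NR

open Finset Filter Topology
open Pool.Agent.W594.SYZ2 Pool.Agent.W594.SYZ2.TQ Pool.Agent.TH735.AQ Pool.Agent.X324.CF
open Pool.Agent.Y167 (cone cone_add cone_smul cone_le cone_mono cone_sum mem_cone_self
  zero_mem_cone cone_image cone_ind cone_of_scaled mem_cone_of_sum Rel Pol Cp CData IsFace)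
open Pool.Agent.Y167.CC (LinGrp Preserves IsFundDomain)

variable {V E R : Type*} [NormedAddCommGroup V] [NormedSpace ℂ V] [FiniteDimensional ℂ V]
  [NormedAddCommGroup E] [NormedSpace ℂ E] [FiniteDimensional ℂ E] [CommRing R] [IsDomain R]
  [Algebra ℂ R] {ρ n : ℕ}
  {𝒜 : Cl ρ → Submodule ℂ R} [GradedAlgebra 𝒜] {Γ : Grp V R} {w : Fin n → Cl ρ}
  {u : Cl ρ} {j : E →ₗ[ℂ] V} {H₀ : V → V → ℂ} {𝒮 : Set (Cl ρ)}

/-- The closed cone spanned by a set of integral classes. -/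
def KF (𝒮 : Set (Cl ρ)) : Set (Fin ρ → ℝ) := closure (coneHull {b | ∃ β ∈ 𝒮, b = rv β})

/-- The classes with semidefinite form and degree in the cone of `F`. -/
def KX (𝒜 : Cl ρ → Submodule ℂ R) (Γ : Grp V R) (j : E →ₗ[ℂ] V) (𝒮 : Set (Cl ρ)) :
    Set (N1 𝒜 Γ j) := {a | (∀ e, 0 ≤ ((val a).1 e e).re) ∧ (val a).2 ∈ KF 𝒮}

/-- A set of invariant classes of `F` and a set of classes of `X` with the same degrees. -/
structure GoodC (𝒮 : Set (Cl ρ)) (u : Cl ρ) (P : Set (N1 𝒜 Γ j)) : Prop where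
  inv : ∀ β ∈ 𝒮, Inv 𝒜 Γ β
  ample : ∀ β, Inv 𝒜 Γ β → ∃ m : ℕ, β + m • u ∈ 𝒮
  pointed : ∀ b, b ∈ KF 𝒮 → -b ∈ KF 𝒮 → b = 0
  sub : P ⊆ KX 𝒜 Γ j 𝒮
  bpf : ∀ L : LineBundle (base Γ), (∀ v, ∃ s, L.IsSection s ∧ s v ≠ 0) →
    ∀ a : N1 𝒜 Γ j, IsClass j (Sheaf.ofLB L : Sheaf 𝒜 Γ) (val a) → a ∈ P
  deg : ∀ β ∈ 𝒮, ∃ M : ℕ, 0 < M ∧ ∃ a ∈ P, a ∈ effective 𝒜 Γ j ∧ val a = (0, (M : ℝ) • rv β)

/-! ### The cone of `F` -/

theorem KF_zero : (0 : Fin ρ → ℝ) ∈ KF 𝒮 := subset_closure hull_zero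

theorem KF_closed : IsClosed (KF 𝒮) := isClosed_closure

theorem closure_hull_add {W : Type*} [AddCommGroup W] [Module ℝ W] [TopologicalSpace W]
    [ContinuousAdd W] {Q : Set W} {a b : W} (ha : a ∈ closure (coneHull Q))
    (hb : b ∈ closure (coneHull Q)) : a + b ∈ closure (coneHull Q) :=
  map_mem_closure₂ continuous_add ha hb fun _ hx _ hy => hull_add hx hy

theorem closure_hull_smul {W : Type*} [AddCommGroup W] [Module ℝ W] [TopologicalSpace W]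
    [ContinuousConstSMul ℝ W] {Q : Set W} {a : W} {t : ℝ} (ht : 0 ≤ t)
    (ha : a ∈ closure (coneHull Q)) : t • a ∈ closure (coneHull Q) :=
  map_mem_closure (continuous_const_smul t) ha fun _ hx => hull_smul ht hx

theorem KF_add {a b : Fin ρ → ℝ} (ha : a ∈ KF 𝒮) (hb : b ∈ KF 𝒮) : a + b ∈ KF 𝒮 :=
  closure_hull_add ha hb

theorem KF_smul {a : Fin ρ → ℝ} {t : ℝ} (ht : 0 ≤ t) (ha : a ∈ KF 𝒮) : t • a ∈ KF 𝒮 :=
  closure_hull_smul ht ha

theorem KX_zero : (0 : N1 𝒜 Γ j) ∈ KX 𝒜 Γ j 𝒮 := ⟨fun _ => le_refl (0 : ℝ), KF_zero⟩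

theorem KX_add {a b : N1 𝒜 Γ j} (ha : a ∈ KX 𝒜 Γ j 𝒮) (hb : b ∈ KX 𝒜 Γ j 𝒮) :
    a + b ∈ KX 𝒜 Γ j 𝒮 := by
  refine ⟨fun e => ?_, KF_add ha.2 hb.2⟩
  change 0 ≤ ((val a).1 e e + (val b).1 e e).re
  rw [Complex.add_re]
  exact add_nonneg (ha.1 e) (hb.1 e)

theorem KX_smul {a : N1 𝒜 Γ j} {t : ℝ} (ht : 0 ≤ t) (ha : a ∈ KX 𝒜 Γ j 𝒮) :
    t • a ∈ KX 𝒜 Γ j 𝒮 := by
  refine ⟨fun e => ?_, KF_smul ht ha.2⟩
  change 0 ≤ (t • (val a).1 e e).re
  rw [Complex.smul_re]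
  exact mul_nonneg ht (ha.1 e)

theorem KX_closed : IsClosed (KX 𝒜 Γ j 𝒮) := by
  have hval : Continuous (val : N1 𝒜 Γ j → Pairs E ρ) := continuous_subtype_val
  have h1 : KX 𝒜 Γ j 𝒮 = (⋂ e : E, {a : N1 𝒜 Γ j | 0 ≤ ((val a).1 e e).re}) ∩
      {a : N1 𝒜 Γ j | (val a).2 ∈ KF 𝒮} := by
    ext a
    simp [KX]
  rw [h1]
  refine IsClosed.inter (isClosed_iInter fun e => ?_) ?_
  · refine isClosed_le continuous_const (Complex.continuous_re.comp ?_)
    exact (continuous_apply e).comp ((continuous_apply e).comp (continuous_fst.comp hval))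
  · exact KF_closed.preimage (continuous_snd.comp hval)

/-- A point of the closure becomes a point of the cone when a multiple of an interior point is
added. -/
theorem mem_hull_of_closure {W : Type*} [NormedAddCommGroup W] [NormedSpace ℝ W]
    [FiniteDimensional ℝ W] {Q : Set W} {B : Submodule ℝ W} (hQB : Q ⊆ B) {v : W}
    (hv : ∀ x ∈ B, ∃ C : ℝ, 0 < C ∧ C • v - x ∈ coneHull Q) {b : W}
    (hb : b ∈ closure (coneHull Q)) {t : ℝ} (ht : 0 < t) : b + t • v ∈ coneHull Q := by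
  classical
  have hhB : coneHull Q ⊆ B := fun x hx => hull_ind (p := fun x => x ∈ B) B.zero_mem
    (fun _ _ h1 h2 => B.add_mem h1 h2) (fun t _ _ h => B.smul_mem t h) (fun a ha => hQB ha) hx
  have hbB : b ∈ B := by
    have h1 : closure (coneHull Q) ⊆ B :=
      closure_minimal hhB (Submodule.closed_of_finiteDimensional B)
    exact h1 hb
  have hvQ : v ∈ coneHull Q := by
    obtain ⟨C, hC, h1⟩ := hv 0 B.zero_mem
    rw [sub_zero] at h1
    have h2 := hull_smul (inv_nonneg.2 hC.le) h1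
    rwa [smul_smul, inv_mul_cancel₀ hC.ne', one_smul] at h2
  let e := Module.finBasis ℝ B
  have h1 : ∀ i, ∃ C : ℝ, 0 < C ∧ C • v - (e i : W) ∈ coneHull Q ∧
      C • v + (e i : W) ∈ coneHull Q := by
    intro i
    obtain ⟨C, hC, h1⟩ := hv _ (e i).2
    obtain ⟨C', hC', h2⟩ := hv _ (B.neg_mem (e i).2)
    refine ⟨C + C', by positivity, ?_, ?_⟩
    · have h3 : (C + C') • v - (e i : W) = (C • v - (e i : W)) + C' • v := by module
      rw [h3]
      exact hull_add h1 (hull_smul hC'.le hvQ)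
    · have h3 : (C + C') • v + (e i : W) = (C' • v - -(e i : W)) + C • v := by module
      rw [h3]
      exact hull_add h2 (hull_smul hC.le hvQ)
  choose C hC hC1 hC2 using h1
  -- all `x`
  have h2 : ∀ x : B, (∑ i, |e.repr x i| * C i) • v - (x : W) ∈ coneHull Q := by
    intro x
    have h3 : (x : W) = ∑ i, (e.repr x i) • (e i : W) := by
      conv_lhs => rw [← e.sum_repr x]
      rw [Submodule.coe_sum]
      rfl
    rw [h3, Finset.sum_smul, ← Finset.sum_sub_distrib]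
    have h4 : ∀ s : Finset (Fin (Module.finrank ℝ B)),
        ∑ i ∈ s, ((|e.repr x i| * C i) • v - (e.repr x i) • (e i : W)) ∈ coneHull Q := by
      intro s
      induction s using Finset.induction_on with
      | empty => rw [Finset.sum_empty]; exact hull_zero
      | insert i s hi ih =>
        rw [Finset.sum_insert hi]
        refine hull_add ?_ ih
        rcases le_total 0 (e.repr x i) with h | h
        · have h5 : (|e.repr x i| * C i) • v - (e.repr x i) • (e i : W)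
              = (e.repr x i) • (C i • v - (e i : W)) := by
            rw [abs_of_nonneg h]
            module
          rw [h5]
          exact hull_smul h (hC1 i)
        · have h5 : (|e.repr x i| * C i) • v - (e.repr x i) • (e i : W)
              = (-e.repr x i) • (C i • v + (e i : W)) := by
            rw [abs_of_nonpos h]
            module
          rw [h5]
          exact hull_smul (neg_nonneg.2 h) (hC2 i)
    exact h4 _
  have hcont : Continuous fun x : B => ∑ i, |e.repr x i| * C i := by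
    refine continuous_finsetSum _ fun i _ => ?_
    refine Continuous.mul_const ?_ _
    refine continuous_abs.comp ?_
    exact ((Finsupp.lapply i).comp e.repr.toLinearMap).continuous_of_finiteDimensional
  have h0 : (∑ i, |e.repr (0 : B) i| * C i) = 0 := by simp
  have hev : ∀ᶠ x : B in 𝓝 0, (∑ i, |e.repr x i| * C i) < t := by
    have h3 := hcont.tendsto 0
    rw [h0] at h3
    exact h3.eventually_lt_const ht
  obtain ⟨δ, hδ, hball⟩ := Metric.eventually_nhds_iff.1 hev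
  obtain ⟨c, hc, hcd⟩ := Metric.mem_closure_iff.1 hb δ hδ
  have hcB : c ∈ B := hhB hc
  let x : B := ⟨c - b, B.sub_mem hcB hbB⟩
  have hx : dist x 0 < δ := by
    rw [dist_zero_right]
    change ‖c - b‖ < δ
    rwa [← dist_eq_norm, dist_comm]
  have h3 := h2 x
  have h4 := hball hx
  have h5 : b + t • v = c + (((∑ i, |e.repr x i| * C i) • v - (x : W))
      + (t - ∑ i, |e.repr x i| * C i) • v) := by
    have hxc : (x : W) = c - b := rfl
    rw [hxc]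
    module
  rw [h5]
  exact hull_add hc (hull_add h3 (hull_smul (by linarith) hvQ))

section FSide

variable {P : Set (N1 𝒜 Γ j)}

theorem set_sub (hP : GoodC 𝒮 u P) : {b | ∃ β ∈ 𝒮, b = rv β} ⊆ (Bs 𝒜 Γ : Set (Fin ρ → ℝ)) := by
  rintro _ ⟨β, hβ, rfl⟩
  exact Submodule.subset_span ⟨β, hP.inv β hβ, rfl⟩

theorem KF_sub (hP : GoodC 𝒮 u P) : KF 𝒮 ⊆ (Bs 𝒜 Γ : Set (Fin ρ → ℝ)) := by
  refine closure_minimal (fun x hx => ?_) (Submodule.closed_of_finiteDimensional _)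
  exact hull_ind (p := fun x => x ∈ Bs 𝒜 Γ) (Submodule.zero_mem _)
    (fun _ _ h1 h2 => Submodule.add_mem _ h1 h2) (fun t _ _ h => Submodule.smul_mem _ t h)
    (fun a ha => set_sub hP ha) hx

/-- Every invariant real class becomes a combination of the classes when a multiple of `u` is
added. -/
theorem real_ample (hu : Inv 𝒜 Γ u) (hP : GoodC 𝒮 u P) : ∀ b ∈ Bs 𝒜 Γ,
    ∃ C : ℝ, 0 < C ∧ C • rv u - b ∈ coneHull {b | ∃ β ∈ 𝒮, b = rv β} := by
  have hint : ∀ β, Inv 𝒜 Γ β → ∃ m : ℕ, rv β + (m : ℝ) • rv u ∈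
      coneHull {b | ∃ β ∈ 𝒮, b = rv β} := by
    intro β hβ
    obtain ⟨m, hm⟩ := hP.ample β hβ
    refine ⟨m, hull_mem ⟨_, hm, ?_⟩⟩
    rw [rv_add, rv_nsmul]
  have huQ : rv u ∈ coneHull {b | ∃ β ∈ 𝒮, b = rv β} := by
    obtain ⟨m, hm⟩ := hint u hu
    have h1 : rv u + (m : ℝ) • rv u = ((m : ℝ) + 1) • rv u := by module
    rw [h1] at hm
    have h2 : (0 : ℝ) < (m : ℝ) + 1 := by positivity
    have h3 := hull_smul (inv_nonneg.2 h2.le) hm
    rwa [smul_smul, inv_mul_cancel₀ h2.ne', one_smul] at h3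
  have key : ∀ b ∈ Bs 𝒜 Γ, (∃ C : ℝ, 0 ≤ C ∧ C • rv u - b ∈ coneHull {b | ∃ β ∈ 𝒮, b = rv β}) ∧
      ∃ C : ℝ, 0 ≤ C ∧ C • rv u + b ∈ coneHull {b | ∃ β ∈ 𝒮, b = rv β} := by
    intro b hb
    unfold Bs at hb
    induction hb using Submodule.span_induction with
    | mem b hb =>
      obtain ⟨β, hβ, rfl⟩ := hb
      obtain ⟨m, hm⟩ := hint _ hβ.neg
      obtain ⟨m', hm'⟩ := hint _ hβ
      refine ⟨⟨m, Nat.cast_nonneg _, ?_⟩, ⟨m', Nat.cast_nonneg _, ?_⟩⟩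
      · rw [rv_neg] at hm
        rwa [sub_eq_neg_add]
      · rwa [add_comm]
    | zero => exact ⟨⟨0, le_rfl, by rw [zero_smul, sub_zero]; exact hull_zero⟩,
        ⟨0, le_rfl, by rw [zero_smul, add_zero]; exact hull_zero⟩⟩
    | add a b _ _ ha hb =>
      obtain ⟨⟨C1, h1, h2⟩, ⟨C2, h3, h4⟩⟩ := ha
      obtain ⟨⟨D1, k1, k2⟩, ⟨D2, k3, k4⟩⟩ := hb
      refine ⟨⟨C1 + D1, by positivity, ?_⟩, ⟨C2 + D2, by positivity, ?_⟩⟩
      · have h5 : (C1 + D1) • rv u - (a + b) = (C1 • rv u - a) + (D1 • rv u - b) := by module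
        rw [h5]
        exact hull_add h2 k2
      · have h5 : (C2 + D2) • rv u + (a + b) = (C2 • rv u + a) + (D2 • rv u + b) := by module
        rw [h5]
        exact hull_add h4 k4
    | smul c a _ ha =>
      obtain ⟨⟨C1, h1, h2⟩, ⟨C2, h3, h4⟩⟩ := ha
      rcases le_total 0 c with h | h
      · refine ⟨⟨c * C1, by positivity, ?_⟩, ⟨c * C2, by positivity, ?_⟩⟩
        · have h5 : (c * C1) • rv u - c • a = c • (C1 • rv u - a) := by module
          rw [h5]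
          exact hull_smul h h2
        · have h5 : (c * C2) • rv u + c • a = c • (C2 • rv u + a) := by module
          rw [h5]
          exact hull_smul h h4
      · have h' : 0 ≤ -c := neg_nonneg.2 h
        refine ⟨⟨-c * C2, by positivity, ?_⟩, ⟨-c * C1, by positivity, ?_⟩⟩
        · have h5 : (-c * C2) • rv u - c • a = (-c) • (C2 • rv u + a) := by module
          rw [h5]
          exact hull_smul h' h4
        · have h5 : (-c * C1) • rv u + c • a = (-c) • (C1 • rv u - a) := by module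
          rw [h5]
          exact hull_smul h' h2
  intro b hb
  obtain ⟨⟨C, hC, h1⟩, -⟩ := key b hb
  refine ⟨C + 1, by linarith, ?_⟩
  have h2 : (C + 1) • rv u - b = (C • rv u - b) + rv u := by module
  rw [h2]
  exact hull_add h1 huQ

theorem hull_u (hu : Inv 𝒜 Γ u) (hP : GoodC 𝒮 u P) :
    rv u ∈ coneHull {b | ∃ β ∈ 𝒮, b = rv β} := by
  obtain ⟨C, hC, h1⟩ := real_ample hu hP 0 (Submodule.zero_mem _)
  rw [sub_zero] at h1
  have h2 := hull_smul (inv_nonneg.2 hC.le) h1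
  rwa [smul_smul, inv_mul_cancel₀ hC.ne', one_smul] at h2

/-- Interior points. -/
theorem interior_hull (hu : Inv 𝒜 Γ u) (hP : GoodC 𝒮 u P) {b : Fin ρ → ℝ} (hb : b ∈ KF 𝒮)
    {t : ℝ} (ht : 0 < t) : b + t • rv u ∈ coneHull {b | ∃ β ∈ 𝒮, b = rv β} :=
  mem_hull_of_closure (set_sub hP) (real_ample hu hP) hb ht

/-- The data for the cone of classes of `F`. -/
theorem cdataC (hu : Inv 𝒜 Γ u) (hP : GoodC 𝒮 u P) :
    ∃ (ξ : Bs 𝒜 Γ →ₗ[ℝ] ℝ) (Y : Finset (Bs 𝒜 Γ)),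
      CData (L2 𝒜 Γ) {b | b.1 ∈ KF 𝒮} ξ ⟨rv u, Submodule.subset_span ⟨u, hu, rfl⟩⟩ Y := by
  classical
  obtain ⟨z, hz⟩ := exists_int_form (K := KF 𝒮) KF_closed KF_zero
    (fun a ha b hb => KF_add ha hb) (fun t ht a ha => KF_smul ht ha) hP.pointed
  set y₀ : Bs 𝒜 Γ := ⟨rv u, Submodule.subset_span ⟨u, hu, rfl⟩⟩ with hy₀
  have hadd : ∀ a ∈ {b : Bs 𝒜 Γ | b.1 ∈ KF 𝒮}, ∀ b ∈ {b : Bs 𝒜 Γ | b.1 ∈ KF 𝒮},
      a + b ∈ {b : Bs 𝒜 Γ | b.1 ∈ KF 𝒮} := fun a ha b hb => KF_add ha hb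
  have hsmul : ∀ t : ℝ, 0 ≤ t → ∀ a ∈ {b : Bs 𝒜 Γ | b.1 ∈ KF 𝒮},
      t • a ∈ {b : Bs 𝒜 Γ | b.1 ∈ KF 𝒮} := fun t ht a ha => KF_smul ht ha
  have yL : y₀ ∈ L2 𝒜 Γ := ⟨u, hu, rfl⟩
  have yK : y₀ ∈ {b : Bs 𝒜 Γ | b.1 ∈ KF 𝒮} := subset_closure (hull_u hu hP)
  have yint : ∀ b : Bs 𝒜 Γ, ∃ C : ℝ, 0 < C ∧ C • y₀ - b ∈ {b : Bs 𝒜 Γ | b.1 ∈ KF 𝒮} := by
    intro b
    obtain ⟨C, hC, h1⟩ := real_ample hu hP b.1 b.2
    exact ⟨C, hC, subset_closure h1⟩
  obtain ⟨Y, hY1, hY2⟩ := exists_Y hadd hsmul yL yK yint span_L2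
  refine ⟨dot (rv z) ∘ₗ (Bs 𝒜 Γ).subtype, Y,
    { add := hadd
      smul := hsmul
      xi_int := fun b hb => ?_
      xi_pos := fun b hb hb0 => ?_
      fin := fun C => ?_
      y_L := yL
      y_N := yK
      y_int := yint
      dom := fun η => ?_
      sep := fun b hb => ?_
      Y_mem := hY1
      Y_span := hY2 }⟩
  · obtain ⟨β, -, h1⟩ := hb
    have h2 : (dot (rv z) ∘ₗ (Bs 𝒜 Γ).subtype) b = dot (rv z) (rv β) := by
      rw [← h1]
      rfl
    rw [h2, dot_int]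
    exact ⟨_, rfl⟩
  · change 0 < dot (rv z) b.1
    have h1 : b.1 ≠ 0 := fun h => hb0 (Subtype.ext h)
    exact lt_of_lt_of_le (norm_pos_iff.2 h1) (hz _ hb)
  · -- finiteness
    have hfin : (Set.Icc (fun _ : Fin ρ => -⌈C⌉) (fun _ => ⌈C⌉)).Finite := Set.finite_Icc _ _
    refine ((hfin.image rv).preimage (f := fun b : Bs 𝒜 Γ => b.1)
      Subtype.val_injective.injOn).subset ?_
    rintro b ⟨⟨β, -, h1⟩, hb2, hb3⟩
    have h1' : b.1 = rv β := h1
    change dot (rv z) b.1 ≤ C at hb3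
    have h2 : ‖b.1‖ ≤ C := (hz _ hb2).trans hb3
    have h4 : ∀ k, |(β k : ℝ)| ≤ C := by
      intro k
      have h5 := (norm_le_pi_norm b.1 k).trans h2
      rwa [h1', rv_apply, Real.norm_eq_abs] at h5
    refine ⟨β, ⟨fun k => ?_, fun k => ?_⟩, h1'.symm⟩
    · have h5 := (abs_le.1 (h4 k)).1
      have h6 : (-(⌈C⌉ : ℝ)) ≤ β k := le_trans (neg_le_neg (Int.le_ceil C)) h5
      exact_mod_cast h6
    · have h5 := (abs_le.1 (h4 k)).2
      have h6 : (β k : ℝ) ≤ ⌈C⌉ := h5.trans (Int.le_ceil C)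
      exact_mod_cast h6
  · have hc : Continuous η := η.continuous_of_finiteDimensional
    let η' : Bs 𝒜 Γ →L[ℝ] ℝ := ⟨η, hc⟩
    refine ⟨‖η'‖, fun b hb => ?_⟩
    have h1 : ‖η' b‖ ≤ ‖η'‖ * ‖b‖ := η'.le_opNorm b
    refine h1.trans ?_
    exact mul_le_mul_of_nonneg_left (hz _ hb) (norm_nonneg η')
  · have h1 : ∃ k, b.1 k ≠ 0 := by
      by_contra hcon
      push Not at hcon
      exact hb (Subtype.ext (funext hcon))
    obtain ⟨k, hk⟩ := h1
    refine ⟨LinearMap.proj k ∘ₗ (Bs 𝒜 Γ).subtype, fun y hy => ?_, hk⟩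
    obtain ⟨β, -, h2⟩ := hy
    refine ⟨β k, ?_⟩
    have h3 : y.1 = rv β := h2
    change y.1 k = _
    rw [h3]
    rfl

end FSide

end Pool.Agent.W4h4.NR
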