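import Pool.Agent.W4h4.NR.Core

/-!
# Description of the cones of `X`
-/

set_option autoImplicit false
set_option linter.unusedSectionVars false

namespace Pool.Agent.W4h4.NR

open Finset Filter Topology
open Pool.Agent.W594.SYZ2 Pool.Agent.W594.SYZ2.TQ Pool.Agent.TH735.AQ Pool.Agent.X324.CF
open Pool.Agent.Y167 (cone cone_add cone_smul cone_le cone_mono cone_sum mem_cone_self
  zero_mem_cone cone_image cone_ind cone_of_scaled mem_cone_of_sum Rel Pol Cp CData IsFace)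
open Pool.Agent.Y167.CC (LinGrp Preserves IsFundDomain)

variable {V E R : Type*} [NormedAddCommGroup V] [NormedSpace ℂ V] [FiniteDimensional ℂ V]
  [NormedAddCommGroup E] [NormedSpace ℂ E] [FiniteDimensional ℂ E] [CommRing R] [IsDomain R]
  [Algebra ℂ R] {ρ n : ℕ}
  {𝒜 : Cl ρ → Submodule ℂ R} [GradedAlgebra 𝒜] {Γ : Grp V R} {w : Fin n → Cl ρ}
  {u : Cl ρ} {j : E →ₗ[ℂ] V} {H₀ : V → V → ℂ} {𝒮 : Set (Cl ρ)} {P : Set (N1 𝒜 Γ j)}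

/-- The classes with form zero and degree in the cone. -/
theorem i2_hullC (D : Base 𝒜 w) (hQ : IsQuotient 𝒜 u Γ) {Q : Set (N1 𝒜 Γ j)} {T : Set (Cl ρ)}
    (hT : ∀ β ∈ T, ∃ M : ℕ, 0 < M ∧ ∃ a ∈ Q, val a = (0, (M : ℝ) • rv β))
    {b : Bs 𝒜 Γ} (hb : b.1 ∈ coneHull {b | ∃ β ∈ T, b = rv β}) :
    (i2 D hQ b : N1 𝒜 Γ j) ∈ coneHull Q := by
  classical
  have h1 : ∃ a : N1 𝒜 Γ j, a ∈ coneHull Q ∧ val a = (0, b.1) := by
    refine hull_ind (p := fun b => ∃ a : N1 𝒜 Γ j, a ∈ coneHull Q ∧ val a = (0, b)) ?_ ?_ ?_ ?_ hb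
    · exact ⟨0, hull_zero, rfl⟩
    · rintro b c ⟨a, ha, h1⟩ ⟨a', ha', h2⟩
      refine ⟨a + a', hull_add ha ha', ?_⟩
      change val a + val a' = _
      rw [h1, h2, Prod.mk_add_mk, add_zero]
    · rintro t b ht ⟨a, ha, h1⟩
      refine ⟨t • a, hull_smul ht ha, ?_⟩
      change t • val a = _
      rw [h1, Prod.smul_mk, smul_zero]
    · rintro _ ⟨β, hβ, rfl⟩
      obtain ⟨M, hM, a, ha, h3⟩ := hT β hβ
      have hMr : (0 : ℝ) < M := by exact_mod_cast hM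
      refine ⟨(M : ℝ)⁻¹ • a, hull_smul (inv_nonneg.2 hMr.le) (hull_mem ha), ?_⟩
      change (M : ℝ)⁻¹ • val a = _
      rw [h3, Prod.smul_mk, smul_zero, smul_smul, inv_mul_cancel₀ hMr.ne', one_smul]
  obtain ⟨a, ha, h2⟩ := h1
  have h3 : i2 D hQ b = a := by
    apply val_ext
    rw [h2, val_i2]
  rw [h3]
  exact ha

/-- Classes with positive definite form and degree in the interior of the cone. -/
theorem interior_memC (D : Base 𝒜 w) (hQ : IsQuotient 𝒜 u Γ) (Rl : Rel (base Γ) j H₀)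
    (hP : GoodC 𝒮 u P) {a : N1 𝒜 Γ j} {t : ℝ}
    (ht : 0 < t) (h : ∀ e, t * (H₀ (j e) (j e)).re ≤ ((val a).1 e e).re)
    (hI : (val a).2 ∈ coneHull {b | ∃ β ∈ 𝒮, b = rv β}) :
    a ∈ coneHull (P ∩ effective 𝒜 Γ j) := by
  rw [← split D hQ a]
  refine hull_add ?_ ?_
  · exact i1_hull (P := P ∩ effective 𝒜 Γ j)
      (fun L hs a ha => ⟨hP.bpf L hs a ha, bpf_effective hs ha⟩) (interior_form Rl ht h)
  · refine i2_hullC D hQ (T := 𝒮) (fun β hβ => ?_) hI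
    obtain ⟨M, hM, a, haP, hae, h2⟩ := hP.deg β hβ
    exact ⟨M, hM, a, ⟨haP, hae⟩, h2⟩

theorem KX_sub_closure (D : Base 𝒜 w) (hQ : IsQuotient 𝒜 u Γ) (Rl : Rel (base Γ) j H₀)
    (hP : GoodC 𝒮 u P) : KX 𝒜 Γ j 𝒮 ⊆ closure (coneHull P) := by
  intro a ha
  obtain ⟨y, hy, hy'⟩ := Pool.Agent.Y167.exists_ample Rl
  let y₀ : N1 𝒜 Γ j := i1 y + i2 D hQ ⟨rv u, Submodule.subset_span ⟨u, hQ.inv, rfl⟩⟩
  have key : ∀ ε : ℝ, 0 < ε → a + ε • y₀ ∈ coneHull P := by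
    intro ε hε
    refine hull_le (fun b hb => hull_mem hb.1) (interior_memC D hQ Rl hP hε (fun e => ?_) ?_)
    · have h1 : (val (a + ε • y₀)).1 e e = (val a).1 e e + ε • H₀ (j e) (j e) := by
        change (val a).1 e e + ε • (y.1 e e + 0) = _
        rw [add_zero, hy']
      rw [h1, Complex.add_re, Complex.smul_re, smul_eq_mul]
      linarith [ha.1 e]
    · have h1 : (val (a + ε • y₀)).2 = (val a).2 + ε • rv u := by
        change (val a).2 + ε • ((0 : Fin ρ → ℝ) + rv u) = _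
        rw [zero_add]
      rw [h1]
      exact interior_hull hQ.inv hP ha.2 hε
  have h2 : Tendsto (fun k : ℕ => a + (1 / ((k : ℝ) + 1)) • y₀) atTop (𝓝 a) := by
    have hind : Topology.IsInducing (val : N1 𝒜 Γ j → Pairs E ρ) :=
      Topology.IsInducing.subtypeVal
    rw [hind.tendsto_nhds_iff]
    have h3 : (val : N1 𝒜 Γ j → Pairs E ρ) ∘ (fun k : ℕ => a + (1 / ((k : ℝ) + 1)) • y₀)
        = fun k : ℕ => val a + (1 / ((k : ℝ) + 1)) • val y₀ := rfl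
    rw [h3]
    have h4 : Tendsto (fun k : ℕ => (1 / ((k : ℝ) + 1)) • val y₀) atTop (𝓝 ((0 : ℝ) • val y₀)) :=
      (tendsto_one_div_add_atTop_nhds_zero_nat (𝕜 := ℝ)).smul_const _
    rw [zero_smul] at h4
    have h5 := h4.const_add (val a)
    rwa [add_zero] at h5
  exact mem_closure_of_tendsto h2 (Eventually.of_forall fun k => key _ (by positivity))

theorem closure_eqC (D : Base 𝒜 w) (hQ : IsQuotient 𝒜 u Γ) (Rl : Rel (base Γ) j H₀)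
    (hP : GoodC 𝒮 u P) : closure (coneHull P) = KX 𝒜 Γ j 𝒮 := by
  refine Set.Subset.antisymm (closure_minimal (fun x hx => ?_) KX_closed)
    (KX_sub_closure D hQ Rl hP)
  exact hull_ind (p := fun a => a ∈ KX 𝒜 Γ j 𝒮) KX_zero
    (fun _ _ h1 h2 => KX_add h1 h2) (fun _ _ ht h => KX_smul ht h) (fun a ha => hP.sub ha) hx

/-- The degree of an effective class. -/
theorem eff_deg {a : N1 𝒜 Γ j} (ha : a ∈ effCone 𝒜 Γ j) : (val a).2 ∈ effF 𝒜 Γ := by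
  refine hull_ind (p := fun a : N1 𝒜 Γ j => (val a).2 ∈ effF 𝒜 Γ) hull_zero
    (fun _ _ h1 h2 => hull_add h1 h2) (fun _ _ ht h => hull_smul ht h) ?_ ha
  rintro a ⟨𝓛, f, ⟨-, h2⟩, hf, v, hv⟩
  exact hull_mem ⟨𝓛.deg, 𝓛.inv, ⟨f v, hf.mem v, hv⟩, funext h2⟩

/-- The class with form zero and an effective degree is effective. -/
theorem eff_i2 (D : Base 𝒜 w) (hQ : IsQuotient 𝒜 u Γ) {b : Bs 𝒜 Γ} (hb : b.1 ∈ effF 𝒜 Γ) :
    (i2 D hQ b : N1 𝒜 Γ j) ∈ effCone 𝒜 Γ j := by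
  classical
  have := hQ.fin_gal
  have : Fintype (gal Γ) := Fintype.ofFinite _
  refine i2_hullC D hQ (T := {β | Inv 𝒜 Γ β ∧ ∃ r ∈ 𝒜 β, r ≠ 0}) ?_ ?_
  · rintro β ⟨hβ, r, hr, hr0⟩
    obtain ⟨a, ha1, ha2⟩ := exists_degclass (j := j) D hQ hβ 1
    refine ⟨Nat.card (gal Γ) * 1, Nat.mul_pos Nat.card_pos one_pos, a, ?_, ha2⟩
    rw [← one_smul ℕ β] at hr
    exact ⟨_, _, ha1, ofDeg_section hr, 0, nrm_ne_zero hr0⟩
  · have h1 : {b : Fin ρ → ℝ | ∃ β ∈ {β | Inv 𝒜 Γ β ∧ ∃ r ∈ 𝒜 β, r ≠ 0}, b = rv β}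
        = {b | ∃ β, Inv 𝒜 Γ β ∧ (∃ r ∈ 𝒜 β, r ≠ 0) ∧ b = rv β} := by
      ext b
      constructor
      · rintro ⟨β, ⟨h1, h2⟩, h3⟩
        exact ⟨β, h1, h2, h3⟩
      · rintro ⟨β, h1, h2, h3⟩
        exact ⟨β, ⟨h1, h2⟩, h3⟩
    rw [h1]
    exact hb

/-- The cone of the classes in the closed cone which are effective. -/
def CX (P : Set (N1 𝒜 Γ j)) : Set (N1 𝒜 Γ j) := closure (coneHull P) ∩ effCone 𝒜 Γ j

theorem CX_zero : (0 : N1 𝒜 Γ j) ∈ CX P := ⟨subset_closure hull_zero, hull_zero⟩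

theorem CX_add (D : Base 𝒜 w) (hQ : IsQuotient 𝒜 u Γ) (Rl : Rel (base Γ) j H₀)
    (hP : GoodC 𝒮 u P) {a b : N1 𝒜 Γ j} (ha : a ∈ CX P) (hb : b ∈ CX P) : a + b ∈ CX P := by
  refine ⟨?_, hull_add ha.2 hb.2⟩
  have h1 := ha.1
  have h2 := hb.1
  rw [closure_eqC D hQ Rl hP] at h1 h2 ⊢
  exact KX_add h1 h2

theorem CX_smul (D : Base 𝒜 w) (hQ : IsQuotient 𝒜 u Γ) (Rl : Rel (base Γ) j H₀)
    (hP : GoodC 𝒮 u P) {a : N1 𝒜 Γ j} {t : ℝ} (ht : 0 ≤ t) (ha : a ∈ CX P) : t • a ∈ CX P := by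
  refine ⟨?_, hull_smul ht ha.2⟩
  have h1 := ha.1
  rw [closure_eqC D hQ Rl hP] at h1 ⊢
  exact KX_smul ht h1

theorem CX_hull {a : N1 𝒜 Γ j} (ha : a ∈ coneHull (P ∩ effective 𝒜 Γ j)) : a ∈ CX P :=
  ⟨subset_closure (hull_le (fun b hb => hull_mem hb.1) ha), hull_le (fun b hb => hull_mem hb.2) ha⟩

/-- Integral nef forms. -/
theorem CX_i1 (hP : GoodC 𝒮 u P) (Rl : Rel (base Γ) j H₀) {c : Pool.Agent.Y167.N1 (base Γ) j}
    (hc : Pool.Agent.Y167.Integral c) (hn : c ∈ Pool.Agent.Y167.nefCone (base Γ) j) :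
    (i1 c : N1 𝒜 Γ j) ∈ CX P :=
  CX_hull (i1_hull (P := P ∩ effective 𝒜 Γ j)
    (fun L hs a ha => ⟨hP.bpf L hs a ha, bpf_effective hs ha⟩) (nef_form Rl hc hn))

/-- Classes with form zero. -/
theorem CX_i2 (D : Base 𝒜 w) (hQ : IsQuotient 𝒜 u Γ) (Rl : Rel (base Γ) j H₀)
    (hP : GoodC 𝒮 u P) {b : Bs 𝒜 Γ} (h1 : b.1 ∈ KF 𝒮) (h2 : b.1 ∈ effF 𝒜 Γ) :
    (i2 D hQ b : N1 𝒜 Γ j) ∈ CX P := by
  refine ⟨?_, eff_i2 D hQ h2⟩
  rw [closure_eqC D hQ Rl hP]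
  exact ⟨fun e => le_refl (0 : ℝ), h1⟩

theorem CX_deg (D : Base 𝒜 w) (hQ : IsQuotient 𝒜 u Γ) (Rl : Rel (base Γ) j H₀)
    (hP : GoodC 𝒮 u P) {a : N1 𝒜 Γ j} (ha : a ∈ CX P) :
    (val a).2 ∈ KF 𝒮 ∧ (val a).2 ∈ effF 𝒜 Γ := by
  refine ⟨?_, eff_deg ha.2⟩
  have h1 := ha.1
  rw [closure_eqC D hQ Rl hP] at h1
  exact h1.2

/-- The form of an effective class. -/
theorem form_Cp (hQ : IsQuotient 𝒜 u Γ) (Rl : Rel (base Γ) j H₀)
    (hP : GoodC 𝒮 u P) {a : N1 𝒜 Γ j} (ha : a ∈ effCone 𝒜 Γ j) :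
    (i1 (p1 hQ a) : N1 𝒜 Γ j) ∈ Cp (intL 𝒜 Γ j) (CX P) := by
  classical
  have hexp := expo_pos hQ
  have hexpr : (0 : ℝ) < expo Γ := by exact_mod_cast hexp
  refine hull_ind (p := fun a => (i1 (p1 hQ a) : N1 𝒜 Γ j) ∈
    Cp (intL 𝒜 Γ j) (CX P)) ?_ ?_ ?_ ?_ ha
  · rw [map_zero, map_zero]
    exact ⟨∅, by simp, zero_mem_cone _⟩
  · rintro a b ⟨S, hS, h1⟩ ⟨T, hT, h2⟩
    rw [map_add, map_add]
    refine ⟨S ∪ T, fun c hc => ?_, cone_add (cone_mono Finset.subset_union_left h1)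
      (cone_mono Finset.subset_union_right h2)⟩
    rcases Finset.mem_union.1 hc with h | h
    · exact hS c h
    · exact hT c h
  · rintro t a ht ⟨S, hS, h1⟩
    rw [map_smul, map_smul]
    exact ⟨S, hS, cone_smul h1 ht⟩
  · intro a ha
    have h2 : Pool.Agent.Y167.Integral ((expo Γ : ℝ) • p1 hQ a) := by
      obtain ⟨𝓛, f, hc, -⟩ := ha
      exact ⟨_, isClass_toLB hQ hc⟩
    have h3 : (expo Γ : ℝ) • p1 hQ a ∈ Pool.Agent.Y167.nefCone (base Γ) j := by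
      refine Pool.Agent.Y167.nef_smul hexpr.le ?_
      intro e
      exact effective_form hQ ha e
    refine ⟨{i1 ((expo Γ : ℝ) • p1 hQ a)}, fun c hc => ?_, ?_⟩
    · rw [Finset.mem_singleton] at hc
      rw [hc]
      exact ⟨Int.i1 h2, CX_i1 hP Rl h2 h3⟩
    · rw [map_smul]
      exact cone_of_scaled hexpr (Finset.mem_singleton_self _)

end Pool.Agent.W4h4.NR
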