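import Pool.Agent.W4h4.NR.Defs

/-!
# The cone conjecture for `F` and the automorphisms of `(A × F) / G`: definitions
-/

set_option autoImplicit false

namespace Pool.Agent.W4h4.NR

open Pool.Agent.W594.SYZ2 Pool.Agent.TH735.AQ Pool.Agent.X324.CF
open Pool.Agent.Y167 (AffGrp cone)
open Pool.Agent.Y167.CC (LinGrp Preserves)

section F

variable {ρ : ℕ} {R : Type*} [CommRing R] [Algebra ℂ R] (𝒜 : Cl ρ → Submodule ℂ R)

/-- The nef cone of `F`: the closed convex cone spanned by the semiample classes. -/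
def nefCl (u : Cl ρ) : Set (Fin ρ → ℝ) :=
  closure (coneHull {b | ∃ β : Cl ρ, SemiampleF 𝒜 u β ∧ b = vec β})

/-- The effective cone of `F`: the convex cone spanned by the classes of effective divisors. -/
def effCl : Set (Fin ρ → ℝ) := coneHull {b | ∃ β : Cl ρ, (∃ r ∈ 𝒜 β, r ≠ 0) ∧ b = vec β}

end F

section Aut

variable {V W E R : Type*} [NormedAddCommGroup V] [NormedSpace ℂ V]
  [NormedAddCommGroup W] [NormedSpace ℂ W] [NormedAddCommGroup E] [NormedSpace ℂ E]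
  [CommRing R] [Algebra ℂ R] {ρ : ℕ}

/-- The automorphism `ψ` of `R` defines an automorphism of `F` which acts on `Cl(F)` by `σ`: it maps
the piece of degree `β` onto the piece of degree `σ β`, and it preserves the set of semistable
points. -/
structure IsAutF (𝒜 : Cl ρ → Submodule ℂ R) (u : Cl ρ) (ψ : R ≃ₐ[ℂ] R) (σ : Cl ρ ≃+ Cl ρ) :
    Prop where
  induces : ∀ β r, r ∈ 𝒜 β ↔ ψ r ∈ 𝒜 (σ β)
  stable : ∀ p : R →ₐ[ℂ] ℂ, Semistable 𝒜 u p ↔ Semistable 𝒜 u (p.comp (ψ : R →ₐ[ℂ] R))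

/-- The automorphism of `V × F` given by `f` and `ψ` maps the divisors of all the sections `s i` with
`r i ≠ 0` to themselves. -/
def FixesD {𝒜 : Cl ρ → Submodule ℂ R} {Γ : Grp V R} {ι : Type*} (Δ : EffDiv 𝒜 Γ ι)
    (f : V → V) (ψ : R ≃ₐ[ℂ] R) : Prop :=
  ∀ i, Δ.r i ≠ 0 → ∃ h : V → ℂ, Differentiable ℂ h ∧ (∀ v, h v ≠ 0) ∧
    ∀ v, Δ.s i (f v) = h v • ψ (Δ.s i v)

/-- The automorphism `ψ` of `F` preserves `Δ`: it maps the restriction of each component of (the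
pullback to `A × F` of) `Δ` to each fibre `{a} × F` to itself. -/
def IsAutFD {𝒜 : Cl ρ → Submodule ℂ R} (u : Cl ρ) {Γ : Grp V R} {ι : Type*} (Δ : EffDiv 𝒜 Γ ι)
    (ψ : R ≃ₐ[ℂ] R) (σ : Cl ρ ≃+ Cl ρ) : Prop :=
  IsAutF 𝒜 u ψ σ ∧ FixesD Δ id ψ

/-- The cone conjecture for `F`, in the form of a covering: the cone of nef and effective classes of
`F` is covered by the translates of the rational polyhedral cone spanned by finitely many integral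
classes in it, under the automorphisms of `F` which preserve `Δ`. -/
def ConeConjF {𝒜 : Cl ρ → Submodule ℂ R} (u : Cl ρ) {Γ : Grp V R} {ι : Type*}
    (Δ : EffDiv 𝒜 Γ ι) : Prop :=
  ∃ T : Finset (Fin ρ → ℝ), (∀ t ∈ T, (∃ β : Cl ρ, t = vec β) ∧ t ∈ nefCl 𝒜 u ∩ effCl 𝒜) ∧
    ∀ b ∈ nefCl 𝒜 u ∩ effCl 𝒜, ∃ ψ σ, IsAutFD u Δ ψ σ ∧ ∃ t ∈ cone T, b = act σ t

/-- Only finitely many automorphisms of `F` which preserve `Δ` act trivially on `Cl(F)`. (Automorphisms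
of `R` which differ by scalars on the homogeneous pieces give the same automorphism of `F`.) -/
def FiniteKernel {𝒜 : Cl ρ → Submodule ℂ R} (u : Cl ρ) {Γ : Grp V R} {ι : Type*}
    (Δ : EffDiv 𝒜 Γ ι) : Prop :=
  ∃ N : Finset (R ≃ₐ[ℂ] R), ∀ ψ, IsAutFD u Δ ψ (AddEquiv.refl _) →
    ∃ φ ∈ N, ∀ β, ∃ c : ℂ, ∀ r ∈ 𝒜 β, ψ r = c • φ r

/-- `(f, ψ) ∘ γ = δ ∘ (f, ψ)` as transformations of `V × F`. -/
def Intertwines (𝒜 : Cl ρ → Submodule ℂ R) (f : V → V) (ψ : R ≃ₐ[ℂ] R) (γ δ : Elt V R) : Prop :=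
  (∀ v, f (γ.1 v) = δ.1 (f v)) ∧ ∀ β, ∃ c : ℂ, ∀ r ∈ 𝒜 β, ψ (γ.2 r) = c • δ.2 (ψ r)

/-- The affine transformation `f` of `V` and the automorphism `ψ` of `F`, which acts on `Cl(F)` by `σ`,
define an automorphism of `X` over `Z = W / Γ'` which preserves `Δ`: the pair `(f, ψ)` normalises the
group of transformations of `V × F` given by `Γ`, and the map induced on `Z` is the identity. -/
structure IsAutX {𝒜 : Cl ρ → Submodule ℂ R} (u : Cl ρ) {Γ : Grp V R} (Γ' : AffGrp W)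
    (π : V →ₗ[ℂ] W) {ι : Type*} (Δ : EffDiv 𝒜 Γ ι)
    (f : V ≃ᵃ[ℂ] V) (ψ : R ≃ₐ[ℂ] R) (σ : Cl ρ ≃+ Cl ρ) : Prop where
  autF : IsAutF 𝒜 u ψ σ
  left : ∀ γ ∈ Γ, ∃ δ ∈ Γ, Intertwines 𝒜 f ψ γ δ
  right : ∀ δ ∈ Γ, ∃ γ ∈ Γ, Intertwines 𝒜 f ψ γ δ
  overZ : ∃ δ ∈ Γ', ∀ v, π (f v) = δ (π v)
  fixes : FixesD Δ f ψ

/-- `𝒢` is a group of linear automorphisms of `N^1(X/Z)` which preserves the integral classes and the
cone of nef and effective classes, and which contains the pullbacks by all automorphisms `(f, ψ)` of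
`X` over `Z` which preserve `Δ`. The image of `Aut(X/Z, Δ)` has these properties. -/
structure IsAutGroupX {𝒜 : Cl ρ → Submodule ℂ R} (u : Cl ρ) {Γ : Grp V R} (Γ' : AffGrp W)
    (π : V →ₗ[ℂ] W) {j : E →ₗ[ℂ] V} {ι : Type*} (Δ : EffDiv 𝒜 Γ ι)
    (𝒢 : LinGrp (N1 𝒜 Γ j)) : Prop where
  int : Preserves 𝒢 (integral 𝒜 Γ j)
  nef_eff : Preserves 𝒢 (nefEff 𝒜 u Γ j)
  aut : ∀ f ψ σ, IsAutX u Γ' π Δ f ψ σ → ∀ g, IsPull f σ g → g ∈ 𝒢

end Aut

end Pool.Agent.W4h4.NR
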