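import Pool.Agent.W4h4.NR.Defs

/-!
# Quotients `(A × F) / G` over `(A'' × S) / G`, where `F → S` is projective and `S` affine: definitions

`F` is a variety which is projective over an affine variety `S`. It is given by the ring
`R = ⨁ H⁰(F, O_F(β))`, `β ∈ Cl(F) = ℤ^ρ`, and an ample class `u`, as in `Pool.Agent.W4h4.NR.Defs`; the
piece of degree `0` is the ring of the functions on `F`, and `S` is its spectrum. (If `F` is projective,
then `S` is a point. If `ρ = 0`, then `F = S` is an arbitrary affine variety.)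
-/

set_option autoImplicit false

namespace Pool.Agent.W4h4.NR

open Pool.Agent.W594.SYZ2 Pool.Agent.TH735.AQ Pool.Agent.X324.CF
open Pool.Agent.Y167 (AffGrp cone)
open Pool.Agent.Y167.CC (LinGrp Preserves)

variable {V W E R : Type*} [NormedAddCommGroup V] [NormedSpace ℂ V]
  [NormedAddCommGroup W] [NormedSpace ℂ W] [NormedAddCommGroup E] [NormedSpace ℂ E]
  [CommRing R] [Algebra ℂ R] {ρ : ℕ}

/-- The cone `A^e(F/S)^G = Nef(F/S)^G ∩ Eff(F/S)^G` of the invariant nef and effective classes of `F` is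
spanned by finitely many integral classes. -/
def PolyF (𝒜 : Cl ρ → Submodule ℂ R) (u : Cl ρ) (Γ : Grp V R) : Prop :=
  ∃ T : Finset (Fin ρ → ℝ), nefF 𝒜 u Γ ∩ effF 𝒜 Γ = cone T ∧
    ∀ t ∈ T, ∃ β, Inv 𝒜 Γ β ∧ t = vec β

/-- `𝒢` is a group of linear automorphisms of `N^1(X/Z)` which preserves the integral classes and the
cone of nef and effective classes, and which contains the pullbacks by all automorphisms of `X` which
preserve `Δ` and are given by an affine transformation `f` of `V` with `π ∘ f = π` and the identity of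
`F`. They are automorphisms over `Z = (W × S) / Γ`, and the image of `Aut(X/Z, Δ)` has these
properties. -/
structure IsAutGroupS {𝒜 : Cl ρ → Submodule ℂ R} (u : Cl ρ) {Γ : Grp V R}
    (π : V →ₗ[ℂ] W) {j : E →ₗ[ℂ] V} {ι : Type*} (Δ : EffDiv 𝒜 Γ ι)
    (𝒢 : LinGrp (N1 𝒜 Γ j)) : Prop where
  int : Preserves 𝒢 (integral 𝒜 Γ j)
  nef_eff : Preserves 𝒢 (nefEff 𝒜 u Γ j)
  aut : ∀ f, Normalizes Γ f → (∀ v, π (f v) = π v) → Δ.Fixed f → ∀ g, IsPullback f g → g ∈ 𝒢

end Pool.Agent.W4h4.NR
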