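import Pool.Agent.W4h4.NR.GrpF
import Pool.Agent.W4h4.NR.Core4

/-!
# The cone conjecture for `F` implies the one for `(A × F) / G`
-/

set_option autoImplicit false
set_option linter.unusedSectionVars false

namespace Pool.Agent.W4h4.NR

open Finset Filter Topology
open Pool.Agent.W594.SYZ2 Pool.Agent.W594.SYZ2.TQ Pool.Agent.TH735.AQ Pool.Agent.X324.CF
open Pool.Agent.Y167 (cone cone_add cone_smul cone_le cone_mono cone_sum mem_cone_self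
  zero_mem_cone cone_image cone_ind cone_of_scaled mem_cone_of_sum Rel Pol Cp CData IsFace AffGrp)
open Pool.Agent.Y167.CC (LinGrp Preserves IsFundDomain)

variable {V W E R : Type*} [NormedAddCommGroup V] [NormedSpace ℂ V] [FiniteDimensional ℂ V]
  [NormedAddCommGroup W] [NormedSpace ℂ W] [FiniteDimensional ℂ W]
  [NormedAddCommGroup E] [NormedSpace ℂ E] [FiniteDimensional ℂ E]
  [CommRing R] [IsDomain R] [Algebra ℂ R] {ρ : ℕ}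
  {𝒜 : Cl ρ → Submodule ℂ R} [GradedAlgebra 𝒜] {u : Cl ρ} {Γ : Grp V R} {j : E →ₗ[ℂ] V}

section Fixed

theorem induces_eq (hF : IsVariety 𝒜 u) {ψ : R ≃ₐ[ℂ] R} {σ τ : Cl ρ ≃+ Cl ρ}
    (h1 : Induces 𝒜 ψ σ) (h2 : IsAutF 𝒜 u ψ τ) : σ = τ :=
  sigma_unique hF h1 fun β r hr => (h2.induces β r).1 hr

/-- A class which is fixed by the finite group is invariant. -/
theorem inv_of_fixed (hF : IsVariety 𝒜 u) (hQ : IsQuotient 𝒜 u Γ) {β : Cl ρ}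
    (h : ∀ q ∈ QF u 𝒜 Γ, Θ 𝒜 u q (rv β) = rv β) : Inv 𝒜 Γ β := by
  intro γ hγ σ hσ
  obtain ⟨τ, hτ⟩ := aut_of_mem hF hQ hγ
  have h1 := induces_eq hF hσ hτ
  have h2 := h ⟨(γ.2, τ), hτ⟩ (mem_gal hγ)
  rw [Θ_apply, act_rv] at h2
  rw [h1]
  exact rv_inj h2

/-- The elements of the span of the invariant classes are fixed. -/
theorem fixed_of_Bs {b : Fin ρ → ℝ} (hb : b ∈ Bs 𝒜 Γ) {q : GF 𝒜 u} (hq : q ∈ QF u 𝒜 Γ) :
    Θ 𝒜 u q b = b := by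
  unfold Bs at hb
  obtain ⟨γ, hγ, hγq⟩ := hq
  have hγ' : γ.2 = q.1.1 := hγq
  induction hb using Submodule.span_induction with
  | mem b hb =>
    obtain ⟨β, hβ, rfl⟩ := hb
    rw [Θ_apply, act_rv]
    congr 1
    refine hβ γ hγ _ fun β' r hr => ?_
    rw [hγ']
    exact (q.2.induces β' r).1 hr
  | zero => rw [map_zero]
  | add a b _ _ ha hb => rw [map_add, ha, hb]
  | smul c a _ ha => rw [map_smul, ha]

variable [Fintype (QF u 𝒜 Γ)]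

theorem nm_rv (β : Cl ρ) : nm (Θ 𝒜 u) (QF u 𝒜 Γ) (rv β)
    = rv (∑ q : QF u 𝒜 Γ, q.1.1.2 β) := by
  rw [nm_apply, rv_sum]
  refine Finset.sum_congr rfl fun q _ => ?_
  rw [Θ_apply, act_rv]

theorem nm_inv (hF : IsVariety 𝒜 u) (hQ : IsQuotient 𝒜 u Γ) (β : Cl ρ) :
    Inv 𝒜 Γ (∑ q : QF u 𝒜 Γ, q.1.1.2 β) := by
  refine inv_of_fixed hF hQ fun q hq => ?_
  rw [← nm_rv]
  exact nm_fixed _ _ _ hq

theorem nm_nef (hF : IsVariety 𝒜 u) (hQ : IsQuotient 𝒜 u Γ) {b : Fin ρ → ℝ}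
    (hb : b ∈ nefCl 𝒜 u) : nm (Θ 𝒜 u) (QF u 𝒜 Γ) b ∈ KF (semiampleInv 𝒜 u Γ) := by
  have hcont : Continuous (nm (Θ 𝒜 u) (QF u 𝒜 Γ)) :=
    (nm (Θ 𝒜 u) (QF u 𝒜 Γ)).continuous_of_finiteDimensional
  refine map_mem_closure hcont hb fun a ha => ?_
  refine hull_ind (p := fun a => nm (Θ 𝒜 u) (QF u 𝒜 Γ) a ∈
    coneHull {b | ∃ β ∈ semiampleInv 𝒜 u Γ, b = rv β}) ?_ ?_ ?_ ?_ ha
  · rw [map_zero]
    exact hull_zero
  · intro a b ha hb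
    rw [map_add]
    exact hull_add ha hb
  · intro t a ht ha
    rw [map_smul]
    exact hull_smul ht ha
  · rintro _ ⟨β, hβ, rfl⟩
    have h1 : nm (Θ 𝒜 u) (QF u 𝒜 Γ) (vec β) = rv (∑ q : QF u 𝒜 Γ, q.1.1.2 β) := nm_rv β
    rw [h1]
    refine hull_mem ⟨_, ⟨nm_inv hF hQ β, ?_⟩, rfl⟩
    exact SemiampleF.sum _ _ fun q _ => Semi_act q.1.2 hβ

theorem eff_sum {κ : Type*} (s : Finset κ) (f : κ → Cl ρ) (h : ∀ k ∈ s, ∃ r ∈ 𝒜 (f k), r ≠ 0) :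
    ∃ r ∈ 𝒜 (∑ k ∈ s, f k), r ≠ 0 := by
  classical
  induction s using Finset.induction_on with
  | empty => exact ⟨1, by rw [Finset.sum_empty]; exact SetLike.one_mem_graded 𝒜, one_ne_zero⟩
  | insert k s hk ih =>
    obtain ⟨r, hr, hr0⟩ := h k (Finset.mem_insert_self _ _)
    obtain ⟨r', hr', hr0'⟩ := ih fun l hl => h l (Finset.mem_insert_of_mem hl)
    rw [Finset.sum_insert hk]
    exact ⟨r * r', SetLike.mul_mem_graded hr hr', mul_ne_zero hr0 hr0'⟩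

theorem nm_eff (hF : IsVariety 𝒜 u) (hQ : IsQuotient 𝒜 u Γ) {b : Fin ρ → ℝ}
    (hb : b ∈ effCl 𝒜) : nm (Θ 𝒜 u) (QF u 𝒜 Γ) b ∈ effF 𝒜 Γ := by
  refine hull_ind (p := fun a => nm (Θ 𝒜 u) (QF u 𝒜 Γ) a ∈ effF 𝒜 Γ) ?_ ?_ ?_ ?_ hb
  · rw [map_zero]
    exact hull_zero
  · intro a b ha hb
    rw [map_add]
    exact hull_add ha hb
  · intro t a ht ha
    rw [map_smul]
    exact hull_smul ht ha
  · rintro _ ⟨β, ⟨r, hr, hr0⟩, rfl⟩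
    have h1 : nm (Θ 𝒜 u) (QF u 𝒜 Γ) (vec β) = rv (∑ q : QF u 𝒜 Γ, q.1.1.2 β) := nm_rv β
    rw [h1]
    refine hull_mem ⟨_, nm_inv hF hQ β, ?_, rfl⟩
    refine eff_sum _ _ fun q _ => ⟨q.1.1.1 r, (q.1.2.induces _ _).1 hr, fun h => hr0 ?_⟩
    exact (map_eq_zero_iff _ q.1.1.1.injective).1 h

/-- The sum of the translates of an integral nef and effective class. -/
theorem nm_good (hF : IsVariety 𝒜 u) (hQ : IsQuotient 𝒜 u Γ) {b : Fin ρ → ℝ}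
    (hb : b ∈ intCl ρ) (hb' : b ∈ nefCl 𝒜 u ∩ effCl 𝒜) :
    (∃ β, Inv 𝒜 Γ β ∧ nm (Θ 𝒜 u) (QF u 𝒜 Γ) b = rv β) ∧
      nm (Θ 𝒜 u) (QF u 𝒜 Γ) b ∈ KF (semiampleInv 𝒜 u Γ) ∧
      nm (Θ 𝒜 u) (QF u 𝒜 Γ) b ∈ effF 𝒜 Γ := by
  obtain ⟨β, rfl⟩ := hb
  exact ⟨⟨_, nm_inv hF hQ β, nm_rv β⟩, nm_nef hF hQ hb'.1, nm_eff hF hQ hb'.2⟩

end Fixed

theorem KF_nefCl : KF (semiampleInv 𝒜 u Γ) ⊆ nefCl 𝒜 u := by
  refine closure_mono (hull_le ?_)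
  rintro _ ⟨β, hβ, rfl⟩
  exact hull_mem ⟨β, hβ.2, rfl⟩

theorem effF_effCl : effF 𝒜 Γ ⊆ effCl 𝒜 := by
  refine hull_le ?_
  rintro _ ⟨β, hβ, h, rfl⟩
  exact hull_mem ⟨β, h, rfl⟩

/-- The pullback by the identity of `A` and an automorphism of `F`. -/
theorem exists_pullD (hF : IsVariety 𝒜 u) (hQ : IsQuotient 𝒜 u Γ) (hj : Function.Injective j)
    {σ : Cl ρ ≃+ Cl ρ} (h1 : ∀ β, Inv 𝒜 Γ β → Inv 𝒜 Γ (σ β))
    (h2 : ∀ β, Inv 𝒜 Γ β → Inv 𝒜 Γ (σ.symm β)) :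
    ∃ g : N1 𝒜 Γ j ≃ₗ[ℝ] N1 𝒜 Γ j, IsPull 1 σ g := by
  let sB : Bs 𝒜 Γ ≃ₗ[ℝ] Bs 𝒜 Γ :=
    { toFun := fun b => ⟨act σ.symm b.1, act_Bs h2 b.2⟩
      map_add' := fun a b => Subtype.ext (map_add (actL σ.symm) a.1 b.1)
      map_smul' := fun c a => Subtype.ext (map_smul (actL σ.symm) c a.1)
      invFun := fun b => ⟨act σ b.1, act_Bs h1 b.2⟩
      left_inv := fun b => Subtype.ext (act_symm σ b.1)
      right_inv := fun b => Subtype.ext (act_symm' σ b.1) }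
  let G : N1 𝒜 Γ j ≃ₗ[ℝ] N1 𝒜 Γ j := ((eqv hF.base hQ).trans
    (LinearEquiv.prodCongr (LinearEquiv.refl ℝ _) sB)).trans (eqv hF.base hQ).symm
  have hG : ∀ a, G a = i1 (p1 hQ a) + i2 hF.base hQ (sB (p2 a)) := fun a => rfl
  refine ⟨G, fun a => ⟨fun v w v' w' hv hw => ?_, ?_⟩⟩
  · rw [hG]
    change (p1 hQ a).1 v w + 0 = _
    rw [add_zero]
    have hv' : j v' = j v := hv
    have hw' : j w' = j w := hw
    rw [hj hv', hj hw']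
    rfl
  · rw [hG]
    change act σ ((0 : Fin ρ → ℝ) + act σ.symm (val a).2) = _
    rw [zero_add, act_symm]

/-- An element of the centraliser of the finite group gives an automorphism of `X`. -/
theorem autX_of_comm (hF : IsVariety 𝒜 u) (hQ : IsQuotient 𝒜 u Γ) (Γ' : AffGrp W)
    (π : V →ₗ[ℂ] W) {ι : Type*} {Δ : EffDiv 𝒜 Γ ι} {z : GF 𝒜 u} (hz : z ∈ HF u Δ)
    (hc : ∀ q ∈ QF u 𝒜 Γ, ∃ s ∈ ScF 𝒜 u, z * q * z⁻¹ = q * s) :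
    IsAutX u Γ' π Δ 1 z⁻¹.1.1 z⁻¹.1.2 := by
  have key : ∀ γ ∈ Γ, Intertwines 𝒜 (1 : V ≃ᵃ[ℂ] V) z⁻¹.1.1 γ γ := by
    intro γ hγ
    refine ⟨fun v => rfl, fun β => ?_⟩
    obtain ⟨τ, hτ⟩ := aut_of_mem hF hQ hγ
    obtain ⟨s, hs, h1⟩ := hc ⟨(γ.2, τ), hτ⟩ (mem_gal hγ)
    have h2 : (⟨(γ.2, τ), hτ⟩ : GF 𝒜 u) * z⁻¹ = z⁻¹ * (⟨(γ.2, τ), hτ⟩ * s) := by
      rw [← h1]
      group
    obtain ⟨c, hc'⟩ := hs.1 β
    have hc'' : ∀ r ∈ 𝒜 β, s.1.1 r = c • r := hc'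
    have h3 : ∀ r ∈ 𝒜 β, γ.2 (z⁻¹.1.1 r) = c • z⁻¹.1.1 (γ.2 r) := by
      intro r hr
      have h4 : ((⟨(γ.2, τ), hτ⟩ : GF 𝒜 u) * z⁻¹).1.1 r
          = (z⁻¹ * ((⟨(γ.2, τ), hτ⟩ : GF 𝒜 u) * s)).1.1 r := by rw [h2]
      have h5 : γ.2 (z⁻¹.1.1 r) = z⁻¹.1.1 (γ.2 (s.1.1 r)) := h4
      rw [h5, hc'' r hr, map_smul, map_smul]
    refine ⟨c⁻¹, fun r hr => ?_⟩
    by_cases h0 : c = 0
    · have h4 := h3 r hr
      rw [h0, zero_smul] at h4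
      have h5 := (map_eq_zero_iff _ γ.2.injective).1 h4
      have h6 := (map_eq_zero_iff _ z⁻¹.1.1.injective).1 h5
      rw [h6]
      simp
    · rw [h3 r hr, smul_smul, inv_mul_cancel₀ h0, one_smul]
  exact
    { autF := z⁻¹.2
      left := fun γ hγ => ⟨γ, hγ, key γ hγ⟩
      right := fun γ hγ => ⟨γ, hγ, key γ hγ⟩
      overZ := ⟨1, Γ'.one_mem, fun v => rfl⟩
      fixes := fun i hi => (HF u Δ).inv_mem hz i hi }

theorem inv_of_comm (hF : IsVariety 𝒜 u) (hQ : IsQuotient 𝒜 u Γ) {z : GF 𝒜 u}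
    (hc : ∀ q ∈ QF u 𝒜 Γ, ∃ s ∈ ScF 𝒜 u, z * q * z⁻¹ = q * s) {β : Cl ρ} (hβ : Inv 𝒜 Γ β) :
    Inv 𝒜 Γ (z⁻¹.1.2 β) ∧ Inv 𝒜 Γ (z⁻¹.1.2.symm β) := by
  have key : ∀ γ ∈ Γ, ∀ τ, IsAutF 𝒜 u γ.2 τ → ∀ x, z.1.2 (τ x) = τ (z.1.2 x) := by
    intro γ hγ τ hτ x
    obtain ⟨s, hs, h1⟩ := hc ⟨(γ.2, τ), hτ⟩ (mem_gal hγ)
    have h2 : z * (⟨(γ.2, τ), hτ⟩ : GF 𝒜 u) = (⟨(γ.2, τ), hτ⟩ * s) * z := by
      rw [← h1]
      group
    have h4 : (z * (⟨(γ.2, τ), hτ⟩ : GF 𝒜 u)).1.2 x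
        = (((⟨(γ.2, τ), hτ⟩ : GF 𝒜 u) * s) * z).1.2 x := by rw [h2]
    have h5 : z.1.2 (τ x) = τ (s.1.2 (z.1.2 x)) := h4
    have h6 : s.1.2 = 1 := hs.2
    rw [h5, h6]
    rfl
  constructor
  · intro γ hγ τ hτ
    obtain ⟨τ', hτ'⟩ := aut_of_mem hF hQ hγ
    have h1 := induces_eq hF hτ hτ'
    subst h1
    have h2 := key γ hγ τ hτ' (z.1.2.symm β)
    have h3 : z.1.2 (z.1.2.symm β) = β := z.1.2.apply_symm_apply β
    rw [h3, hβ γ hγ τ hτ] at h2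
    change τ (z.1.2.symm β) = z.1.2.symm β
    have h4 : z.1.2.symm (z.1.2 (τ (z.1.2.symm β))) = z.1.2.symm β := by rw [h2]
    rwa [z.1.2.symm_apply_apply] at h4
  · intro γ hγ τ hτ
    obtain ⟨τ', hτ'⟩ := aut_of_mem hF hQ hγ
    have h1 := induces_eq hF hτ hτ'
    subst h1
    have h2 := key γ hγ τ hτ' β
    rw [hβ γ hγ τ hτ] at h2
    exact h2.symm

theorem fibre (hF : IsVariety 𝒜 u) (hX : IsQuotient 𝒜 u Γ)
    (hproj : ∃ (L : Sheaf 𝒜 Γ) (H : V → V → ℂ), L.IsChern H ∧ IsPositiveForm H)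
    (Γ' : AffGrp W) (π : V →ₗ[ℂ] W) (hπ : IsFibration (base Γ) Γ' π)
    (hj : Function.Injective j) (hjr : LinearMap.range j = LinearMap.ker π)
    {ι : Type*} [Fintype ι] (Δ : EffDiv 𝒜 Γ ι) (hΔ : NumTrivial Δ j)
    (hk : FiniteKernel u Δ) (hc : ConeConjF u Δ)
    (𝒢 : LinGrp (N1 𝒜 Γ j)) (h𝒢 : IsAutGroupX u Γ' π Δ 𝒢) : HasDomain u 𝒢 := by
  classical
  obtain ⟨H₀, Rl⟩ := rel_emb hX hproj hπ hj hjr
  have hG := good_nefC (j := j) hF hX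
  obtain ⟨ξ, Y, D⟩ := cdata1 hF
  obtain ⟨T₀, hT₀, hcov₀⟩ := hc
  have : Finite (QF u 𝒜 Γ) := QF_finite hF hX
  have : Fintype (QF u 𝒜 Γ) := Fintype.ofFinite _
  have hint0 : ∀ x : Fin ρ → ℝ, (∃ t : ℝ, 0 < t ∧ x - t • rv u ∈ nefCl 𝒜 u ∩ effCl 𝒜) →
      x ∈ nefCl 𝒜 u ∩ effCl 𝒜 := by
    rintro x ⟨t, ht, hx⟩
    have h1 := D.add _ hx _ (D.smul t ht.le _ D.y_N)
    rwa [sub_add_cancel] at h1
  obtain ⟨T, hT1, hT2, hT3⟩ := descent D (Θ 𝒜 u) (fun g x hx => Θ_int g hx)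
    (fun g x hx => ⟨Θ_nef g hx.1, Θ_eff g hx.2⟩) (HF u Δ) (QF u 𝒜 Γ) (ScF 𝒜 u)
    (fun q hq h hh => QF_conj q h hq hh)
    (fun s hs => by
      ext1 b
      have h4 : s.1.2 = 1 := hs.2
      rw [Θ_apply, h4]
      exact act_refl b)
    (fun g s hs => ScF_conj g s hs) (ker_finite hk) T₀
    (fun a ha => ⟨by
      obtain ⟨⟨β, h1⟩, -⟩ := hT₀ a ha
      exact ⟨β, h1⟩, (hT₀ a ha).2⟩)
    (fun x hx => by
      obtain ⟨ψ, σ, hA, t, ht, hxt⟩ := hcov₀ x (hint0 x hx)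
      refine ⟨(⟨(ψ, σ), hA.1⟩ : GF 𝒜 u)⁻¹, (HF u Δ).inv_mem hA.2, ?_⟩
      rw [Θ_apply]
      change act σ.symm x ∈ _
      rw [hxt, act_symm']
      exact ht)
  obtain ⟨S, h1, h2, h3, -⟩ := coreD hF.base hX Rl hG Δ hΔ 𝒢 h𝒢.int h𝒢.nef_eff
    (fun f hf hf2 hf3 g hg => h𝒢.aut f 1 (AddEquiv.refl _)
      { autF := IsAutF.one
        left := fun γ hγ => ⟨_, (hf γ).1 hγ, fun v => by
          change f (γ.1 v) = f (γ.1 (f.symm (f v)))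
          rw [f.symm_apply_apply], fun β => ⟨1, fun r _ => by
          rw [one_smul]
          rfl⟩⟩
        right := fun δ hδ => by
          have h0 : (f, (1 : R ≃ₐ[ℂ] R)) * ((f, 1)⁻¹ * δ * (f, 1)) * (f, 1)⁻¹ = δ := by group
          refine ⟨(f, 1)⁻¹ * δ * (f, 1), (hf _).2 (by rw [h0]; exact hδ), fun v => ?_,
            fun β => ⟨1, fun r _ => ?_⟩⟩
          · change f (f.symm (δ.1 (f v))) = δ.1 (f v)
            rw [f.apply_symm_apply]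
          · rw [one_smul]
            rfl
        overZ := ⟨1, Γ'.one_mem, fun v => by
          obtain ⟨e, he⟩ := hf2 v
          have h5 : π (j e) = 0 := by
            have h6 : j e ∈ LinearMap.ker π := hjr ▸ LinearMap.mem_range_self j e
            exact h6
          rw [he, map_add, h5, add_zero]
          rfl⟩
        fixes := fun i hi => hf3 i hi } g
      (fun x => ⟨(hg x).1, by rw [act_refl]; exact (hg x).2⟩))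
    T
    (fun t ht => by
      obtain ⟨b, hb1, hb2, rfl⟩ := hT2 t ht
      exact nm_good hF hX hb1 hb2)
    (fun b hb => by
      obtain ⟨t, ht, hb⟩ := hb
      have hbB : b ∈ Bs 𝒜 Γ := by
        have h4 := (Bs 𝒜 Γ).add_mem (KF_sub hG hb) ((Bs 𝒜 Γ).smul_mem t
          (Submodule.subset_span ⟨u, hX.inv, rfl⟩ : rv u ∈ Bs 𝒜 Γ))
        rwa [sub_add_cancel] at h4
      have ht2 : 0 < t / 2 := by linarith
      obtain ⟨z, hz, hcomm, hzb⟩ := hT3 b ⟨t / 2, ht2, by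
        have h4 := interior0 hF (KF_nefCl hb) ht2
        have h5 : b - t • rv u + (t / 2) • rv u = b - (t / 2) • rv u := by
          module
        rw [h5] at h4
        exact ⟨subset_closure h4, semi_eff hF h4⟩⟩ (fun q hq => fixed_of_Bs hbB hq)
      obtain ⟨g, hg⟩ := exists_pullD (j := j) hF hX hj
        (σ := z⁻¹.1.2) (fun β hβ => (inv_of_comm hF hX hcomm hβ).1)
        (fun β hβ => (inv_of_comm hF hX hcomm hβ).2)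
      refine ⟨g, h𝒢.aut 1 _ _ (autX_of_comm hF hX Γ' π hz hcomm) g hg, fun a ha => ?_⟩
      have h5 := congrArg (act z⁻¹.1.2.symm) (hg a).2
      rw [act_symm', ha] at h5
      rw [h5]
      exact hzb)
    (fun b hb1 hb2 => by
      obtain ⟨ψ, σ, hA, t, ht, hbt⟩ := hcov₀ b ⟨KF_nefCl hb1, effF_effCl hb2⟩
      have hbB : b ∈ Bs 𝒜 Γ := KF_sub hG hb1
      have h4 : b ∈ cone (T₀.image (actL σ)) := by
        rw [hbt, ← actL_apply]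
        exact cone_image (actL σ) ht
      refine ⟨_, fixed_mem_cone (Θ 𝒜 u) (QF u 𝒜 Γ) (fun q hq => fixed_of_Bs hbB hq) h4, ?_⟩
      intro c hc
      obtain ⟨c', hc', rfl⟩ := Finset.mem_image.1 hc
      obtain ⟨c'', hc'', rfl⟩ := Finset.mem_image.1 hc'
      obtain ⟨⟨β, h5⟩, h6⟩ := hT₀ c'' hc''
      have h7 : (actL σ c'' : Fin ρ → ℝ) = Θ 𝒜 u ⟨(ψ, σ), hA.1⟩ c'' := rfl
      rw [h7]
      exact nm_good hF hX (Θ_int _ ⟨β, h5⟩) ⟨Θ_nef _ h6.1, Θ_eff _ h6.2⟩)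
  exact ⟨S, h1, h2, h3⟩

end Pool.Agent.W4h4.NR
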