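import Pool.Agent.W4h4.NR.Pull

/-!
# The equivalence
-/

set_option autoImplicit false
set_option linter.unusedSectionVars false

namespace Pool.Agent.W4h4.NR

open Pool.Agent.W594.SYZ2 Pool.Agent.TH735.AQ Pool.Agent.X324.CF
open Pool.Agent.Y167 (AffGrp cone)
open Pool.Agent.Y167.CC (LinGrp Preserves IsFundDomain)

section Poly

variable {V W E R : Type*} [NormedAddCommGroup V] [NormedSpace ℂ V]
  [NormedAddCommGroup W] [NormedSpace ℂ W] [NormedAddCommGroup E] [NormedSpace ℂ E]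
  [CommRing R] [Algebra ℂ R] {ρ : ℕ}

/-- The covering property holds if the cone `A^e(F)^G` itself is rational polyhedral. -/
theorem covered_of_polyhedral {𝒜 : Cl ρ → Submodule ℂ R} {u : Cl ρ} {Γ : Grp V R} {Γ' : AffGrp W}
    {π : V →ₗ[ℂ] W} {ι : Type*} {Δ : EffDiv 𝒜 Γ ι} (T : Finset (Fin ρ → ℝ))
    (hT : ∀ t ∈ T, (∃ β, Inv 𝒜 Γ β ∧ t = rv β) ∧ t ∈ nefF 𝒜 u Γ ∩ effF 𝒜 Γ)
    (h : nefF 𝒜 u Γ ∩ effF 𝒜 Γ ⊆ cone T) : Covered u Γ' π Δ := by
  refine ⟨T, hT, fun b hb => ⟨1, 1, AddEquiv.refl _, ?_, b, h hb, (act_refl b).symm⟩⟩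
  exact
    { pseudo :=
        { normalizes := fun γ => by
            have h1 : ((1 : V ≃ᵃ[ℂ] V), (1 : R ≃ₐ[ℂ] R)) = (1 : Elt V R) := rfl
            rw [h1, one_mul, inv_one, mul_one]
          overZ := ⟨1, Γ'.one_mem, fun v => rfl⟩
          induces := fun β r => Iff.rfl }
      stable := fun p => Iff.rfl
      fixes := fun i _ => ⟨fun _ => 1, differentiable_const _, fun _ => one_ne_zero, fun v => by
        rw [one_smul]
        rfl⟩ }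

end Poly

theorem reduction {V W E R : Type*} [NormedAddCommGroup V] [NormedSpace ℂ V] [FiniteDimensional ℂ V]
    [NormedAddCommGroup W] [NormedSpace ℂ W] [FiniteDimensional ℂ W]
    [NormedAddCommGroup E] [NormedSpace ℂ E] [FiniteDimensional ℂ E]
    [CommRing R] [IsDomain R] [Algebra ℂ R] {ρ : ℕ}
    (𝒜 : Cl ρ → Submodule ℂ R) [GradedAlgebra 𝒜] (u : Cl ρ) (hF : IsVariety 𝒜 u)
    (Γ : Grp V R) (hX : IsQuotient 𝒜 u Γ)
    (hproj : ∃ (L : Sheaf 𝒜 Γ) (H : V → V → ℂ), L.IsChern H ∧ IsPositiveForm H)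
    (Γ' : AffGrp W) (π : V →ₗ[ℂ] W) (hπ : IsFibration (base Γ) Γ' π)
    (j : E →ₗ[ℂ] V) (hj : Function.Injective j) (hjr : LinearMap.range j = LinearMap.ker π)
    {ι : Type*} [Fintype ι] (Δ : EffDiv 𝒜 Γ ι) (hΔ : NumTrivial Δ j) :
    (∀ 𝒢 : LinGrp (N1 𝒜 Γ j), IsAutGroup u Γ' π Δ 𝒢 → Covered u Γ' π Δ → HasDomain u 𝒢) ∧
    (∀ 𝒢 : LinGrp (N1 𝒜 Γ j), IsAutGroup u Γ' π Δ 𝒢 →
      (∀ g ∈ 𝒢, ∃ f ψ σ, IsAut u Γ' π Δ f ψ σ ∧ IsPull f σ g) →
      HasDomain u 𝒢 → Covered u Γ' π Δ) := by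
  classical
  obtain ⟨H₀, Rl⟩ := rel_emb hX hproj hπ hj hjr
  have hG := good_nefC (j := j) hF hX
  constructor
  · rintro 𝒢 h𝒢 ⟨T, hT, hTc⟩
    obtain ⟨S, h1, h2, h3, -⟩ := coreC hF.base hX Rl hG Δ hΔ 𝒢 h𝒢.int h𝒢.nef_eff
      (fun f hf hf2 hf3 g hg => h𝒢.aut f 1 (AddEquiv.refl _)
        { pseudo :=
            { normalizes := hf
              overZ := ⟨1, Γ'.one_mem, fun v => by
                obtain ⟨e, he⟩ := hf2 v
                have h5 : π (j e) = 0 := by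
                  have h6 : j e ∈ LinearMap.ker π := hjr ▸ LinearMap.mem_range_self j e
                  exact h6
                rw [he, map_add, h5, add_zero]
                rfl⟩
              induces := fun β r => Iff.rfl }
          stable := fun p => Iff.rfl
          fixes := fun i hi => hf3 i hi } g
        (fun x => ⟨(hg x).1, by rw [act_refl]; exact (hg x).2⟩))
      T (fun t ht => ⟨(hT t ht).1, (hT t ht).2.1, (hT t ht).2.2⟩)
      (fun b hb1 hb2 => by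
        obtain ⟨f, ψ, σ, hA, t, ht, hbt⟩ := hTc b ⟨hb1, hb2⟩
        obtain ⟨g, hg⟩ := exists_pullC (j := j) hF.base hX hj hjr hA.pseudo
        refine ⟨g, h𝒢.aut f ψ σ hA g hg, fun a ha => ?_⟩
        have h5 := congrArg (act σ.symm) (hg a).2
        rw [act_symm', ha, hbt, act_symm'] at h5
        rw [h5]
        exact ht)
    exact ⟨S, h1, h2, h3⟩
  · rintro 𝒢 h𝒢 hex ⟨S, h1, h2, h3⟩
    have hS : ∀ s ∈ S, s ∈ CX (semiample 𝒜 Γ j u) := fun s hs =>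
      h2 (Pool.Agent.Y167.mem_cone_self hs)
    refine ⟨S.image fun s => (val s).2, ?_, ?_⟩
    · intro t ht
      obtain ⟨s, hs, rfl⟩ := Finset.mem_image.1 ht
      obtain ⟨β, hβ, h4⟩ := Int.p2 (h1 hs)
      exact ⟨⟨β, hβ, h4⟩, CX_deg hF.base hX Rl hG (hS s hs)⟩
    · rintro b ⟨hb1, hb2⟩
      have hbB : b ∈ Bs 𝒜 Γ := KF_sub hG hb1
      have h4 : (i2 hF.base hX ⟨b, hbB⟩ : N1 𝒜 Γ j) ∈ CX (semiample 𝒜 Γ j u) :=
        CX_i2 hF.base hX Rl hG hb1 hb2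
      have h5 : (i2 hF.base hX ⟨b, hbB⟩ : N1 𝒜 Γ j) ∈ nefEff 𝒜 u Γ j := h4
      rw [h3.1] at h5
      simp only [Set.mem_iUnion, Set.mem_image, exists_prop] at h5
      obtain ⟨g, hg, s, hs, hgs⟩ := h5
      obtain ⟨f, ψ, σ, hA, hp⟩ := hex g⁻¹ (𝒢.inv_mem hg)
      refine ⟨f, ψ, σ, hA, (val s).2, ?_, ?_⟩
      · have h6 := Pool.Agent.Y167.cone_image
          ((Bs 𝒜 Γ).subtype ∘ₗ (p2 : N1 𝒜 Γ j →ₗ[ℝ] Bs 𝒜 Γ)) hs
        exact h6
      · have h7 := (hp (i2 hF.base hX ⟨b, hbB⟩)).2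
        have h8 : g⁻¹ (i2 hF.base hX ⟨b, hbB⟩ : N1 𝒜 Γ j) = s := by
          rw [← hgs]
          exact g.symm_apply_apply s
        rw [h8] at h7
        exact h7.symm

end Pool.Agent.W4h4.NR
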