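import Pool.Agent.W4h4.NR.GrpF
import Pool.Agent.W5h11.CQ.Two

/-!
# The cone conjecture for `F` of Picard number two with infinitely many automorphisms
-/

set_option autoImplicit false
set_option linter.unusedSectionVars false

namespace Pool.Agent.W4h4.NR

open Finset Filter Topology
open Pool.Agent.W594.SYZ2 Pool.Agent.W594.SYZ2.TQ Pool.Agent.TH735.AQ Pool.Agent.X324.CF
open Pool.Agent.Y167 (cone cone_add cone_smul cone_le cone_mono cone_sum mem_cone_self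
  zero_mem_cone cone_image cone_ind cone_of_scaled mem_cone_of_sum Rel Pol Cp CData IsFace AffGrp)
open Pool.Agent.W5h11.CQ (TwoForms two_forms two_square two_hyp two_cover two_eff two_int)

variable {V R : Type*} [NormedAddCommGroup V] [NormedSpace ℂ V] [FiniteDimensional ℂ V]
  [CommRing R] [IsDomain R] [Algebra ℂ R]
  {𝒜 : Cl 2 → Submodule ℂ R} [GradedAlgebra 𝒜] {u : Cl 2} {Γ : Grp V R}

theorem two_hspan {L : AddSubgroup (Fin 2 → ℝ)} {K : Set (Fin 2 → ℝ)}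
    {ξ : (Fin 2 → ℝ) →ₗ[ℝ] ℝ} {Y : Finset (Fin 2 → ℝ)} {y : Fin 2 → ℝ} (D : CData L K ξ y Y) :
    ∃ z₀ : Fin 2 → ℝ, (∀ x, ∃ s t : ℝ, x = s • y + t • z₀) ∧ ∀ s : ℝ, z₀ ≠ s • y := by
  have hn : y 0 ^ 2 + y 1 ^ 2 ≠ 0 := by
    intro h
    have h0 : y 0 = 0 := by nlinarith [sq_nonneg (y 0), sq_nonneg (y 1)]
    have h1 : y 1 = 0 := by nlinarith [sq_nonneg (y 0), sq_nonneg (y 1)]
    have hy : y = 0 := by
      funext i
      fin_cases i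
      · exact h0
      · exact h1
    have hx : (fun _ => 1 : Fin 2 → ℝ) ≠ 0 := fun h => one_ne_zero (congrFun h 0)
    obtain ⟨C, -, h2⟩ := D.y_int (fun _ => 1)
    obtain ⟨C', -, h3⟩ := D.y_int (-(fun _ => 1))
    rw [hy, smul_zero, zero_sub] at h2 h3
    rw [neg_neg] at h3
    have h4 := D.xi_pos _ h2 (neg_ne_zero.2 hx)
    have h5 := D.xi_pos _ h3 hx
    rw [map_neg] at h4
    linarith
  refine ⟨![-y 1, y 0], fun x => ?_, fun s hs => ?_⟩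
  · refine ⟨(x 0 * y 0 + x 1 * y 1) / (y 0 ^ 2 + y 1 ^ 2),
      (x 1 * y 0 - x 0 * y 1) / (y 0 ^ 2 + y 1 ^ 2), ?_⟩
    funext i
    fin_cases i
    · simp
      field_simp
      ring
    · simp
      field_simp
      ring
  · have h0 : -y 1 = s * y 0 := by simpa using congrFun hs 0
    have h1 : y 0 = s * y 1 := by simpa using congrFun hs 1
    apply hn
    have h2 : y 0 ^ 2 = s * y 1 * y 0 := by rw [← h1]; ring
    have h3 : y 1 ^ 2 = -(s * y 0 * y 1) := by rw [← h0]; ring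
    rw [h2, h3]
    ring

theorem two_pts {L : AddSubgroup (Fin 2 → ℝ)} {K : Set (Fin 2 → ℝ)}
    {ξ : (Fin 2 → ℝ) →ₗ[ℝ] ℝ} {Y : Finset (Fin 2 → ℝ)} {y : Fin 2 → ℝ} (D : CData L K ξ y Y)
    {a b : (Fin 2 → ℝ) →ₗ[ℝ] ℝ} {v₁ v₂ : Fin 2 → ℝ} (TF : TwoForms K a b v₁ v₂)
    {h : (Fin 2 → ℝ) ≃ₗ[ℝ] (Fin 2 → ℝ)} (hL : ∀ x ∈ L, h x ∈ L) (hL' : ∀ x ∈ L, h.symm x ∈ L)
    {l m : ℝ} (hm : 0 < m) (h1 : 1 < l) (h2 : m < 1) (ha : ∀ x, a (h x) = l * a x)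
    (hb : ∀ x, b (h x) = m * b x) {P : Set (Fin 2 → ℝ)} (hPL : P ⊆ L)
    (hP : ∀ e ∈ P, ∀ n : ℤ, 0 ≤ ξ ((h ^ n) e)) {x : Fin 2 → ℝ} (hx : x ∈ coneHull P) :
    ∃ n : ℤ, (h ^ n) x ∈ cone {y, h y} := by
  classical
  obtain ⟨hya, hyb⟩ := two_int D TF
  have h3 : x = 0 ∨ (0 < a x ∧ 0 < b x) := by
    refine hull_ind (p := fun x => x = 0 ∨ (0 < a x ∧ 0 < b x)) (Or.inl rfl) ?_ ?_ ?_ hx
    · rintro x z (rfl | ⟨h3, h4⟩) (rfl | ⟨h5, h6⟩)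
      · exact Or.inl (add_zero 0)
      · rw [zero_add]
        exact Or.inr ⟨h5, h6⟩
      · rw [add_zero]
        exact Or.inr ⟨h3, h4⟩
      · rw [map_add, map_add]
        exact Or.inr ⟨add_pos h3 h5, add_pos h4 h6⟩
    · rintro t x ht (rfl | ⟨h3, h4⟩)
      · exact Or.inl (smul_zero t)
      · rcases ht.eq_or_lt with rfl | ht
        · exact Or.inl (zero_smul _ _)
        · rw [map_smul, map_smul]
          exact Or.inr ⟨mul_pos ht h3, mul_pos ht h4⟩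
    · intro e he
      exact two_eff D TF hL hL' hm h1 h2 ha hb (hPL he) (hP e he)
  rcases h3 with rfl | ⟨h3, h4⟩
  · exact ⟨0, by rw [map_zero]; exact zero_mem_cone _⟩
  · exact two_cover TF hya hyb hm h1 h2 ha hb h3 h4

theorem cone_two (hF : IsVariety 𝒜 u) {ι : Type*} {Δ : EffDiv 𝒜 Γ ι}
    (h : ∃ ψ σ β, IsAutFD u Δ ψ σ ∧ σ (σ β) ≠ β) : ConeConjF u Δ := by
  classical
  obtain ⟨ψ, σ, β, hA, hne⟩ := h
  obtain ⟨ξ, Y, D, hξ⟩ := cdata0 hF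
  obtain ⟨z₀, hspan, hz⟩ := two_hspan D
  obtain ⟨a, b, v₁, v₂, TF⟩ := two_forms D hspan hz (fun p q =>
    (isClosed_closure (s := coneHull (semi 𝒜 u))).preimage (by fun_prop :
      Continuous fun t : ℝ => p + t • q))
  let g₀ : GF 𝒜 u := ⟨(ψ, σ), hA.1⟩
  have hg₀ : g₀ ∈ HF u Δ := hA.2
  have hsymm : ∀ (k : GF 𝒜 u) (x : Fin 2 → ℝ), (Θ 𝒜 u k).symm x = Θ 𝒜 u k⁻¹ x := by
    intro k x
    rw [map_inv]
    rfl
  obtain ⟨l, m, hl, hm, ha, hb⟩ := two_square TF (g := Θ 𝒜 u g₀) (fun x hx => Θ_nef g₀ hx)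
    (fun x hx => by rw [hsymm]; exact Θ_nef _ hx)
  set k : GF 𝒜 u := g₀ * g₀ with hk
  set h := Θ 𝒜 u k with hh
  have hh' : ∀ x, h x = Θ 𝒜 u g₀ (Θ 𝒜 u g₀ x) := by
    intro x
    rw [hh, hk, map_mul]
    rfl
  have hh1 : h ≠ 1 := by
    intro h1
    apply hne
    apply rv_inj
    rw [← act_rv, ← act_rv]
    have h2 := hh' (rv β)
    rw [h1] at h2
    exact h2.symm
  have hkH : k ∈ HF u Δ := (HF u Δ).mul_mem hg₀ hg₀
  have hL : ∀ x ∈ intCl 2, h x ∈ intCl 2 := fun x hx => Θ_int k hx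
  have hL' : ∀ x ∈ intCl 2, h.symm x ∈ intCl 2 := fun x hx => by
    rw [hh, hsymm]
    exact Θ_int _ hx
  have hPL : {b : Fin 2 → ℝ | ∃ β : Cl 2, (∃ r ∈ 𝒜 β, r ≠ 0) ∧ b = vec β} ⊆ (intCl 2 : Set _) := by
    rintro _ ⟨β, -, rfl⟩
    exact ⟨β, rfl⟩
  have hpow : ∀ n : ℤ, h ^ n = Θ 𝒜 u (k ^ n) := fun n => by rw [hh, map_zpow]
  have hP : ∀ e ∈ {b : Fin 2 → ℝ | ∃ β : Cl 2, (∃ r ∈ 𝒜 β, r ≠ 0) ∧ b = vec β}, ∀ n : ℤ,
      0 ≤ ξ ((h ^ n) e) := by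
    intro e he n
    refine hξ _ ?_
    rw [hpow]
    exact subset_closure (Θ_eff (k ^ n) (hull_mem he))
  have ha' : ∀ x, a (h x) = l * a x := fun x => by rw [hh']; exact ha x
  have hb' : ∀ x, b (h x) = m * b x := fun x => by rw [hh']; exact hb x
  have hcov : ∀ x ∈ effCl 𝒜, ∃ n : ℤ, (h ^ n) x ∈ cone {rv u, h (rv u)} := by
    intro x hx
    rcases two_hyp D TF hL hL' hl hm ha' hb' hh1 with ⟨h1, h2⟩ | ⟨h1, h2⟩
    · exact two_pts D TF hL hL' hm h1 h2 ha' hb' hPL hP hx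
    · exact two_pts D TF.swap hL hL' hl h2 h1 hb' ha' hPL hP hx
  have hu : rv u ∈ nefCl 𝒜 u ∩ effCl 𝒜 := ⟨subset_closure (semi_u hF), semi_eff hF (semi_u hF)⟩
  refine ⟨{rv u, h (rv u)}, fun t ht => ?_, fun x hx => ?_⟩
  · rw [Finset.mem_insert, Finset.mem_singleton] at ht
    rcases ht with rfl | rfl
    · exact ⟨⟨u, rfl⟩, hu⟩
    · exact ⟨hL _ ⟨u, rfl⟩, Θ_nef k hu.1, Θ_eff k hu.2⟩
  · obtain ⟨n, hn⟩ := hcov x hx.2
    have hmem : (k ^ n)⁻¹ ∈ HF u Δ := (HF u Δ).inv_mem ((HF u Δ).zpow_mem hkH n)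
    refine ⟨(k ^ n)⁻¹.1.1, (k ^ n)⁻¹.1.2, ⟨(k ^ n)⁻¹.2, hmem⟩, (h ^ n) x, hn, ?_⟩
    have h1 : x = Θ 𝒜 u (k ^ n)⁻¹ (Θ 𝒜 u (k ^ n) x) := by
      change _ = (Θ 𝒜 u (k ^ n)⁻¹ * Θ 𝒜 u (k ^ n)) x
      rw [← map_mul, inv_mul_cancel, map_one]
      rfl
    rw [hpow]
    exact h1

end Pool.Agent.W4h4.NR
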