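import Pool.Agent.W4h4.NR.FibMain
import Pool.Agent.W4h4.NR.RankTwo

set_option autoImplicit false

/-!
# The nef cone conjecture for `F` implies the one for all quotients `(A × F) / G`

`A = V / Λ` is an abelian variety and `F` an **arbitrary** normal projective `ℚ`-factorial variety with
free class group (for instance a K3 surface, a Calabi-Yau manifold, a hyperkähler manifold, a rational
surface, a product of such varieties). Let `X = (A × F) / G`, where a finite group `G` acts diagonally;
the action may have fixed points and fixed divisors. Let `X → Z` be a fibration given by a linear map
`π : V → W`, where `Z = W / Γ'` is a quotient of an abelian variety (or a point), and let `Δ` be an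
effective divisor on `X` with real coefficients such that `K_X + Δ` is numerically trivial over `Z` (only
the curves of `X` which come from curves `C × {point}` in `A × F` are needed).

We show that the Morrison-Kawamata cone conjecture for the nef cone of `F` **itself** (without the group
`G`) implies the cone conjecture for the nef cone of `(X/Z, Δ)`: if `A^e(F) = Nef(F) ∩ Eff(F)` is covered
by the translates of a rational polyhedral cone under the automorphisms of `F` which preserve (the
restrictions to the fibres of) `Δ`, and if only finitely many of them act trivially on `Cl(F)`, then
`Aut(X/Z, Δ)` acts on the cone `A^e(X/Z)` of nef and effective classes with a rational polyhedral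
fundamental domain. By the decomposition theorem of Beauville and Bogomolov every smooth projective
variety with numerically trivial canonical divisor is such a quotient, with `F` smooth, simply
connected and `K_F` trivial. So the nef cone conjecture for all of them is reduced to simply connected
ones, and it holds if it is known for `F`: for example if `F` is a K3 surface or a hyperkähler manifold.
For `V = 0` the theorem says that the cone conjecture for `F` implies the one for `F / G`, for any finite
group `G`. We also prove the conjecture for `F`, and so the one for `X`, if `Cl(F)` has rank two and some
automorphism of `F` which preserves `Δ` acts on `Cl(F)` by a map whose square is not the identity.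

The condition on the automorphisms which act trivially on `Cl(F)` holds for all log Calabi-Yau pairs
with klt singularities: these automorphisms fix an ample class, so they form an algebraic group, whose
identity component is trivial (it contains no additive and no multiplicative group since the pairs
given by `Δ` on the general fibres are klt with numerically trivial log canonical divisor, and it is no
abelian variety since `Cl(F)` is free).

(This file was the hand-in `FromFibre`; it is the case that `S` is a point and `m = 1` of the hand-in
`RelativeDescent` and is kept here as a library file.) The hand-in `ReductionToFibre` reduces the conjecture for `X` to the `G`-equivariant conjecture for `F`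
(that is, for `A^e(F)^G` and the automorphisms of `F` which are compatible with the action of `G`). The
point here is that the equivariant conjecture follows from the one for `F`.

Proof. Let `H` be the group of the automorphisms of `F` which preserve `Δ`; it is normalised by `G`.
Dickson's lemma gives a rational polyhedral cone `D` in `A^e(F)` whose translates under `HG` cover the
ample cone, such that an integral linear form `ξ` which is positive on the nef cone has on `D` the
minimal value of its orbit. The elements of `HG` which fix an interior point of `A^e(F)` in `D` form a
finite set: they preserve the sum `s` of some of the generators of `D` up to finitely many possibilities,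
and `s` is ample. If `h ∈ H` moves a `G`-invariant ample class into (a translate under `G` of) `D`, then
`h g h⁻¹` is for every `g ∈ G` in this finite set modulo the kernel of the action; so there are only
finitely many homomorphisms `g ↦ h g h⁻¹`, and the elements `h` with the same homomorphism form a coset
of the centraliser of `G` in `H`. So the centraliser moves every `G`-invariant ample class into one
rational polyhedral cone, whose generators are replaced by the sums of their translates under `G`. All
this is done modulo the torus which acts on the Cox ring. The elements of the centraliser give
automorphisms `(id, ψ)` of `X`; together with the units of the endomorphism ring of `A` they move every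
interior class of `A^e(X/Z)` into one rational polyhedral cone, as in `ReductionToFibre`. If `Cl(F)` has
rank two, the square of the given automorphism multiplies the two boundary rays of the nef cone by
positive numbers different from one; so the rays are irrational, no class on them is effective, and the
translates of the cone spanned by an ample class and its image cover the ample cone.

The definitions `Cl`, `Grp`, `Elt`, `base`, `IsQuotient`, `SemiampleF`, `Sheaf`, `EffDiv`, `NumTrivial`,
`N1`, `integral`, `nefCone`, `effCone` are in `Pool.Agent.X324.CF.Defs`; `IsVariety`, `act`, `IsPull`,
`nefEff`, `HasDomain` in `Pool.Agent.W4h4.NR.Defs`; `nefCl`, `effCl`, `IsAutF`, `IsAutFD`, `ConeConjF`,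
`FiniteKernel`, `IsAutX`, `IsAutGroupX` in `Pool.Agent.W4h4.NR.DefsF`; `IsFibration` in
`Pool.Agent.TH735.AQ.Defs`; `IsFundDomain` and `Preserves` in `Pool.Agent.Y167.Stm`; `cone` in
`Pool.Agent.Y167.ConeDef`.
-/

namespace Pool.Agent.W4h4.NR.FromFibre

open Pool.Agent.W594.SYZ2 Pool.Agent.TH735.AQ Pool.Agent.X324.CF Pool.Agent.W4h4.NR
open Pool.Agent.Y167 (AffGrp)
open Pool.Agent.Y167.CC (LinGrp)

/-- **The nef cone conjecture for `F` implies the one for `(A × F) / G`.** Let `F` be a projective
variety, `X = (V × F) / Γ` a projective quotient, `X → Z = W / Γ'` a fibration and `Δ` an effective
divisor with real coefficients on `X` such that `K_X + Δ` is numerically trivial over `Z`. Here `E` is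
the kernel of `π`, embedded by `j`. Assume that only finitely many of the automorphisms of `F` which
preserve `Δ` act trivially on `Cl(F)`, and that the cone conjecture holds for `F` and the group of these
automorphisms, or that `Cl(F)` has rank two and one of these automorphisms acts on it by a map `σ` with
`σ² ≠ 1`. Then `Aut(X/Z, Δ)` acts on `A^e(X/Z)` with a rational polyhedral fundamental domain. -/
theorem result {V W E R : Type*} [NormedAddCommGroup V] [NormedSpace ℂ V] [FiniteDimensional ℂ V]
    [NormedAddCommGroup W] [NormedSpace ℂ W] [FiniteDimensional ℂ W]
    [NormedAddCommGroup E] [NormedSpace ℂ E] [FiniteDimensional ℂ E]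
    [CommRing R] [IsDomain R] [Algebra ℂ R] {ρ : ℕ}
    (𝒜 : Cl ρ → Submodule ℂ R) [GradedAlgebra 𝒜] (u : Cl ρ) (hF : IsVariety 𝒜 u)
    (Γ : Grp V R) (hX : IsQuotient 𝒜 u Γ)
    (hproj : ∃ (L : Sheaf 𝒜 Γ) (H : V → V → ℂ), L.IsChern H ∧ IsPositiveForm H)
    (Γ' : AffGrp W) (π : V →ₗ[ℂ] W) (hπ : IsFibration (base Γ) Γ' π)
    (j : E →ₗ[ℂ] V) (hj : Function.Injective j) (hjr : LinearMap.range j = LinearMap.ker π)
    {ι : Type*} [Fintype ι] (Δ : EffDiv 𝒜 Γ ι) (hΔ : NumTrivial Δ j)
    (hker : FiniteKernel u Δ)
    (hcone : ConeConjF u Δ ∨ ρ = 2 ∧ ∃ ψ σ β, IsAutFD u Δ ψ σ ∧ σ (σ β) ≠ β)
    (𝒢 : LinGrp (N1 𝒜 Γ j)) (h𝒢 : IsAutGroupX u Γ' π Δ 𝒢) : HasDomain u 𝒢 := by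
  refine fibre hF hX hproj Γ' π hπ hj hjr Δ hΔ hker ?_ 𝒢 h𝒢
  rcases hcone with h | ⟨rfl, h⟩
  · exact h
  · exact cone_two hF h

end Pool.Agent.W4h4.NR.FromFibre
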