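import Pool.Agent.W4h4.NR.FCone

/-!
# The group of the automorphisms of `F`
-/

set_option autoImplicit false
set_option linter.unusedSectionVars false

namespace Pool.Agent.W4h4.NR

open Finset Filter Topology
open Pool.Agent.W594.SYZ2 Pool.Agent.W594.SYZ2.TQ Pool.Agent.TH735.AQ Pool.Agent.X324.CF
open Pool.Agent.Y167 (cone cone_add cone_smul cone_le cone_mono cone_sum mem_cone_self
  zero_mem_cone cone_image cone_ind cone_of_scaled mem_cone_of_sum Rel Pol Cp CData IsFace AffGrp)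

variable {R : Type*} [CommRing R] [IsDomain R] [Algebra ℂ R] {ρ : ℕ}
  {𝒜 : Cl ρ → Submodule ℂ R} [GradedAlgebra 𝒜] {u : Cl ρ}

/-- The group of the automorphisms of `Cl(F)`, with multiplicative notation. -/
instance grpCl (ρ : ℕ) : Group (Cl ρ ≃+ Cl ρ) where
  mul g h := h.trans g
  one := AddEquiv.refl _
  inv := AddEquiv.symm
  mul_assoc _ _ _ := rfl
  one_mul _ := rfl
  mul_one _ := rfl
  inv_mul_cancel g := AddEquiv.ext fun x => g.symm_apply_apply x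

omit [IsDomain R] [GradedAlgebra 𝒜] in
theorem IsAutF.one : IsAutF 𝒜 u 1 (1 : Cl ρ ≃+ Cl ρ) where
  induces := fun _ _ => Iff.rfl
  stable := fun _ => Iff.rfl

omit [IsDomain R] [GradedAlgebra 𝒜] in
theorem IsAutF.mul {ψ ψ' : R ≃ₐ[ℂ] R} {σ σ' : (Cl ρ ≃+ Cl ρ)} (h : IsAutF 𝒜 u ψ σ)
    (h' : IsAutF 𝒜 u ψ' σ') : IsAutF 𝒜 u (ψ * ψ') (σ * σ') where
  induces := fun β r => by
    rw [h'.induces, h.induces]
    rfl
  stable := fun p => by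
    rw [h.stable, h'.stable]
    rfl

omit [IsDomain R] [GradedAlgebra 𝒜] in
theorem IsAutF.inv {ψ : R ≃ₐ[ℂ] R} {σ : (Cl ρ ≃+ Cl ρ)} (h : IsAutF 𝒜 u ψ σ) :
    IsAutF 𝒜 u ψ⁻¹ σ⁻¹ where
  induces := fun β r => by
    have h1 := h.induces (σ⁻¹ β) (ψ⁻¹ r)
    have h2 : ψ (ψ⁻¹ r) = r := ψ.apply_symm_apply r
    have h3 : σ (σ⁻¹ β) = β := σ.apply_symm_apply β
    rw [h2, h3] at h1
    exact h1.symm
  stable := fun p => by
    have h1 := h.stable (p.comp ((ψ⁻¹ : R ≃ₐ[ℂ] R) : R →ₐ[ℂ] R))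
    have h2 : (p.comp ((ψ⁻¹ : R ≃ₐ[ℂ] R) : R →ₐ[ℂ] R)).comp (ψ : R →ₐ[ℂ] R) = p := by
      ext r
      change p (ψ.symm (ψ r)) = p r
      rw [ψ.symm_apply_apply]
    rw [h2] at h1
    exact h1.symm

/-- The group of the automorphisms of `F`, as pairs `(ψ, σ)`. -/
def GF (𝒜 : Cl ρ → Submodule ℂ R) (u : Cl ρ) : Subgroup ((R ≃ₐ[ℂ] R) × (Cl ρ ≃+ Cl ρ)) where
  carrier := {g | IsAutF 𝒜 u g.1 g.2}
  one_mem' := IsAutF.one
  mul_mem' := fun h h' => IsAutF.mul h h'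
  inv_mem' := fun h => IsAutF.inv h

theorem Semi_act {ψ : R ≃ₐ[ℂ] R} {σ : Cl ρ ≃+ Cl ρ} (h : IsAutF 𝒜 u ψ σ) {β : Cl ρ}
    (hβ : SemiampleF 𝒜 u β) : SemiampleF 𝒜 u (σ β) := by
  obtain ⟨m, hm, h1⟩ := hβ
  refine ⟨m, hm, fun p hp => ?_⟩
  obtain ⟨r, hr, hr0⟩ := h1 _ ((h.stable p).1 hp)
  refine ⟨ψ r, ?_, hr0⟩
  have h2 := (h.induces _ _).1 hr
  rwa [map_nsmul] at h2

/-- The action on real classes as a linear equivalence. -/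
noncomputable def actE (σ : (Cl ρ ≃+ Cl ρ)) : (Fin ρ → ℝ) ≃ₗ[ℝ] (Fin ρ → ℝ) :=
  { actL σ with
    invFun := act σ.symm
    left_inv := fun b => act_symm' σ b
    right_inv := fun b => act_symm σ b }

theorem actE_apply (σ : (Cl ρ ≃+ Cl ρ)) (b : Fin ρ → ℝ) : actE σ b = act σ b := rfl

/-- The action of the group. -/
noncomputable def Θ (𝒜 : Cl ρ → Submodule ℂ R) (u : Cl ρ) :
    GF 𝒜 u →* ((Fin ρ → ℝ) ≃ₗ[ℝ] (Fin ρ → ℝ)) where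
  toFun g := actE g.1.2
  map_one' := by
    ext1 b
    exact act_refl b
  map_mul' g h := by
    ext1 b
    exact (act_comp g.1.2 h.1.2 b).symm

theorem Θ_apply (g : GF 𝒜 u) (b : Fin ρ → ℝ) : Θ 𝒜 u g b = act g.1.2 b := rfl

theorem act_continuous (σ : Cl ρ ≃+ Cl ρ) : Continuous (act σ) :=
  (actL σ).continuous_of_finiteDimensional

theorem act_hull {σ : Cl ρ ≃+ Cl ρ} {P Q : Set (Fin ρ → ℝ)} (h : ∀ b ∈ P, act σ b ∈ coneHull Q)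
    {b : Fin ρ → ℝ} (hb : b ∈ coneHull P) : act σ b ∈ coneHull Q := by
  refine hull_ind (p := fun b => act σ b ∈ coneHull Q) ?_ ?_ ?_ h hb
  · have h1 : act σ (0 : Fin ρ → ℝ) = 0 := map_zero (actL σ)
    rw [h1]
    exact hull_zero
  · intro a b ha hb
    have h1 : act σ (a + b) = act σ a + act σ b := map_add (actL σ) a b
    rw [h1]
    exact hull_add ha hb
  · intro t a ht ha
    have h1 : act σ (t • a) = t • act σ a := map_smul (actL σ) t a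
    rw [h1]
    exact hull_smul ht ha

theorem Θ_nef (g : GF 𝒜 u) {b : Fin ρ → ℝ} (hb : b ∈ nefCl 𝒜 u) : Θ 𝒜 u g b ∈ nefCl 𝒜 u := by
  rw [Θ_apply]
  refine map_mem_closure (act_continuous g.1.2) hb fun a ha => act_hull ?_ ha
  rintro _ ⟨β, hβ, rfl⟩
  have h1 : act g.1.2 (vec β) = rv (g.1.2 β) := act_rv g.1.2 β
  rw [h1]
  exact hull_mem ⟨_, Semi_act g.2 hβ, rfl⟩

theorem Θ_eff (g : GF 𝒜 u) {b : Fin ρ → ℝ} (hb : b ∈ effCl 𝒜) : Θ 𝒜 u g b ∈ effCl 𝒜 := by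
  rw [Θ_apply]
  refine act_hull ?_ hb
  rintro _ ⟨β, ⟨r, hr, hr0⟩, rfl⟩
  have h1 : act g.1.2 (vec β) = rv (g.1.2 β) := act_rv g.1.2 β
  rw [h1]
  refine hull_mem ⟨_, ⟨g.1.1 r, (g.2.induces _ _).1 hr, fun h => hr0 ?_⟩, rfl⟩
  exact (map_eq_zero_iff _ g.1.1.injective).1 h

theorem Θ_int (g : GF 𝒜 u) {b : Fin ρ → ℝ} (hb : b ∈ intCl ρ) : Θ 𝒜 u g b ∈ intCl ρ := by
  obtain ⟨β, rfl⟩ := hb
  exact ⟨g.1.2 β, act_rv g.1.2 β⟩

/-- The action on `Cl(F)` is determined by the automorphism. -/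
theorem sigma_unique (hF : IsVariety 𝒜 u) {ψ : R ≃ₐ[ℂ] R} {σ τ : Cl ρ ≃+ Cl ρ}
    (h1 : ∀ β, ∀ r ∈ 𝒜 β, ψ r ∈ 𝒜 (σ β)) (h2 : ∀ β, ∀ r ∈ 𝒜 β, ψ r ∈ 𝒜 (τ β)) : σ = τ := by
  have h3 := hF.base.gens ((σ : Cl ρ →+ Cl ρ).eqLocus (τ : Cl ρ →+ Cl ρ)) (by
    rintro β ⟨r, hr, hr0⟩
    change σ β = τ β
    have h4 := h1 β r hr
    have h5 := h2 β r hr
    by_contra hne
    have h6 := DirectSum.degree_eq_of_mem_mem 𝒜 h4 h5 (by
      intro h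
      exact hr0 ((map_eq_zero_iff _ ψ.injective).1 h))
    exact hne h6)
  ext1 β
  have h4 : β ∈ (σ : Cl ρ →+ Cl ρ).eqLocus (τ : Cl ρ →+ Cl ρ) := by
    rw [h3]
    trivial
  exact h4

theorem act_inj {σ τ : Cl ρ ≃+ Cl ρ} (h : ∀ b, act σ b = act τ b) : σ = τ := by
  ext1 β
  apply rv_inj
  rw [← act_rv, ← act_rv, h]

/-- The scalars. -/
def ScF (𝒜 : Cl ρ → Submodule ℂ R) (u : Cl ρ) : Subgroup (GF 𝒜 u) :=
  (((Scal 𝒜).comap (MonoidHom.fst _ _)) ⊓ (MonoidHom.snd _ _).ker).comap (GF 𝒜 u).subtype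

theorem mem_ScF {g : GF 𝒜 u} : g ∈ ScF 𝒜 u ↔ g.1.1 ∈ Scal 𝒜 ∧ g.1.2 = 1 := Iff.rfl

theorem ScF_conj (g s : GF 𝒜 u) (hs : s ∈ ScF 𝒜 u) : g * s * g⁻¹ ∈ ScF 𝒜 u := by
  rw [mem_ScF] at hs ⊢
  obtain ⟨h1, h2⟩ := hs
  refine ⟨fun β => ?_, ?_⟩
  · obtain ⟨c, hc⟩ := h1 (g.1.2⁻¹ β)
    refine ⟨c, fun r hr => ?_⟩
    change g.1.1 (s.1.1 (g.1.1⁻¹ r)) = c • r
    rw [hc _ ((g.2.inv.induces _ _).1 hr), map_smul]
    congr 1
    exact g.1.1.apply_symm_apply r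
  · change g.1.2 * s.1.2 * g.1.2⁻¹ = 1
    rw [h2, mul_one, mul_inv_cancel]

section Pair

variable {V : Type*} [NormedAddCommGroup V] [NormedSpace ℂ V] [FiniteDimensional ℂ V]
  {Γ : Grp V R} {ι : Type*} {Δ : EffDiv 𝒜 Γ ι}

theorem FixesD.one : FixesD Δ id 1 := fun i _ =>
  ⟨fun _ => 1, differentiable_const _, fun _ => one_ne_zero, fun v => by rw [one_smul]; rfl⟩

theorem FixesD.mul {ψ ψ' : R ≃ₐ[ℂ] R} (h : FixesD Δ id ψ) (h' : FixesD Δ id ψ') :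
    FixesD Δ id (ψ * ψ') := by
  intro i hi
  obtain ⟨a, ha1, ha2, ha3⟩ := h i hi
  obtain ⟨b, hb1, hb2, hb3⟩ := h' i hi
  refine ⟨fun v => a v * b v, ha1.mul hb1, fun v => mul_ne_zero (ha2 v) (hb2 v), fun v => ?_⟩
  have h1 := ha3 v
  have h2 := hb3 v
  change Δ.s i v = _ at h1
  change Δ.s i v = _ at h2
  change Δ.s i v = (a v * b v) • ψ (ψ' (Δ.s i v))
  rw [mul_smul, ← map_smul ψ (b v), ← h2]
  exact h1

theorem FixesD.inv {ψ : R ≃ₐ[ℂ] R} (h : FixesD Δ id ψ) : FixesD Δ id ψ⁻¹ := by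
  intro i hi
  obtain ⟨a, ha1, ha2, ha3⟩ := h i hi
  refine ⟨fun v => (a v)⁻¹, ha1.inv ha2, fun v => inv_ne_zero (ha2 v), fun v => ?_⟩
  have h1 := ha3 v
  change Δ.s i v = _ at h1
  change Δ.s i v = (a v)⁻¹ • ψ.symm (Δ.s i v)
  conv_rhs => rw [h1]
  rw [map_smul, ψ.symm_apply_apply, smul_smul, inv_mul_cancel₀ (ha2 v), one_smul]

/-- The automorphisms of `F` which preserve `Δ`. -/
def HF (u : Cl ρ) (Δ : EffDiv 𝒜 Γ ι) : Subgroup (GF 𝒜 u) where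
  carrier := {g | FixesD Δ id g.1.1}
  one_mem' := FixesD.one
  mul_mem' := fun h h' => FixesD.mul h h'
  inv_mem' := fun h => FixesD.inv h

theorem mem_HF {g : GF 𝒜 u} : g ∈ HF u Δ ↔ FixesD Δ id g.1.1 := Iff.rfl

/-- The finite group. -/
def QF (u : Cl ρ) (𝒜 : Cl ρ → Submodule ℂ R) (Γ : Grp V R) : Subgroup (GF 𝒜 u) :=
  ((gal Γ).comap (MonoidHom.fst _ _)).comap (GF 𝒜 u).subtype

theorem mem_QF {g : GF 𝒜 u} : g ∈ QF u 𝒜 Γ ↔ g.1.1 ∈ gal Γ := Iff.rfl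

theorem QF_finite (hF : IsVariety 𝒜 u) (hQ : IsQuotient 𝒜 u Γ) : Finite (QF u 𝒜 Γ) := by
  have := hQ.fin_gal
  let f : QF u 𝒜 Γ → gal Γ := fun g => ⟨g.1.1.1, g.2⟩
  refine Finite.of_injective f ?_
  intro g h hgh
  have h1 : g.1.1.1 = h.1.1.1 := congrArg Subtype.val hgh
  have h2 : g.1.1.2 = h.1.1.2 := by
    refine sigma_unique hF (ψ := g.1.1.1) (fun β r hr => (g.1.2.induces β r).1 hr) fun β r hr => ?_
    rw [h1]
    exact (h.1.2.induces β r).1 hr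
  exact Subtype.ext (Subtype.ext (Prod.ext h1 h2))

/-- The elements of `Γ` give automorphisms of `F`. -/
theorem aut_of_mem (hF : IsVariety 𝒜 u) (hQ : IsQuotient 𝒜 u Γ) {γ : Elt V R} (hγ : γ ∈ Γ) :
    ∃ σ, IsAutF 𝒜 u γ.2 σ := by
  obtain ⟨σ, hσ⟩ := hQ.perm γ hγ
  obtain ⟨τ, hτ⟩ := hQ.perm γ⁻¹ (Γ.inv_mem hγ)
  have h1 : σ.trans τ = AddEquiv.refl _ := by
    refine sigma_unique hF (ψ := (1 : R ≃ₐ[ℂ] R)) (fun β r hr => ?_) fun β r hr => hr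
    have h2 := hτ _ _ (hσ β r hr)
    have h3 : (γ⁻¹).2 (γ.2 r) = r := γ.2.symm_apply_apply r
    rw [h3] at h2
    exact h2
  have h1' : ∀ β, τ (σ β) = β := fun β => congrFun (congrArg DFunLike.coe h1) β
  refine ⟨σ, ⟨fun β r => ⟨fun hr => hσ β r hr, fun hr => ?_⟩, fun p => ⟨fun hp => ?_, fun hp => ?_⟩⟩⟩
  · have h2 := hτ _ _ hr
    have h3 : (γ⁻¹).2 (γ.2 r) = r := γ.2.symm_apply_apply r
    rwa [h3, h1'] at h2
  · exact semistable_comp hQ hp (mem_gal hγ)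
  · have h2 := semistable_comp hQ hp (mem_gal (Γ.inv_mem hγ))
    have h3 : (p.comp (γ.2 : R →ₐ[ℂ] R)).comp ((γ⁻¹).2 : R →ₐ[ℂ] R) = p := by
      ext r
      change p (γ.2 (γ.2.symm r)) = p r
      rw [γ.2.apply_symm_apply]
    rwa [h3] at h2

/-- The finite group normalises the group of the automorphisms which preserve `Δ`. -/
theorem QF_conj (g h : GF 𝒜 u) (hg : g ∈ QF u 𝒜 Γ) (hh : h ∈ HF u Δ) : g * h * g⁻¹ ∈ HF u Δ := by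
  rw [mem_HF] at hh ⊢
  obtain ⟨γ, hγ, hγg⟩ := hg
  have hγ' : γ.2 = g.1.1 := hγg
  intro i hi
  obtain ⟨a, ha1, ha2, ha3⟩ := hh i hi
  refine ⟨fun v => a (γ.1.symm v), ha1.comp (affine_differentiable γ.1.symm),
    fun v => ha2 _, fun v => ?_⟩
  have h1 := (Δ.sect i).eq ⟨γ, hγ⟩ (γ.1.symm v)
  have h2 : γ.1 (γ.1.symm v) = v := γ.1.apply_symm_apply v
  simp only at h1
  rw [h2, hγ'] at h1
  set e := (Δ.L i).e ⟨γ, hγ⟩ (γ.1.symm v) with he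
  have h3 := ha3 (γ.1.symm v)
  change Δ.s i (γ.1.symm v) = _ at h3
  change Δ.s i v = a (γ.1.symm v) • g.1.1 (h.1.1 (g.1.1.symm (Δ.s i v)))
  have h4 : g.1.1.symm (Δ.s i v) = e • Δ.s i (γ.1.symm v) := by
    rw [h1, map_smul, g.1.1.symm_apply_apply]
  rw [h4, map_smul, map_smul, smul_comm, ← map_smul g.1.1 (a (γ.1.symm v)), ← h3]
  exact h1

/-- The kernel of the action is finite modulo scalars. -/
theorem ker_finite (hk : FiniteKernel u Δ) : ∃ N : Set (GF 𝒜 u), N.Finite ∧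
    ∀ h ∈ HF u Δ, Θ 𝒜 u h = 1 → ∃ n ∈ N, n⁻¹ * h ∈ ScF 𝒜 u := by
  classical
  obtain ⟨N, hN⟩ := hk
  let X : Set (GF 𝒜 u) := {h | h ∈ HF u Δ ∧ h.1.2 = 1}
  have h1 : ∀ h ∈ X, ∃ φ ∈ N, ∀ β, ∃ c : ℂ, ∀ r ∈ 𝒜 β, h.1.1 r = c • φ r := by
    rintro h ⟨hh, h2⟩
    refine hN _ ⟨?_, hh⟩
    have h3 := h.2
    have h4 : IsAutF 𝒜 u h.1.1 h.1.2 := h3
    rw [h2] at h4
    exact h4
  choose! φ hφN hφ using h1
  obtain ⟨Y, hYX, hYf, hY⟩ := reps X φ (N.finite_toSet.subset (by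
    rintro _ ⟨h, hh, rfl⟩
    exact hφN h hh))
  refine ⟨Y, hYf, fun h hh hΘ => ?_⟩
  have hhX : h ∈ X := by
    refine ⟨hh, act_inj fun b => ?_⟩
    have h2 := LinearEquiv.congr_fun hΘ b
    rw [Θ_apply] at h2
    rw [h2]
    exact (act_refl b).symm
  obtain ⟨y, hy, hyh⟩ := hY h hhX
  refine ⟨y, hy, ?_⟩
  rw [mem_ScF]
  refine ⟨fun β => ?_, ?_⟩
  · obtain ⟨c, hc⟩ := hφ h hhX β
    obtain ⟨c', hc'⟩ := hφ y (hYX hy) β
    refine ⟨c / c', fun r hr => ?_⟩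
    change y.1.1.symm (h.1.1 r) = _
    rw [AlgEquiv.symm_apply_eq, map_smul, hc r hr, hc' r hr, hyh, smul_smul]
    by_cases hc0 : c' = 0
    · have h2 := hc' r hr
      rw [hc0, zero_smul] at h2
      have h3 : r = 0 := (map_eq_zero_iff _ y.1.1.injective).1 h2
      rw [h3]
      simp
    · rw [div_mul_cancel₀ _ hc0]
  · change y.1.2⁻¹ * h.1.2 = 1
    rw [(hYX hy).2, hhX.2, inv_one, mul_one]

end Pair

end Pool.Agent.W4h4.NR
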