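import Pool.Agent.Y167.Dom

/-!
# Dirichlet cones and stabilisers of interior points

If a group of automorphisms of a lattice and a convex cone moves every interior point into a rational
polyhedral cone, it moves every interior point into a Dirichlet cone; the stabilisers of the interior
points of the Dirichlet cone are contained in a finite set.
-/

set_option autoImplicit false

namespace Pool.Agent.W4h4.NR

open Finset Filter Topology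
open Pool.Agent.Y167

variable {W : Type*} [AddCommGroup W] [Module ℝ W]
  {L : AddSubgroup W} {Nf : Set W} {ξ₀ : W →ₗ[ℝ] ℝ} {y₀ : W} {Y : Finset W}

/-- A Dirichlet cone. -/
theorem dirichlet (D : CData L Nf ξ₀ y₀ Y) (𝒢 : Subgroup (W ≃ₗ[ℝ] W))
    (hL : ∀ g ∈ 𝒢, ∀ x ∈ L, g x ∈ L) (hN : ∀ g ∈ 𝒢, ∀ x ∈ Nf, g x ∈ Nf)
    (F : Finset W) (hF : ∀ a ∈ F, a ∈ L ∧ a ∈ Nf)
    (hcov : ∀ x, (∃ t : ℝ, 0 < t ∧ x - t • y₀ ∈ Nf) → ∃ g ∈ 𝒢, g x ∈ cone F) :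
    ∃ (ξ : W →ₗ[ℝ] ℝ) (c : ℝ) (S : Finset W), 0 < c ∧ (∀ x ∈ Nf, c * ξ₀ x ≤ ξ x) ∧
      (∀ a ∈ S, a ∈ L ∧ a ∈ Nf) ∧ (∀ x ∈ cone S, ∀ g ∈ 𝒢, ξ x ≤ ξ (g x)) ∧
      ∀ x, (∃ t : ℝ, 0 < t ∧ x - t • y₀ ∈ Nf) → ∃ g ∈ 𝒢, g x ∈ cone S := by
  classical
  obtain ⟨ξ, hξ, ⟨c, hc, hξc⟩, -⟩ := D.exists_xi 𝒢 hL hN
  obtain ⟨T, hT𝒢, hT⟩ := D.exists_dickson 𝒢 hL hN hξ hc hξc F hF
  have hpiece : ∀ t : W ≃ₗ[ℝ] W, t ∈ T → ∃ S' : Finset W, (∀ a ∈ S', a ∈ L ∧ a ∈ Nf) ∧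
      ∀ x, x ∈ cone S' ↔ x ∈ cone F ∧ ∀ t' ∈ T, ξ (t x) ≤ ξ (t' x) := by
    intro t ht
    obtain ⟨S', hS', h⟩ := CData.cut_many F hF D
      (T.image fun t' : W ≃ₗ[ℝ] W => ξ.comp (t' : W →ₗ[ℝ] W) - ξ.comp (t : W →ₗ[ℝ] W)) (by
        intro φ hφ x hx
        obtain ⟨t', ht', rfl⟩ := Finset.mem_image.1 hφ
        obtain ⟨m, hm⟩ := hξ _ (hL t' (hT𝒢 t' ht') x hx)
        obtain ⟨n, hn⟩ := hξ _ (hL t (hT𝒢 t ht) x hx)
        exact ⟨m - n, by simp [hm, hn]⟩)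
    refine ⟨S', hS', fun x => ?_⟩
    rw [h]
    simp only [Finset.forall_mem_image, LinearMap.sub_apply, LinearMap.comp_apply,
      LinearEquiv.coe_coe, sub_nonneg]
  choose! P hP hPc using hpiece
  let S : Finset W := T.biUnion fun t => (P t).image t
  have hSmem : ∀ a ∈ S, ∃ t ∈ T, ∃ b ∈ P t, t b = a := by
    intro a ha
    obtain ⟨t, ht, h1⟩ := Finset.mem_biUnion.1 ha
    obtain ⟨b, hb, rfl⟩ := Finset.mem_image.1 h1
    exact ⟨t, ht, b, hb, rfl⟩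
  refine ⟨ξ, c, S, hc, hξc, ?_, ?_, ?_⟩
  · intro a ha
    obtain ⟨t, ht, b, hb, rfl⟩ := hSmem a ha
    exact ⟨hL t (hT𝒢 t ht) _ (hP t ht b hb).1, hN t (hT𝒢 t ht) _ (hP t ht b hb).2⟩
  · intro x hx g hg
    have h1 : ∀ a ∈ S, ξ ((LinearMap.id : W →ₗ[ℝ] W) a) ≤ ξ ((g : W →ₗ[ℝ] W) a) := by
      intro a ha
      obtain ⟨t, ht, b, hb, rfl⟩ := hSmem a ha
      have h2 := (hPc t ht b).1 (mem_cone_self hb)
      obtain ⟨t', ht', h3⟩ := hT (g * t) (𝒢.mul_mem hg (hT𝒢 t ht))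
      have h4 : ξ ((t' : W →ₗ[ℝ] W) b) ≤ ξ (((g * t : W ≃ₗ[ℝ] W) : W →ₗ[ℝ] W) b) :=
        CData.le_of_cone (fun a ha => h3 a ha) h2.1
      exact (h2.2 t' ht').trans h4
    exact CData.le_of_cone h1 hx
  · intro x hx
    obtain ⟨g, hg, hgx⟩ := hcov x hx
    have hTne : T.Nonempty := by
      obtain ⟨t, ht, -⟩ := hT 1 𝒢.one_mem
      exact ⟨t, ht⟩
    obtain ⟨t, ht, hmin⟩ := Finset.exists_min_image T (fun t => ξ (t (g x))) hTne
    have h1 : g x ∈ cone (P t) := (hPc t ht _).2 ⟨hgx, hmin⟩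
    refine ⟨t * g, 𝒢.mul_mem (hT𝒢 t ht) hg, ?_⟩
    have h2 : (t : W →ₗ[ℝ] W) (g x) ∈ cone ((P t).image (t : W →ₗ[ℝ] W)) := cone_image _ h1
    refine cone_mono ?_ h2
    exact Finset.subset_biUnion_of_mem (fun t : W ≃ₗ[ℝ] W => (P t).image t) ht

/-- The stabilisers of the interior points of a Dirichlet cone lie in a finite set. -/
theorem siegel (D : CData L Nf ξ₀ y₀ Y) (𝒢 : Subgroup (W ≃ₗ[ℝ] W))
    (hL : ∀ g ∈ 𝒢, ∀ x ∈ L, g x ∈ L) (hN : ∀ g ∈ 𝒢, ∀ x ∈ Nf, g x ∈ Nf)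
    (F : Finset W) (hF : ∀ a ∈ F, a ∈ L ∧ a ∈ Nf)
    (hcov : ∀ x, (∃ t : ℝ, 0 < t ∧ x - t • y₀ ∈ Nf) → ∃ g ∈ 𝒢, g x ∈ cone F) :
    ∃ (S : Finset W) (𝓢 : Set (W ≃ₗ[ℝ] W)), 𝓢.Finite ∧ (∀ a ∈ S, a ∈ L ∧ a ∈ Nf) ∧
      (∀ x, (∃ t : ℝ, 0 < t ∧ x - t • y₀ ∈ Nf) → ∃ g ∈ 𝒢, g x ∈ cone S) ∧
      ∀ x ∈ cone S, (∃ t : ℝ, 0 < t ∧ x - t • y₀ ∈ Nf) → ∀ g ∈ 𝒢, g x = x → g ∈ 𝓢 := by
  classical
  obtain ⟨ξ, c, S, hc, hξc, hS, hdir, hcov2⟩ := dirichlet D 𝒢 hL hN F hF hcov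
  have hξnn : ∀ x ∈ Nf, 0 ≤ ξ x := fun x hx =>
    le_trans (mul_nonneg hc.le (D.xi_nonneg hx)) (hξc x hx)
  choose! K hK using D.y_int
  -- a bound for the elements which map `y` to a point with the same value of `ξ`
  have hsum : ∀ T : Finset W, T ⊆ S → ∑ a ∈ T, a ∈ Nf := by
    intro T hT
    exact D.cone_Nf hS (cone_sum _ _ fun a ha => mem_cone_self (hT ha))
  -- for each subset `T` whose sum is interior a constant
  have hbd : ∀ T : Finset W, T ⊆ S → (∃ t : ℝ, 0 < t ∧ ∑ a ∈ T, a - t • y₀ ∈ Nf) →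
      ∃ C : ℝ, ∀ g ∈ 𝒢, ξ (g (∑ a ∈ T, a)) = ξ (∑ a ∈ T, a) → ∀ y ∈ Y, ξ₀ (g y) ≤ C := by
    rintro T hT ⟨t, ht, h1⟩
    set s : W := ∑ a ∈ T, a with hs
    refine ⟨∑ y ∈ Y, K y * ((ξ s / t) / c), fun g hg hgs y hy => ?_⟩
    have h2 : g (s - t • y₀) ∈ Nf := hN g hg _ h1
    have h3 := hξnn _ h2
    rw [map_sub, map_sub, map_smul, map_smul, smul_eq_mul, hgs, sub_nonneg] at h3
    have h4 : ξ (g y₀) ≤ ξ s / t := by
      rw [le_div_iff₀ ht]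
      linarith
    have h5 : g (K y • y₀ - y) ∈ Nf := hN g hg _ (hK y).2
    have h6 := hξnn _ h5
    rw [map_sub, map_sub, map_smul, map_smul, smul_eq_mul, sub_nonneg] at h6
    have h7 := hξc _ (hN g hg _ (D.Y_mem y hy).2)
    have h8 : c * ξ₀ (g y) ≤ K y * (ξ s / t) := by
      refine h7.trans (h6.trans ?_)
      exact mul_le_mul_of_nonneg_left h4 (hK y).1.le
    have h9 : ξ₀ (g y) ≤ K y * ((ξ s / t) / c) := by
      rw [← mul_div_assoc, le_div_iff₀ hc]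
      linarith
    refine h9.trans (Finset.single_le_sum (f := fun y => K y * ((ξ s / t) / c)) ?_ hy)
    intro y _
    exact mul_nonneg (hK y).1.le (div_nonneg (div_nonneg (hξnn _ (hsum T hT)) ht.le) hc.le)
  choose! C hC using hbd
  refine ⟨S, ⋃ T ∈ S.powerset, {g | g ∈ 𝒢 ∧ ∀ y ∈ Y, ξ₀ (g y) ≤ C T}, ?_, hS, hcov2, ?_⟩
  · exact Set.Finite.biUnion (Finset.finite_toSet _) fun T _ => D.finite_small 𝒢 hL hN (C T)
  · rintro x hx ⟨t, ht, hxt⟩ g hg hgx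
    obtain ⟨cf, hcf, hxc⟩ := hx
    set T := S.filter fun a => cf a ≠ 0 with hT
    have hTS : T ⊆ S := Finset.filter_subset _ _
    have hxT : x = ∑ a ∈ T, cf a • a := by
      rw [hxc, hT, Finset.sum_filter_of_ne]
      intro a _ ha h
      exact ha (by rw [h, zero_smul])
    have hpos : ∀ a ∈ T, 0 < cf a := fun a ha =>
      lt_of_le_of_ne (hcf a) (Ne.symm (Finset.mem_filter.1 ha).2)
    -- the values of `ξ` at the elements of `T` do not change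
    have h0 : ∀ a ∈ T, 0 ≤ cf a * (ξ (g a) - ξ a) := fun a ha =>
      mul_nonneg (hcf a) (sub_nonneg.2 (hdir a (mem_cone_self (hTS ha)) g hg))
    have h1 : ∑ a ∈ T, cf a * (ξ (g a) - ξ a) = 0 := by
      have h2 : ξ (g x) - ξ x = 0 := by rw [hgx, sub_self]
      rw [hxT, map_sum, map_sum, map_sum, ← Finset.sum_sub_distrib] at h2
      rw [← h2]
      refine Finset.sum_congr rfl fun a _ => ?_
      rw [map_smul, map_smul, map_smul, smul_eq_mul, smul_eq_mul]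
      ring
    have h2 : ∀ a ∈ T, ξ (g a) = ξ a := by
      intro a ha
      have h3 := (Finset.sum_eq_zero_iff_of_nonneg h0).1 h1 a ha
      have h4 := (mul_eq_zero.1 h3).resolve_left (hpos a ha).ne'
      exact sub_eq_zero.1 h4
    have h3 : ξ (g (∑ a ∈ T, a)) = ξ (∑ a ∈ T, a) := by
      rw [map_sum, map_sum, map_sum]
      exact Finset.sum_congr rfl h2
    -- the sum is an interior point
    have h4 : ∃ t : ℝ, 0 < t ∧ ∑ a ∈ T, a - t • y₀ ∈ Nf := by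
      obtain ⟨M, hM, hMc⟩ : ∃ M : ℝ, 0 < M ∧ ∀ a ∈ T, cf a ≤ M := by
        refine ⟨1 + ∑ a ∈ T, cf a, ?_, fun a ha => ?_⟩
        · have : 0 ≤ ∑ a ∈ T, cf a := Finset.sum_nonneg fun a _ => hcf a
          linarith
        · have := Finset.single_le_sum (f := cf) (fun a _ => hcf a) ha
          linarith
      refine ⟨t / M, div_pos ht hM, ?_⟩
      have h5 : ∑ a ∈ T, a - (t / M) • y₀
          = M⁻¹ • (x - t • y₀) + ∑ a ∈ T, (1 - cf a / M) • a := by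
        have h6 : ∑ a ∈ T, (1 - cf a / M) • a = ∑ a ∈ T, a - M⁻¹ • x := by
          rw [hxT, Finset.smul_sum, ← Finset.sum_sub_distrib]
          refine Finset.sum_congr rfl fun a _ => ?_
          rw [smul_smul, sub_smul, one_smul, div_eq_inv_mul]
        rw [h6, smul_sub, smul_smul, div_eq_inv_mul]
        abel
      rw [h5]
      refine D.add _ (D.smul _ (inv_nonneg.2 hM.le) _ hxt) _ ?_
      refine D.cone_Nf hS (cone_sum _ _ fun a ha => cone_smul (mem_cone_self (hTS ha)) ?_)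
      rw [sub_nonneg, div_le_one hM]
      exact hMc a ha
    simp only [Set.mem_iUnion, Finset.mem_powerset, exists_prop]
    exact ⟨T, hTS, hg, fun y hy => hC T hTS h4 g hg h3 y hy⟩

end Pool.Agent.W4h4.NR
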